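import Pool.Agent.Helper52.MVD.MDefs

/-!
Project MV, block D1, module D1-15: the differential field of rational functions.

`R = MvPolynomial (Fin N) ℝ`, `F = FractionRing R`, `s j = algebraMap (X j)`.
`exists_ext`: every derivation `δ : Derivation ℝ R R` extends to `F`: the ring homomorphism
`R → TrivSqZeroExt F F`, `r ↦ inl r + inr (δ r)`, maps nonzero elements to units (`TrivSqZeroExt.isUnit_iff_isUnit_fst`),
hence lifts to `F` (`IsLocalization.lift`), and the `snd` component of the lift is the derivation (its `fst` component is the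
identity). (Or define `d (a/b) = (b δa - a δb)/b²` directly.) A derivation of `F` vanishing on the image of `R`
vanishes (`D (a/b) = (b D a - a D b)/b²`), so two derivations agreeing on the image of `R` are equal (`deriv_unique`), and
the commutator of the extensions of `pderiv i`, `pderiv j` is a derivation (`⁅d₁, d₂⁆`) vanishing on `R` (there the partial
derivatives commute), hence 0. `d i (s j) = δ_ij` by `MvPolynomial.pderiv_X`.
-/

namespace Pool.Agent.Helper52.MVD

open Finset Pool.Agent.Helper60.MV

private noncomputable def h35g {R : Type} [CommRing R] [IsDomain R] [Algebra ℝ R]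
    (δ : Derivation ℝ R R) : R →+* TrivSqZeroExt (FractionRing R) (FractionRing R) where
  toFun r := TrivSqZeroExt.inl (algebraMap R (FractionRing R) r) +
    TrivSqZeroExt.inr (algebraMap R (FractionRing R) (δ r))
  map_one' := by
    ext <;> simp
  map_mul' a b := by
    ext
    · simp only [TrivSqZeroExt.fst_add, TrivSqZeroExt.fst_inl, TrivSqZeroExt.fst_inr,
        TrivSqZeroExt.fst_mul, map_mul, add_zero]
    · simp only [TrivSqZeroExt.snd_add, TrivSqZeroExt.snd_inl, TrivSqZeroExt.snd_inr,
        TrivSqZeroExt.snd_mul, TrivSqZeroExt.fst_add, TrivSqZeroExt.fst_inl,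
        TrivSqZeroExt.fst_inr, map_mul, add_zero, zero_add, Derivation.leibniz, smul_eq_mul,
        map_add, MulOpposite.smul_eq_mul_unop, MulOpposite.unop_op]
      ring
  map_zero' := by
    ext <;> simp
  map_add' a b := by
    ext
    · simp only [TrivSqZeroExt.fst_add, TrivSqZeroExt.fst_inl, TrivSqZeroExt.fst_inr, map_add,
        add_zero]
    · simp only [TrivSqZeroExt.snd_add, TrivSqZeroExt.snd_inl, TrivSqZeroExt.snd_inr, map_add,
        zero_add]

theorem exists_ext {R : Type} [CommRing R] [IsDomain R] [Algebra ℝ R] (δ : Derivation ℝ R R) :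
    ∃ d : Derivation ℝ (FractionRing R) (FractionRing R),
      ∀ r : R, d (algebraMap R (FractionRing R) r) = algebraMap R (FractionRing R) (δ r) := by
  have hg : ∀ y : nonZeroDivisors R, IsUnit (h35g δ y) := by
    intro y
    rw [TrivSqZeroExt.isUnit_iff_isUnit_fst]
    have : (h35g δ (y : R)).fst = algebraMap R (FractionRing R) y := by
      simp [h35g]
    rw [this]
    exact IsLocalization.map_units (FractionRing R) y
  let L : FractionRing R →+* TrivSqZeroExt (FractionRing R) (FractionRing R) :=
    IsLocalization.lift hg
  have hL : ∀ r : R, L (algebraMap R (FractionRing R) r) = h35g δ r := fun r =>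
    IsLocalization.lift_eq hg r
  have hfst : ∀ x : FractionRing R, (L x).fst = x := by
    have : ((TrivSqZeroExt.fstHom ℝ (FractionRing R) (FractionRing R)).toRingHom).comp L =
        RingHom.id (FractionRing R) := by
      apply IsLocalization.ringHom_ext (nonZeroDivisors R)
      ext r
      simp only [RingHom.comp_apply, RingHom.id_apply]
      rw [hL]
      simp [h35g]
    intro x
    exact congrArg (fun f : FractionRing R →+* FractionRing R => f x) this
  have hsmul : ∀ (c : ℝ) (x : FractionRing R), (L (c • x)).snd = c • (L x).snd := by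
    intro c x
    have e1 : c • x = algebraMap R (FractionRing R) (algebraMap ℝ R c) * x := by
      rw [Algebra.smul_def, ← IsScalarTower.algebraMap_apply]
    have e2 : c • (L x).snd = algebraMap R (FractionRing R) (algebraMap ℝ R c) * (L x).snd := by
      rw [Algebra.smul_def, ← IsScalarTower.algebraMap_apply]
    rw [e1, map_mul, hL, e2]
    simp [h35g]
  refine ⟨Derivation.mk' { toFun := fun x => (L x).snd, map_add' := ?_, map_smul' := ?_ } ?_, ?_⟩
  · intro x y
    simp
  · intro c x
    simpa using hsmul c x
  · intro a b
    simp only [LinearMap.coe_mk, AddHom.coe_mk, map_mul, TrivSqZeroExt.snd_mul, hfst,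
      smul_eq_mul, MulOpposite.smul_eq_mul_unop, MulOpposite.unop_op]
    ring
  · intro r
    change (L (algebraMap R (FractionRing R) r)).snd = _
    rw [hL]
    change (TrivSqZeroExt.inl (algebraMap R (FractionRing R) r) +
      TrivSqZeroExt.inr (algebraMap R (FractionRing R) (δ r))).snd = _
    simp only [TrivSqZeroExt.snd_add, TrivSqZeroExt.snd_inl, TrivSqZeroExt.snd_inr, zero_add]

theorem deriv_unique {R : Type} [CommRing R] [IsDomain R] [Algebra ℝ R]
    (d d' : Derivation ℝ (FractionRing R) (FractionRing R))
    (h : ∀ r : R, d (algebraMap R (FractionRing R) r) = d' (algebraMap R (FractionRing R) r)) :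
    d = d' := by
  ext x
  obtain ⟨a, b, hb, rfl⟩ := IsFractionRing.div_surjective (A := R) x
  have hb0 : algebraMap R (FractionRing R) b ≠ 0 := by
    intro h0
    rw [FaithfulSMul.algebraMap_eq_zero_iff] at h0
    exact nonZeroDivisors.ne_zero hb h0
  set ib := algebraMap R (FractionRing R) b with hib
  set ia := algebraMap R (FractionRing R) a with hia
  have e : ia / ib * ib = ia := div_mul_cancel₀ ia hb0
  have e1 : d (ia / ib * ib) = d' (ia / ib * ib) := by rw [e]; exact h a
  rw [Derivation.leibniz, Derivation.leibniz, h b] at e1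
  simp only [smul_eq_mul] at e1
  have e2 : ib * d (ia / ib) = ib * d' (ia / ib) := by
    exact add_left_cancel e1
  exact mul_left_cancel₀ hb0 e2

theorem exists_DF (N : ℕ) : ∃ D : DF (FractionRing (MvPolynomial (Fin N) ℝ)) N,
    ∀ i, D.s i = algebraMap (MvPolynomial (Fin N) ℝ) (FractionRing (MvPolynomial (Fin N) ℝ))
      (MvPolynomial.X i) := by
  classical
  choose d hd using fun i : Fin N => exists_ext (MvPolynomial.pderiv i : Derivation ℝ
    (MvPolynomial (Fin N) ℝ) (MvPolynomial (Fin N) ℝ))
  have hcomm : ∀ i j : Fin N, ⁅d i, d j⁆ = 0 := by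
    intro i j
    apply deriv_unique
    intro r
    rw [Derivation.commutator_apply, hd, hd, hd, hd, Derivation.coe_zero, Pi.zero_apply,
      ← map_sub, ← Derivation.commutator_apply]
    have : ⁅(MvPolynomial.pderiv i : Derivation ℝ (MvPolynomial (Fin N) ℝ)
        (MvPolynomial (Fin N) ℝ)), (MvPolynomial.pderiv j : Derivation ℝ
        (MvPolynomial (Fin N) ℝ) (MvPolynomial (Fin N) ℝ))⁆ = 0 := by
      refine MvPolynomial.derivation_ext (fun k => ?_)
      rw [Derivation.commutator_apply, MvPolynomial.pderiv_X, MvPolynomial.pderiv_X]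
      have h1 : ∀ (a b : Fin N) (D : Derivation ℝ (MvPolynomial (Fin N) ℝ)
          (MvPolynomial (Fin N) ℝ)),
          D (Pi.single (M := fun _ => MvPolynomial (Fin N) ℝ) a 1 b) = 0 := by
        intro a b D
        by_cases hab : b = a
        · subst hab
          simp
        · rw [Pi.single_eq_of_ne hab]
          simp
      rw [h1, h1]
      simp
    rw [this]
    simp
  refine ⟨⟨fun i => algebraMap _ _ (MvPolynomial.X i), d, ?_, ?_⟩, fun i => rfl⟩
  · intro i j x
    have := congrArg (fun D : Derivation ℝ (FractionRing (MvPolynomial (Fin N) ℝ))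
      (FractionRing (MvPolynomial (Fin N) ℝ)) => D x) (hcomm i j)
    simp only [Derivation.commutator_apply, Derivation.coe_zero, Pi.zero_apply] at this
    exact sub_eq_zero.mp this
  · intro i j
    rw [hd, MvPolynomial.pderiv_X]
    by_cases hij : i = j
    · subst hij
      simp
    · rw [if_neg hij, Pi.single_eq_of_ne (fun h => hij h.symm), map_zero]

end Pool.Agent.Helper52.MVD
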