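import Pool.Agent.Helper52.MVD.MDefs

/-!
Project MV, block D1, module D1-16: from the generic point to positive real points.

`R = MvPolynomial (Fin N) ℝ`, `F = FractionRing R`, `ev = MvPolynomial.eval s : R → ℝ`. Let `V` be the set of all
`(e, v) : F × ℝ` such that there are `p q : R`, `ev q ≠ 0`, `e * q = p` in `F`, `v * ev q = ev p`. `V` is a subring
(common denominators), contains `(c, c)` for real `c` and `(X i, s i)`, is closed under inverses of elements with
`v ≠ 0` (then `ev p ≠ 0`; swap `p` and `q`), and is a function: `(e, v), (e, v') ∈ V` imply `v = v'` (`p q' = p' q` in `R`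
by injectivity of `R → F`, apply `ev`). Since `s i > 0`: `(1/(X i + X j), 1/(s i + s j)) ∈ V`, `(1/X i, 1/s i) ∈ V`; sums
and products in `F × ℝ` are componentwise, so `(PKF K N X, PK K N s) ∈ V` and
`(aeval (tval X) R, aeval (tval s) R) ∈ V` for every polynomial `R` (induction on `R`, or the composition of algebra
homomorphisms into `F × ℝ`). The first components are equal by hypothesis.
-/

namespace Pool.Agent.Helper52.MVD

open Finset Pool.Agent.Helper60.MV

private abbrev RN (N : ℕ) : Type := MvPolynomial (Fin N) ℝ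
private abbrev FN (N : ℕ) : Type := FractionRing (MvPolynomial (Fin N) ℝ)

/-- `e` is defined at the point `s` and has the value `v` there -/
private def Val {N : ℕ} (s : Fin N → ℝ) (e : FN N) (v : ℝ) : Prop :=
  ∃ p q : RN N, MvPolynomial.eval s q ≠ 0 ∧ e * algebraMap (RN N) (FN N) q =
    algebraMap (RN N) (FN N) p ∧ v * MvPolynomial.eval s q = MvPolynomial.eval s p

private theorem Val.of {N : ℕ} (s : Fin N → ℝ) (p : RN N) :
    Val s (algebraMap (RN N) (FN N) p) (MvPolynomial.eval s p) :=
  ⟨p, 1, by simp, by simp, by simp⟩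

private theorem Val.const {N : ℕ} (s : Fin N → ℝ) (c : ℝ) :
    Val s (algebraMap ℝ (FN N) c) c := by
  have h := Val.of s (MvPolynomial.C c)
  rw [MvPolynomial.eval_C] at h
  have e : algebraMap (RN N) (FN N) (MvPolynomial.C c) = algebraMap ℝ (FN N) c := by
    rw [IsScalarTower.algebraMap_apply ℝ (RN N) (FN N)]
    rfl
  rwa [e] at h

private theorem Val.add {N : ℕ} {s : Fin N → ℝ} {e e' : FN N} {v v' : ℝ} (h : Val s e v)
    (h' : Val s e' v') : Val s (e + e') (v + v') := by
  obtain ⟨p, q, h1, h2, h3⟩ := h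
  obtain ⟨p', q', h1', h2', h3'⟩ := h'
  refine ⟨p * q' + p' * q, q * q', ?_, ?_, ?_⟩
  · rw [map_mul]; exact mul_ne_zero h1 h1'
  · rw [map_mul, map_add, map_mul, map_mul, ← h2, ← h2']; ring
  · rw [map_mul, map_add, map_mul, map_mul, ← h3, ← h3']; ring

private theorem Val.mul {N : ℕ} {s : Fin N → ℝ} {e e' : FN N} {v v' : ℝ} (h : Val s e v)
    (h' : Val s e' v') : Val s (e * e') (v * v') := by
  obtain ⟨p, q, h1, h2, h3⟩ := h
  obtain ⟨p', q', h1', h2', h3'⟩ := h'
  refine ⟨p * p', q * q', ?_, ?_, ?_⟩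
  · rw [map_mul]; exact mul_ne_zero h1 h1'
  · rw [map_mul, map_mul, ← h2, ← h2']; ring
  · rw [map_mul, map_mul, ← h3, ← h3']; ring

private theorem Val.inv {N : ℕ} {s : Fin N → ℝ} {e : FN N} {v : ℝ} (h : Val s e v)
    (hv : v ≠ 0) : Val s (1 / e) (1 / v) := by
  obtain ⟨p, q, h1, h2, h3⟩ := h
  have hp : MvPolynomial.eval s p ≠ 0 := by rw [← h3]; exact mul_ne_zero hv h1
  have hp0 : p ≠ 0 := by rintro rfl; simp at hp
  have he : e ≠ 0 := by
    rintro rfl
    rw [zero_mul] at h2
    exact hp0 ((IsFractionRing.injective (RN N) (FN N)) (by rw [← h2, map_zero]))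
  refine ⟨q, p, hp, ?_, ?_⟩
  · rw [← h2]; field_simp
  · rw [← h3]; field_simp

private theorem Val.pow {N : ℕ} {s : Fin N → ℝ} {e : FN N} {v : ℝ} (h : Val s e v) (n : ℕ) :
    Val s (e ^ n) (v ^ n) := by
  induction n with
  | zero =>
    have := Val.of s (1 : RN N)
    rwa [map_one, map_one] at this
  | succ n ih => rw [pow_succ, pow_succ]; exact ih.mul h

private theorem Val.sum {N : ℕ} {s : Fin N → ℝ} {κ : Type} (t : Finset κ) {f : κ → FN N}
    {g : κ → ℝ} (h : ∀ i ∈ t, Val s (f i) (g i)) : Val s (∑ i ∈ t, f i) (∑ i ∈ t, g i) := by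
  classical
  induction t using Finset.induction_on with
  | empty =>
    have := Val.of s (0 : RN N)
    rwa [map_zero, map_zero] at this
  | insert a t ha ih =>
    rw [sum_insert ha, sum_insert ha]
    exact (h a (mem_insert_self _ _)).add (ih fun i hi => h i (mem_insert_of_mem hi))

private theorem Val.prod {N : ℕ} {s : Fin N → ℝ} {κ : Type} (t : Finset κ) {f : κ → FN N}
    {g : κ → ℝ} (h : ∀ i ∈ t, Val s (f i) (g i)) : Val s (∏ i ∈ t, f i) (∏ i ∈ t, g i) := by
  classical
  induction t using Finset.induction_on with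
  | empty =>
    have := Val.of s (1 : RN N)
    rwa [map_one, map_one] at this
  | insert a t ha ih =>
    rw [prod_insert ha, prod_insert ha]
    exact (h a (mem_insert_self _ _)).mul (ih fun i hi => h i (mem_insert_of_mem hi))

private theorem Val.unique {N : ℕ} {s : Fin N → ℝ} {e : FN N} {v v' : ℝ} (h : Val s e v)
    (h' : Val s e v') : v = v' := by
  obtain ⟨p, q, h1, h2, h3⟩ := h
  obtain ⟨p', q', h1', h2', h3'⟩ := h'
  have h4 : algebraMap (RN N) (FN N) (p * q') = algebraMap (RN N) (FN N) (p' * q) := by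
    rw [map_mul, map_mul, ← h2, ← h2']; ring
  have h5 := congrArg (MvPolynomial.eval s) (IsFractionRing.injective (RN N) (FN N) h4)
  rw [map_mul, map_mul, ← h3, ← h3'] at h5
  have h6 : (v - v') * (MvPolynomial.eval s q * MvPolynomial.eval s q') = 0 := by
    linear_combination h5
  rcases mul_eq_zero.1 h6 with h7 | h7
  · linarith
  · exact absurd h7 (mul_ne_zero h1 h1')

private theorem Val.X {N : ℕ} (s : Fin N → ℝ) (i : Fin N) :
    Val s (algebraMap (RN N) (FN N) (MvPolynomial.X i)) (s i) := by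
  have := Val.of s (MvPolynomial.X i)
  rwa [MvPolynomial.eval_X] at this

theorem transfer {ρ : Type} [Fintype ρ] (K : ρ → ℕ) (N : ℕ) (R : MvPolynomial ℕ ℝ)
    (h : PKF K N (fun i => algebraMap (MvPolynomial (Fin N) ℝ)
        (FractionRing (MvPolynomial (Fin N) ℝ)) (MvPolynomial.X i)) =
      MvPolynomial.aeval (tval (fun i => algebraMap (MvPolynomial (Fin N) ℝ)
        (FractionRing (MvPolynomial (Fin N) ℝ)) (MvPolynomial.X i))) R)
    (s : Fin N → ℝ) (hs : ∀ i, 0 < s i) : PK K N s = MvPolynomial.aeval (tval s) R := by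
  have h1 : Val s (PKF K N (fun i => algebraMap (RN N) (FN N) (MvPolynomial.X i))) (PK K N s) := by
    rw [← PKF_real]
    unfold PKF
    refine Val.sum _ fun τ _ => Val.sum _ fun lab _ => Val.prod _ fun e _ => ?_
    exact ((Val.X s _).add (Val.X s _)).inv (add_pos (hs _) (hs _)).ne'
  have ht : ∀ k, Val s (tval (fun i => algebraMap (RN N) (FN N) (MvPolynomial.X i)) k)
      (tval s k) := fun k => Val.sum _ fun i _ => ((Val.X s i).inv (hs i).ne').pow _
  have h2 : Val s (MvPolynomial.aeval (tval (fun i => algebraMap (RN N) (FN N)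
      (MvPolynomial.X i))) R) (MvPolynomial.aeval (tval s) R) := by
    clear h
    induction R using MvPolynomial.induction_on with
    | C c =>
      rw [MvPolynomial.aeval_C, MvPolynomial.aeval_C]
      exact Val.const s c
    | add p q hp hq => rw [map_add, map_add]; exact hp.add hq
    | mul_X p k hp =>
      rw [map_mul, map_mul, MvPolynomial.aeval_X, MvPolynomial.aeval_X]
      exact hp.mul (ht k)
  rw [h] at h1
  exact h1.unique h2

end Pool.Agent.Helper52.MVD
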