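import Pool.Agent.Helper52.MVD.Main
import Pool.Agent.Helper52.MVD.Field
import Pool.Agent.Helper52.MVD.Transfer

/-!
Project MV, block D: assembly of D1 and D2.
-/

namespace Pool.Agent.Helper52.MVD

open Finset Pool.Agent.Helper60.MV

theorem DF.G_ne {F : Type} [Field F] [Algebra ℝ F] {N : ℕ} (D : DF F N) : D.G ≠ 0 := by
  unfold DF.G
  refine Finset.prod_ne_zero_iff.mpr fun i _ => Finset.prod_ne_zero_iff.mpr fun j hj => ?_
  have hij : i ≠ j := (Finset.mem_Ioi.mp hj).ne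
  exact div_ne_zero (D.sub_ne hij) (D.add_ne i j)

/-- BLOCK D, given the theorem of block D2 -/
theorem blockD_of_D2
    (hD2 : ∀ (N : ℕ) (_ : Even N) (D : DF (FractionRing (MvPolynomial (Fin N) ℝ)) N),
      ∃ L : MvPolynomial ℕ ℝ →ₗ[ℝ] FractionRing (MvPolynomial (Fin N) ℝ), D.IsSol L ∧
      ∀ {ρ : Type} [Fintype ρ] (K : ρ → ℕ) (_ : ∀ i, Odd (K i)) (E : ℕ) (_ : ∑ i, K i = 2 * E),
        L (bos K) = D.G * MvPolynomial.aeval (tval D.s) (Rpoly K))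
    {ρ : Type} [Fintype ρ] (K : ρ → ℕ) (hK : ∀ i, Odd (K i)) (E : ℕ)
    (hE : ∑ i, K i = 2 * E) (N : ℕ) (hN : Even N) (s : Fin N → ℝ) (hs : ∀ i, 0 < s i) :
    PK K N s = MvPolynomial.eval (fun k => ∑ i, (1 / s i) ^ (2 * k + 1)) (Rpoly K) := by
  obtain ⟨D, hD⟩ := exists_DF N
  obtain ⟨L, hL, hLK⟩ := hD2 N hN D
  have h1 := D1main D L hL K hK
  have h2 := hLK K hK E hE
  have h3 : PKF K N D.s = MvPolynomial.aeval (tval D.s) (Rpoly K) :=
    mul_left_cancel₀ D.G_ne (h1.symm.trans h2)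
  have hs' : D.s = fun i => algebraMap (MvPolynomial (Fin N) ℝ)
      (FractionRing (MvPolynomial (Fin N) ℝ)) (MvPolynomial.X i) := funext hD
  rw [hs'] at h3
  rw [transfer K N (Rpoly K) h3 s hs]
  rfl

end Pool.Agent.Helper52.MVD
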