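import Pool.Agent.Helper60.MV.Defs

/-!
Project MV, block D1 (and interface with D2): definitions.

`F` is a field containing `ℝ` with `N` commuting derivations `d i` and elements `s j` with
`d i (s j) = δ_ij` (think of rational functions of `s_1, ..., s_N`). `W` stands for `w²`.
-/

namespace Pool.Agent.Helper52.MVD

open Finset Pool.Agent.Helper60.MV

/-- `N` commuting derivations of a field `F ⊇ ℝ` and elements `s j` with `d i (s j) = δ_ij` -/
structure DF (F : Type) [Field F] [Algebra ℝ F] (N : ℕ) where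
  s : Fin N → F
  d : Fin N → Derivation ℝ F F
  comm : ∀ i j x, d i (d j x) = d j (d i x)
  ds : ∀ i j, d i (s j) = if i = j then 1 else 0

/-- multiplication by `a` -/
noncomputable def mu {F : Type} [Field F] [Algebra ℝ F] (a : F) : Module.End ℝ F :=
  LinearMap.mulLeft ℝ a

namespace DF

variable {F : Type} [Field F] [Algebra ℝ F] {N : ℕ} (D : DF F N)

/-- `D_i = ∂_i - 1 / (2 s_i)` -/
noncomputable def DD (i : Fin N) : Module.End ℝ F :=
  (D.d i : F →ₗ[ℝ] F) - mu (1 / (2 * D.s i))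

/-- `K_i = (1 + W D_i)^{-1} = ∑ W^n (- D_i)^n` -/
noncomputable def KK (i : Fin N) : PowerSeries (Module.End ℝ F) :=
  PowerSeries.mk fun n => (-(D.DD i)) ^ n

/-- `𝒜_i = 1 - W s_i^{-1} K_i` -/
noncomputable def AA (i : Fin N) : PowerSeries (Module.End ℝ F) :=
  1 - PowerSeries.X * (PowerSeries.C (mu (1 / D.s i)) * D.KK i)

/-- `𝒜^{⊗ N}` (the factors commute) -/
noncomputable def AN : PowerSeries (Module.End ℝ F) := (List.ofFn D.AA).prod

/-- the coefficient of `W^m` in `𝒜^{⊗ N}` -/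
noncomputable def An (m : ℕ) : Module.End ℝ F := PowerSeries.coeff m D.AN

/-- `G = ∏_{i<j} (s_i - s_j) / (s_i + s_j)` -/
noncomputable def G : F := ∏ i, ∏ j ∈ Ioi i, (D.s i - D.s j) / (D.s i + D.s j)

/-- The characterisation of the matrix model: `L : ℝ[p_1, p_3, ...] → F` with `X j = p_(2j+1)`,
`L 1 = G` and, for all `ν ≥ 0` and all `f`, the coefficient of `w^(2ν+1)` of `𝒜^{⊗ N} (L (Ĵ(w) f))`
vanishes, `Ĵ(w) = ∑_j (p_(2j+1) w^(2j+1) + (2j+1)/2 * w^(-2j-1) * ∂_j)`. -/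
structure IsSol (L : MvPolynomial ℕ ℝ →ₗ[ℝ] F) : Prop where
  one : L 1 = D.G
  eq : ∀ (ν : ℕ) (f : MvPolynomial ℕ ℝ),
    ∑ j ∈ range (ν + 1), D.An (ν - j) (L (MvPolynomial.X j * f)) +
      ∑ j ∈ f.vars, ((2 * (j : ℝ) + 1) / 2) • D.An (ν + j + 1) (L (MvPolynomial.pderiv j f)) = 0

end DF

/-- `PK` over an arbitrary field -/
noncomputable def PKF {F : Type} [Field F] {ρ : Type} [Fintype ρ] (K : ρ → ℕ) (N : ℕ)
    (s : Fin N → F) : F := by
  classical
  exact ∑ τ ∈ univ.filter (fun τ : Equiv.Perm (HK K) => IsPairing τ),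
    ∑ lab ∈ univ.filter (fun lab : HK K → Fin N => ∀ h, lab ((rot K * τ) h) = lab h),
      ∏ e : Cyc τ, 1 / (s (lab e.rep) + s (lab (τ e.rep)))

theorem PKF_real {ρ : Type} [Fintype ρ] (K : ρ → ℕ) (N : ℕ) (s : Fin N → ℝ) :
    PKF K N s = PK K N s := rfl

/-- the bosonic monomial `∏ p_{K_i}` -/
noncomputable def bos {ρ : Type} [Fintype ρ] (K : ρ → ℕ) : MvPolynomial ℕ ℝ :=
  ∏ i, MvPolynomial.X ((K i - 1) / 2)

/-- the value of `t_k` -/
noncomputable def tval {F : Type} [Field F] {N : ℕ} (s : Fin N → F) (k : ℕ) : F :=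
  ∑ i, (1 / s i) ^ (2 * k + 1)

end Pool.Agent.Helper52.MVD
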