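import Pool.Agent.Helper52.MVD.MDefs

/-!
Project MV, block D1, module D1-5: the derivative of the Gaussian expectation with respect to `s_i`.

Proof. Put `c_kl = (s_k + s_l)⁻¹`; `d_i c_kl = - c_kl² (δ_ik + δ_il)`. Both sides, as functions of
`g : MvPolynomial (Fin N × Fin N) ℝ`, `Ψ g = d_i (E (map g))` and
`Φ g = - E ((X²)_ii * map g) + ∑_j c_ij E (map g)`, are additive, vanish for `g = C a` (`d_i` of a real constant
is 0 ; `E ((X²)_ii) = ∑_m E (X_im X_mi) = ∑_m c_im`), and satisfy the same recursion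
`Ψ (X_kl g) = - (δ_ik + δ_il) c_kl² E (map ∂_lk g) + c_kl Ψ (∂_lk g)` (`hE.step`, `∂` commutes with `map`);
for `Φ`: `E ((X²)_ii X_kl g) = c_kl E (∂_lk ((X²)_ii) g) + c_kl E ((X²)_ii ∂_lk g)`,
`∂_lk (X²)_ii = δ_li X_ki + δ_ki X_il`, and `E (X_ki ∘) = c_ki E (∂_ik ∘)`, `E (X_il ∘) = c_il E (∂_li ∘)`.
Induct on the total degree (or on monomials, e.g. `MvPolynomial.induction_on'''` with a statement for all
polynomials of total degree `< n`, since `∂_lk g` has smaller degree than `X_kl g`).
-/

namespace Pool.Agent.Helper52.MVD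

open Finset Pool.Agent.Helper60.MV

private theorem derE_pd {F : Type} [Field F] {N : ℕ} (i k l : Fin N) :
    MvPolynomial.pderiv (l, k) ((XM N F ^ 2) i i) =
      (if i = l then MvPolynomial.X (k, i) else 0) +
        (if i = k then MvPolynomial.X (i, l) else (0 : MX N F)) := by
  rw [sq, Matrix.mul_apply, map_sum]
  simp only [XM, MvPolynomial.pderiv_mul, MvPolynomial.pderiv_X, Pi.single_apply,
    Prod.mk.injEq, Finset.sum_add_distrib]
  congr 1
  · by_cases h : i = l
    · simp [h]
    · simp [h]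
  · by_cases h : i = k
    · simp [h]
    · simp [h]

private theorem derE_EP {F : Type} [Field F] {N : ℕ} {s : Fin N → F} {E : MX N F →ₗ[F] F}
    (hE : IsMat s E) (i : Fin N) :
    E ((XM N F ^ 2) i i) = ∑ j, (s i + s j)⁻¹ := by
  rw [sq, Matrix.mul_apply, map_sum]
  refine Finset.sum_congr rfl (fun m _ => ?_)
  show E (MvPolynomial.X (i, m) * MvPolynomial.X (m, i)) = _
  rw [hE.step, MvPolynomial.pderiv_X_self, hE.one, mul_one]

private theorem derE_dP {F : Type} [Field F] {N : ℕ} {s : Fin N → F} {E : MX N F →ₗ[F] F}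
    (hE : IsMat s E) (i k l : Fin N) (h : MX N F) :
    E (MvPolynomial.pderiv (l, k) ((XM N F ^ 2) i i) * h) =
      ((if i = k then 1 else 0) + (if i = l then 1 else 0)) *
        ((s k + s l)⁻¹ * E (MvPolynomial.pderiv (l, k) h)) := by
  rw [derE_pd, add_mul, map_add, add_mul, add_comm]
  congr 1
  · by_cases hk : i = k
    · subst hk
      rw [if_pos rfl, if_pos rfl, hE.step, one_mul]
    · rw [if_neg hk, if_neg hk, zero_mul, map_zero, zero_mul]
  · by_cases hl : i = l
    · subst hl
      rw [if_pos rfl, if_pos rfl, hE.step, one_mul]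
    · rw [if_neg hl, if_neg hl, zero_mul, map_zero, zero_mul]

private theorem derE_dinv {F : Type} [Field F] [Algebra ℝ F] {N : ℕ} (D : DF F N)
    (i k l : Fin N) :
    D.d i ((D.s k + D.s l)⁻¹) =
      -(((if i = k then 1 else 0) + (if i = l then 1 else 0)) *
        ((D.s k + D.s l)⁻¹ * (D.s k + D.s l)⁻¹)) := by
  rw [Derivation.leibniz_inv, map_add, D.ds, D.ds, smul_eq_mul]
  ring

private theorem derE_step {F : Type} [Field F] [Algebra ℝ F] {N : ℕ} (D : DF F N)
    (E : MX N F →ₗ[F] F) (hE : IsMat D.s E) (i k l : Fin N)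
    (g : MvPolynomial (Fin N × Fin N) ℝ)
    (hg : D.d i (E (MvPolynomial.map (algebraMap ℝ F) (MvPolynomial.pderiv (l, k) g))) =
      -E ((XM N F ^ 2) i i *
          MvPolynomial.map (algebraMap ℝ F) (MvPolynomial.pderiv (l, k) g)) +
        (∑ j, (D.s i + D.s j)⁻¹) *
          E (MvPolynomial.map (algebraMap ℝ F) (MvPolynomial.pderiv (l, k) g))) :
    D.d i (E (MvPolynomial.map (algebraMap ℝ F) (MvPolynomial.X (k, l) * g))) =
      -E ((XM N F ^ 2) i i * MvPolynomial.map (algebraMap ℝ F) (MvPolynomial.X (k, l) * g)) +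
        (∑ j, (D.s i + D.s j)⁻¹) *
          E (MvPolynomial.map (algebraMap ℝ F) (MvPolynomial.X (k, l) * g)) := by
  rw [map_mul, MvPolynomial.map_X, hE.step, Derivation.leibniz, MvPolynomial.pderiv_map, hg,
    mul_left_comm, hE.step, MvPolynomial.pderiv_mul, MvPolynomial.pderiv_map, map_add,
    derE_dP hE, MvPolynomial.pderiv_map, derE_dinv, smul_eq_mul, smul_eq_mul]
  ring

private theorem derE_mon {F : Type} [Field F] [Algebra ℝ F] {N : ℕ} (D : DF F N)
    (E : MX N F →ₗ[F] F) (hE : IsMat D.s E) (i : Fin N) :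
    ∀ (n : ℕ) (u : Fin N × Fin N →₀ ℕ), u.degree ≤ n → ∀ a : ℝ,
    D.d i (E (MvPolynomial.map (algebraMap ℝ F) (MvPolynomial.monomial u a))) =
      -E ((XM N F ^ 2) i i *
          MvPolynomial.map (algebraMap ℝ F) (MvPolynomial.monomial u a)) +
        (∑ j, (D.s i + D.s j)⁻¹) *
          E (MvPolynomial.map (algebraMap ℝ F) (MvPolynomial.monomial u a)) := by
  have hC : ∀ a : ℝ, D.d i (E (MvPolynomial.map (algebraMap ℝ F) (MvPolynomial.C a))) =
      -E ((XM N F ^ 2) i i *
          MvPolynomial.map (algebraMap ℝ F) (MvPolynomial.C a)) +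
        (∑ j, (D.s i + D.s j)⁻¹) *
          E (MvPolynomial.map (algebraMap ℝ F) (MvPolynomial.C a)) := by
    intro a
    rw [MvPolynomial.map_C, mul_comm _ (MvPolynomial.C _), MvPolynomial.C_mul', map_smul,
      derE_EP hE, ← mul_one (MvPolynomial.C _), MvPolynomial.C_mul', map_smul, hE.one,
      smul_eq_mul, smul_eq_mul, mul_one, Derivation.map_algebraMap]
    ring
  intro n
  induction n with
  | zero =>
    intro u hu a
    have h0 : u = 0 := by
      rw [← Finsupp.degree_eq_zero_iff]
      omega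
    subst h0
    exact hC a
  | succ n ih =>
    intro u hu a
    by_cases h0 : u = 0
    · subst h0
      exact hC a
    · obtain ⟨⟨k, l⟩, hkl⟩ : ∃ p, p ∈ u.support := by
        by_contra hcon
        push Not at hcon
        apply h0
        ext p
        have := hcon p
        rw [Finsupp.notMem_support_iff] at this
        simpa using this
      rw [Finsupp.mem_support_iff] at hkl
      have hle : Finsupp.single (k, l) 1 ≤ u := by
        rw [Finsupp.single_le_iff]
        omega
      set w := u - Finsupp.single (k, l) 1 with hw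
      have hu2 : u = Finsupp.single (k, l) 1 + w := by
        rw [hw, add_tsub_cancel_of_le hle]
      have hdeg : w.degree ≤ n := by
        have := congrArg Finsupp.degree hu2
        rw [map_add, Finsupp.degree_single] at this
        omega
      have hmon : (MvPolynomial.monomial u a : MvPolynomial (Fin N × Fin N) ℝ) =
          MvPolynomial.X (k, l) * MvPolynomial.monomial w a := by
        rw [hu2, MvPolynomial.X, MvPolynomial.monomial_mul, one_mul]
      rw [hmon]
      apply derE_step D E hE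
      rw [MvPolynomial.pderiv_monomial]
      apply ih
      refine le_trans ?_ hdeg
      exact Finsupp.degree_mono tsub_le_self

theorem d_E {F : Type} [Field F] [Algebra ℝ F] {N : ℕ} (D : DF F N) (E : MX N F →ₗ[F] F)
    (hE : IsMat D.s E) (i : Fin N) (g : MvPolynomial (Fin N × Fin N) ℝ) :
    D.d i (E (MvPolynomial.map (algebraMap ℝ F) g)) =
      -E ((XM N F ^ 2) i i * MvPolynomial.map (algebraMap ℝ F) g) +
        (∑ j, (D.s i + D.s j)⁻¹) * E (MvPolynomial.map (algebraMap ℝ F) g) := by
  induction g using MvPolynomial.induction_on' with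
  | monomial u a => exact derE_mon D E hE i _ u le_rfl a
  | add p q hp hq =>
    rw [map_add, map_add, map_add, hp, hq, mul_add, map_add]
    ring

private theorem derE_XM {F : Type} [Field F] [Algebra ℝ F] {N : ℕ} (m : ℕ) (i j : Fin N) :
    ∃ g : MvPolynomial (Fin N × Fin N) ℝ,
      MvPolynomial.map (algebraMap ℝ F) g = (XM N F ^ m) i j := by
  induction m generalizing i j with
  | zero =>
    refine ⟨if i = j then 1 else 0, ?_⟩
    rw [pow_zero, Matrix.one_apply]
    split_ifs <;> simp
  | succ m ih =>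
    choose g hg using ih
    refine ⟨∑ k, g i k * MvPolynomial.X (k, j), ?_⟩
    rw [pow_succ, Matrix.mul_apply, map_sum]
    refine Finset.sum_congr rfl (fun k _ => ?_)
    rw [map_mul, hg, MvPolynomial.map_X]
    rfl

private theorem derE_subT {F : Type} [Field F] [Algebra ℝ F] {N : ℕ}
    (f : MvPolynomial ℕ ℝ) : ∃ g : MvPolynomial (Fin N × Fin N) ℝ,
      MvPolynomial.map (algebraMap ℝ F) g = subT N F f := by
  induction f using MvPolynomial.induction_on with
  | C a =>
    refine ⟨MvPolynomial.C a, ?_⟩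
    rw [MvPolynomial.map_C, subT, MvPolynomial.aeval_C]
    rfl
  | add p q hp hq =>
    obtain ⟨g, hg⟩ := hp
    obtain ⟨h, hh⟩ := hq
    exact ⟨g + h, by rw [map_add, map_add, hg, hh]⟩
  | mul_X p j hp =>
    obtain ⟨g, hg⟩ := hp
    choose w hw using fun k : Fin N => derE_XM (F := F) (N := N) (2 * j + 1) k k
    refine ⟨g * ∑ k, w k, ?_⟩
    rw [map_mul, map_mul, hg, map_sum]
    congr 1
    rw [subT, MvPolynomial.aeval_X, pt]
    exact Finset.sum_congr rfl (fun k _ => hw k)

/-- powers of the generic matrix and the polynomials `subT f` have real coefficients -/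
theorem exists_map {F : Type} [Field F] [Algebra ℝ F] {N : ℕ} (m : ℕ) (i j : Fin N)
    (f : MvPolynomial ℕ ℝ) : ∃ g : MvPolynomial (Fin N × Fin N) ℝ,
      MvPolynomial.map (algebraMap ℝ F) g = (XM N F ^ m) i j * subT N F f := by
  obtain ⟨g, hg⟩ := derE_XM (F := F) m i j
  obtain ⟨h, hh⟩ := derE_subT (F := F) (N := N) f
  exact ⟨g * h, by rw [map_mul, hg, hh]⟩

end Pool.Agent.Helper52.MVD
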