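import Pool.Agent.Helper52.MVD.BlockD
import Pool.Agent.Helper90.MVD.Final

/-!
Project MV: BLOCK D.
-/

namespace Pool.Agent.Helper52.MVD

open Finset Pool.Agent.Helper60.MV

/-- BLOCK D -/
theorem blockD {ρ : Type} [Fintype ρ] (K : ρ → ℕ) (hK : ∀ i, Odd (K i)) (E : ℕ)
    (hE : ∑ i, K i = 2 * E) (N : ℕ) (hN : Even N) (s : Fin N → ℝ) (hs : ∀ i, 0 < s i) :
    PK K N s = MvPolynomial.eval (fun k => ∑ i, (1 / s i) ^ (2 * k + 1)) (Rpoly K) :=
  blockD_of_D2 (fun _ hN D => Pool.Agent.Helper90.MVD.D2main D hN) K hK E hE N hN s hs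

end Pool.Agent.Helper52.MVD
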