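import Pool.Agent.Helper52.MVD.MDefs

/-!
Project MV, block D1, module D1-1: existence of the Gaussian expectation.

Proof. Let `Δ = (1/2) ∑_{a,b} C a b ∂_a ∂_b` (a linear endomorphism of `MvPolynomial α F`, lowering the
total degree by 2, so locally nilpotent) and `E g = ∑_n (1/n!) (constant coefficient of Δ^n g)` (a
finite sum for every `g`: e.g. `∑ᶠ n`, or the sum over `n ∈ range (g.totalDegree + 1)`, or over any
larger range; linearity follows). Since `∂_c X_a - X_a ∂_c = δ_ac` (and the `∂` commute),
`Δ (X_a g) = X_a Δ g + ∑_b C a b ∂_b g` (use the symmetry of `C`), so with `∂' = ∑_b C a b ∂_b`, which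
commutes with `Δ`: `Δ^n (X_a g) = X_a Δ^n g + n ∂' Δ^(n-1) g` (induction on `n`). The constant
coefficient of `X_a h` is 0, so `E (X_a g) = ∑_n (n/n!) [∂' Δ^(n-1) g]_0 = ∑_b C a b E (∂_b g)`.
-/

namespace Pool.Agent.Helper52.MVD

open Finset Pool.Agent.Helper60.MV

private theorem pd_comm {α F : Type} [Field F] (a b : α) (g : MvPolynomial α F) :
    MvPolynomial.pderiv a (MvPolynomial.pderiv b g) =
      MvPolynomial.pderiv b (MvPolynomial.pderiv a g) := by
  classical
  have h : ⁅(MvPolynomial.pderiv a : Derivation F (MvPolynomial α F) (MvPolynomial α F)),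
      (MvPolynomial.pderiv b : Derivation F (MvPolynomial α F) (MvPolynomial α F))⁆ = 0 := by
    apply MvPolynomial.derivation_ext
    intro i
    rw [Derivation.commutator_apply, MvPolynomial.pderiv_X, MvPolynomial.pderiv_X]
    simp only [Pi.single_apply]
    split_ifs <;> simp
  have h2 := congrArg (fun d : Derivation F (MvPolynomial α F) (MvPolynomial α F) => d g) h
  simp only [Derivation.commutator_apply] at h2
  exact sub_eq_zero.1 h2

/-- the operator `∂' = ∑ C a b ∂_b` -/
private noncomputable def dP {α F : Type} [Field F] [Fintype α] (C : α → α → F) (a : α) :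
    Module.End F (MvPolynomial α F) :=
  ∑ b, C a b • Derivation.toLinearMap (MvPolynomial.pderiv (R := F) b)

/-- the operator `Δ` -/
private noncomputable def lapl {α F : Type} [Field F] [Fintype α] (C : α → α → F) :
    Module.End F (MvPolynomial α F) :=
  (1 / 2 : F) • ∑ c, Derivation.toLinearMap (MvPolynomial.pderiv (R := F) c) ∘ₗ dP C c

private theorem dP_apply {α F : Type} [Field F] [Fintype α] (C : α → α → F) (a : α)
    (g : MvPolynomial α F) : dP C a g = ∑ b, C a b • MvPolynomial.pderiv b g := by
  simp [dP, LinearMap.sum_apply]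

private theorem lapl_apply {α F : Type} [Field F] [Fintype α] (C : α → α → F)
    (g : MvPolynomial α F) : lapl C g = (1 / 2 : F) • ∑ c, MvPolynomial.pderiv c (dP C c g) := by
  simp [lapl, LinearMap.sum_apply]

private theorem pd_dP {α F : Type} [Field F] [Fintype α] (C : α → α → F) (a c : α)
    (g : MvPolynomial α F) :
    MvPolynomial.pderiv c (dP C a g) = dP C a (MvPolynomial.pderiv c g) := by
  rw [dP_apply, dP_apply, map_sum]
  refine sum_congr rfl fun b _ => ?_
  rw [Derivation.map_smul, pd_comm]

private theorem pd_lapl {α F : Type} [Field F] [Fintype α] (C : α → α → F) (c : α)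
    (g : MvPolynomial α F) :
    MvPolynomial.pderiv c (lapl C g) = lapl C (MvPolynomial.pderiv c g) := by
  rw [lapl_apply, lapl_apply, Derivation.map_smul, map_sum]
  congr 1
  refine sum_congr rfl fun b _ => ?_
  rw [pd_comm, pd_dP]

private theorem dP_lapl {α F : Type} [Field F] [Fintype α] (C : α → α → F) (a : α)
    (g : MvPolynomial α F) : dP C a (lapl C g) = lapl C (dP C a g) := by
  rw [dP_apply, dP_apply, map_sum]
  refine sum_congr rfl fun b _ => ?_
  rw [pd_lapl, map_smul]

private theorem dP_lapl_pow {α F : Type} [Field F] [Fintype α] (C : α → α → F) (a : α)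
    (n : ℕ) (g : MvPolynomial α F) : dP C a ((lapl C ^ n) g) = (lapl C ^ n) (dP C a g) := by
  induction n generalizing g with
  | zero => simp
  | succ n ih =>
    rw [pow_succ, Module.End.mul_apply, Module.End.mul_apply, ih, dP_lapl]

private theorem dP_X_mul {α F : Type} [Field F] [Fintype α] [DecidableEq α] (C : α → α → F)
    (a c : α) (g : MvPolynomial α F) :
    dP C c (MvPolynomial.X a * g) = C c a • g + MvPolynomial.X a * dP C c g := by
  rw [dP_apply, dP_apply, mul_sum]
  have h : ∀ b, C c b • MvPolynomial.pderiv b (MvPolynomial.X a * g) =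
      (if b = a then C c a • g else 0) +
        MvPolynomial.X a * (C c b • MvPolynomial.pderiv b g) := by
    intro b
    rw [MvPolynomial.pderiv_mul, MvPolynomial.pderiv_X, smul_add, mul_smul_comm]
    by_cases hb : b = a
    · subst hb
      simp
    · simp [Pi.single_apply, hb, Ne.symm hb]
  rw [sum_congr rfl fun b _ => h b, sum_add_distrib]
  simp

private theorem lapl_X_mul {α F : Type} [Field F] [CharZero F] [Fintype α] [DecidableEq α]
    (C : α → α → F) (hC : ∀ a b, C a b = C b a) (a : α) (g : MvPolynomial α F) :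
    lapl C (MvPolynomial.X a * g) = MvPolynomial.X a * lapl C g + dP C a g := by
  rw [lapl_apply, lapl_apply, mul_smul_comm, mul_sum]
  have h : ∀ c, MvPolynomial.pderiv c (dP C c (MvPolynomial.X a * g)) =
      C a c • MvPolynomial.pderiv c g + (if c = a then dP C a g else 0) +
        MvPolynomial.X a * MvPolynomial.pderiv c (dP C c g) := by
    intro c
    rw [dP_X_mul, map_add, Derivation.map_smul, MvPolynomial.pderiv_mul, MvPolynomial.pderiv_X,
      hC c a, add_assoc]
    congr 2
    by_cases hc : c = a
    · subst hc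
      simp
    · simp [Pi.single_apply, hc, Ne.symm hc]
  rw [sum_congr rfl fun c _ => h c, sum_add_distrib, sum_add_distrib, ← dP_apply]
  simp only [sum_ite_eq', mem_univ, if_true]
  rw [smul_add, ← two_smul F (dP C a g), smul_smul, add_comm]
  norm_num

private theorem lapl_pow_X_mul {α F : Type} [Field F] [CharZero F] [Fintype α] [DecidableEq α]
    (C : α → α → F) (hC : ∀ a b, C a b = C b a) (a : α) (n : ℕ) (g : MvPolynomial α F) :
    (lapl C ^ (n + 1)) (MvPolynomial.X a * g) =
      MvPolynomial.X a * (lapl C ^ (n + 1)) g + ((n : F) + 1) • dP C a ((lapl C ^ n) g) := by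
  induction n with
  | zero => simp [lapl_X_mul C hC]
  | succ n ih =>
    have e : ∀ (m : ℕ) (h : MvPolynomial α F), (lapl C ^ (m + 1)) h = lapl C ((lapl C ^ m) h) := by
      intro m h
      rw [pow_succ', Module.End.mul_apply]
    rw [e (n + 1), ih, map_add, lapl_X_mul C hC, map_smul, ← dP_lapl, ← e n, ← e (n + 1)]
    rw [Nat.cast_add, Nat.cast_one, add_smul ((n : F) + 1) 1, one_smul]
    abel

private theorem lapl_nilp {α F : Type} [Field F] [CharZero F] [Fintype α] [DecidableEq α]
    (C : α → α → F) (hC : ∀ a b, C a b = C b a) (g : MvPolynomial α F) :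
    ∃ M : ℕ, ∀ n, M ≤ n → (lapl C ^ n) g = 0 := by
  induction g using MvPolynomial.induction_on with
  | C c =>
    refine ⟨1, fun n hn => ?_⟩
    obtain ⟨k, rfl⟩ := Nat.exists_eq_add_of_le hn
    rw [add_comm, pow_succ, Module.End.mul_apply, lapl_apply]
    simp [dP_apply]
  | add p q hp hq =>
    obtain ⟨M1, h1⟩ := hp
    obtain ⟨M2, h2⟩ := hq
    refine ⟨max M1 M2, fun n hn => ?_⟩
    rw [map_add, h1 n (le_trans (le_max_left _ _) hn), h2 n (le_trans (le_max_right _ _) hn),
      add_zero]
  | mul_X p a hp =>
    obtain ⟨M, h⟩ := hp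
    refine ⟨M + 1, fun n hn => ?_⟩
    obtain ⟨k, rfl⟩ := Nat.exists_eq_add_of_le hn
    rw [mul_comm, show M + 1 + k = (M + k) + 1 by ring, lapl_pow_X_mul C hC,
      h _ (by omega), h _ (by omega)]
    simp

theorem exists_gauss {α F : Type} [Field F] [CharZero F] [Fintype α] [DecidableEq α]
    (C : α → α → F) (hC : ∀ a b, C a b = C b a) :
    ∃ E : MvPolynomial α F →ₗ[F] F, E 1 = 1 ∧
      ∀ a g, E (MvPolynomial.X a * g) = ∑ b, C a b * E (MvPolynomial.pderiv b g) := by
  classical
  choose M hM using lapl_nilp C hC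
  let t : ℕ → MvPolynomial α F → F := fun n g =>
    ((n.factorial : F))⁻¹ * MvPolynomial.constantCoeff ((lapl C ^ n) g)
  have key : ∀ g K, (∀ n, K ≤ n → (lapl C ^ n) g = 0) →
      ∑ n ∈ range (M g), t n g = ∑ n ∈ range K, t n g := by
    intro g K hK
    have h1 : ∀ A B, (∀ n, A ≤ n → (lapl C ^ n) g = 0) → A ≤ B →
        ∑ n ∈ range A, t n g = ∑ n ∈ range B, t n g := by
      intro A B hA hAB
      refine sum_subset (range_subset_range.2 hAB) fun n _ hn => ?_
      simp only [mem_range, not_lt] at hn
      simp [t, hA n hn]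
    rcases le_total (M g) K with h | h
    · exact h1 _ _ (hM g) h
    · exact (h1 _ _ hK h).symm
  have tadd : ∀ n g h, t n (g + h) = t n g + t n h := by
    intro n g h
    simp [t, mul_add]
  have tsmul : ∀ n (c : F) g, t n (c • g) = c * t n g := by
    intro n c g
    simp only [t, map_smul, MvPolynomial.constantCoeff_smul, smul_eq_mul]
    ring
  let E : MvPolynomial α F →ₗ[F] F :=
    { toFun := fun g => ∑ n ∈ range (M g), t n g
      map_add' := by
        intro g h
        have hz : ∀ n, max (M g) (M h) ≤ n → (lapl C ^ n) (g + h) = 0 := by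
          intro n hn
          rw [map_add, hM g n (le_trans (le_max_left _ _) hn),
            hM h n (le_trans (le_max_right _ _) hn), add_zero]
        rw [key (g + h) _ hz, key g (max (M g) (M h)) fun n hn =>
          hM g n (le_trans (le_max_left _ _) hn), key h (max (M g) (M h)) fun n hn =>
          hM h n (le_trans (le_max_right _ _) hn), ← sum_add_distrib]
        exact sum_congr rfl fun n _ => tadd n g h
      map_smul' := by
        intro c g
        have hz : ∀ n, M g ≤ n → (lapl C ^ n) (c • g) = 0 := by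
          intro n hn
          rw [map_smul, hM g n hn, smul_zero]
        rw [key (c • g) _ hz, RingHom.id_apply, smul_eq_mul, mul_sum]
        exact sum_congr rfl fun n _ => tsmul n c g }
  have hE : ∀ g, E g = ∑ n ∈ range (M g), t n g := fun g => rfl
  refine ⟨E, ?_, ?_⟩
  · have hz : ∀ n, 1 ≤ n → (lapl C ^ n) (1 : MvPolynomial α F) = 0 := by
      intro n hn
      obtain ⟨k, rfl⟩ := Nat.exists_eq_add_of_le hn
      rw [add_comm, pow_succ, Module.End.mul_apply, lapl_apply]
      simp [dP_apply]
    rw [hE, key 1 1 hz]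
    simp [t]
  · intro a g
    have hz : ∀ n, M g + 1 ≤ n → (lapl C ^ n) (MvPolynomial.X a * g) = 0 := by
      intro n hn
      obtain ⟨k, rfl⟩ := Nat.exists_eq_add_of_le hn
      rw [show M g + 1 + k = (M g + k) + 1 by ring, lapl_pow_X_mul C hC,
        hM g _ (by omega), hM g _ (by omega)]
      simp
    rw [hE, key _ _ hz, sum_range_succ']
    have h0 : t 0 (MvPolynomial.X a * g) = 0 := by simp [t]
    rw [h0, add_zero]
    have h1 : ∀ n, t (n + 1) (MvPolynomial.X a * g) =
        ((n.factorial : F))⁻¹ * MvPolynomial.constantCoeff (dP C a ((lapl C ^ n) g)) := by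
      intro n
      have hn : ((n : F) + 1) ≠ 0 := by exact_mod_cast Nat.succ_ne_zero n
      have hf : ((n.factorial : F)) ≠ 0 := by exact_mod_cast Nat.factorial_ne_zero n
      simp only [t]
      rw [lapl_pow_X_mul C hC, map_add, map_mul, MvPolynomial.constantCoeff_X, zero_mul, zero_add,
        MvPolynomial.constantCoeff_smul, Nat.factorial_succ, Nat.cast_mul, Nat.cast_add,
        Nat.cast_one, smul_eq_mul]
      field_simp
    rw [sum_congr rfl fun n _ => h1 n]
    have h2 : ∀ b, E (MvPolynomial.pderiv b g) =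
        ∑ n ∈ range (M g), ((n.factorial : F))⁻¹ *
          MvPolynomial.constantCoeff (MvPolynomial.pderiv b ((lapl C ^ n) g)) := by
      intro b
      have hc : ∀ n, MvPolynomial.pderiv b ((lapl C ^ n) g) =
          (lapl C ^ n) (MvPolynomial.pderiv b g) := by
        intro n
        induction n with
        | zero => simp
        | succ n ih =>
          rw [pow_succ', Module.End.mul_apply, Module.End.mul_apply, pd_lapl, ih]
      have hz : ∀ n, M g ≤ n → (lapl C ^ n) (MvPolynomial.pderiv b g) = 0 := by
        intro n hn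
        rw [← hc, hM g n hn, map_zero]
      rw [hE, key _ _ hz]
      refine sum_congr rfl fun n _ => ?_
      simp only [t]
      rw [hc]
    simp only [h2, mul_sum, dP_apply, map_sum]
    rw [sum_comm]
    refine sum_congr rfl fun b _ => sum_congr rfl fun n _ => ?_
    rw [MvPolynomial.constantCoeff_smul, smul_eq_mul]
    ring

/-- apply `exists_gauss` with `C (i,j) (k,l) = if l = i ∧ k = j then (s i + s j)⁻¹ else 0` -/
theorem exists_mat {N : ℕ} {F : Type} [Field F] [CharZero F] (s : Fin N → F) :
    ∃ E : MX N F →ₗ[F] F, IsMat s E := by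
  classical
  obtain ⟨E, h1, h2⟩ := exists_gauss (F := F)
    (fun a b : Fin N × Fin N => if b = (a.2, a.1) then (s a.1 + s a.2)⁻¹ else 0) (by
      rintro ⟨i, j⟩ ⟨k, l⟩
      simp only [Prod.mk.injEq]
      by_cases h : k = j ∧ l = i
      · obtain ⟨rfl, rfl⟩ := h
        simp [add_comm]
      · rw [if_neg h, if_neg]
        rintro ⟨rfl, rfl⟩
        exact h ⟨rfl, rfl⟩)
  refine ⟨E, h1, fun i j g => ?_⟩
  rw [h2]
  rw [sum_eq_single (j, i)]
  · simp
  · intro b _ hb
    rw [if_neg hb, zero_mul]
  · intro h
    exact absurd (mem_univ _) h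

end Pool.Agent.Helper52.MVD
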