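import Pool.Agent.Helper52.MVD.IdII

/-!
Project MV, block D1, module D1-12: the operator identity (heart) for sequences.

Let `r_i(m) = (coeff m R_i) Ψ`. The coefficient of `W^0` of `idI` is `r_i(0) = Ψ`; of `W^(m+1)`:
`r_i(m+1) + DD i (r_i(m)) = ∑_{j≠i} r_j(m)/(s_i - s_j)` (as `W^(m+1)` has coefficient 0 in `1`). So `b i m = r_i(m)`
by induction on `m`. The coefficient of `W^(m+1)` of `idII`, applied to `Ψ`: `An (m+1) Ψ = - ∑_i (1/s_i) r_i(m)`; of `W^0`:
`An 0 = 1`. (Left multiplication by `PowerSeries.X` and `PowerSeries.C`: `PowerSeries.coeff_succ_X_mul`,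
`PowerSeries.coeff_C_mul`.)
-/

namespace Pool.Agent.Helper52.MVD

open Finset Pool.Agent.Helper60.MV

namespace DF

variable {F : Type} [Field F] [Algebra ℝ F] {N : ℕ} (D : DF F N)

private theorem coeff_RR_zero (i : Fin N) : PowerSeries.coeff 0 (D.RR i) = 1 := by
  have h := congrArg (PowerSeries.coeff 0) (D.idI i)
  rw [add_mul, one_mul, mul_assoc, map_add, PowerSeries.coeff_zero_X_mul, add_zero, map_add,
    PowerSeries.coeff_zero_X_mul, add_zero, PowerSeries.coeff_zero_one] at h
  exact h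

private theorem coeff_RR_succ (i : Fin N) (m : ℕ) : PowerSeries.coeff (m + 1) (D.RR i) =
    -(D.DD i * PowerSeries.coeff m (D.RR i)) +
      ∑ j ∈ univ.erase i, mu (1 / (D.s i - D.s j)) * PowerSeries.coeff m (D.RR j) := by
  have h := congrArg (PowerSeries.coeff (m + 1)) (D.idI i)
  rw [add_mul, one_mul, mul_assoc, map_add, PowerSeries.coeff_succ_X_mul, map_add,
    PowerSeries.coeff_succ_X_mul, PowerSeries.coeff_one, if_neg (Nat.succ_ne_zero m), zero_add,
    PowerSeries.coeff_C_mul, map_sum] at h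
  have h2 : ∀ j ∈ univ.erase i, PowerSeries.coeff m (muS (1 / (D.s i - D.s j)) * D.RR j) =
      mu (1 / (D.s i - D.s j)) * PowerSeries.coeff m (D.RR j) := by
    intro j _
    rw [muS, PowerSeries.coeff_C_mul]
  rw [Finset.sum_congr rfl h2] at h
  rw [← h]
  abel

theorem An_zero : D.An 0 = 1 := by
  have h := congrArg (PowerSeries.coeff 0) D.idII
  rw [map_sub, PowerSeries.coeff_zero_X_mul, sub_zero, PowerSeries.coeff_zero_one] at h
  exact h.symm

theorem heart (b : Fin N → ℕ → F) (Ψ : F) (h0 : ∀ i, b i 0 = Ψ)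
    (hrec : ∀ i m, b i (m + 1) =
      -D.DD i (b i m) + ∑ j ∈ univ.erase i, b j m / (D.s i - D.s j)) (m : ℕ) :
    D.An (m + 1) Ψ = -∑ i, 1 / D.s i * b i m := by
  have hb : ∀ (m : ℕ) (i : Fin N), b i m = PowerSeries.coeff m (D.RR i) Ψ := by
    intro m
    induction m with
    | zero =>
      intro i
      rw [h0, coeff_RR_zero]
      rfl
    | succ m ih =>
      intro i
      rw [hrec, coeff_RR_succ, LinearMap.add_apply, LinearMap.neg_apply, LinearMap.sum_apply,
        Module.End.mul_apply, ← ih i]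
      congr 1
      refine Finset.sum_congr rfl fun j _ => ?_
      rw [Module.End.mul_apply, ← ih j]
      change b j m / (D.s i - D.s j) = 1 / (D.s i - D.s j) * b j m
      ring
  have h := congrArg (PowerSeries.coeff (m + 1)) D.idII
  rw [map_sub, PowerSeries.coeff_succ_X_mul, PowerSeries.coeff_one, if_neg (Nat.succ_ne_zero m),
    zero_sub, map_sum] at h
  have h2 : D.An (m + 1) = -∑ i, mu (1 / D.s i) * PowerSeries.coeff m (D.RR i) := by
    have h3 : ∀ i ∈ (univ : Finset (Fin N)),
        PowerSeries.coeff m (muS (1 / D.s i) * D.RR i) =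
        mu (1 / D.s i) * PowerSeries.coeff m (D.RR i) := by
      intro i _
      rw [muS, PowerSeries.coeff_C_mul]
    rw [Finset.sum_congr rfl h3] at h
    exact h.symm
  rw [h2, LinearMap.neg_apply, LinearMap.sum_apply]
  congr 1
  refine Finset.sum_congr rfl fun i _ => ?_
  rw [Module.End.mul_apply, ← hb m i]
  rfl

end DF

end Pool.Agent.Helper52.MVD
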