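import Pool.Agent.Helper52.MVD.MDefs

/-!
Project MV, block D1, module D1-9: the operators `DD i`, `KK i` and the products `KB B`.

All identities are in `Module.End ℝ F` or in the (noncommutative) ring `PowerSeries (Module.End ℝ F)`;
`muS a = PowerSeries.C (mu a)`, `W = PowerSeries.X` commutes with everything (`PowerSeries.commute_X` or by coefficients).
* `mu` is a ring homomorphism; `d i ∘ mu a = mu a ∘ d i + mu (d i a)` (Leibniz), so
  `DD i * mu a = mu a * DD i + mu (d i a)`.
* `d i (1/(2 s_j)) = 0` for `i ≠ j`, and the `d i` commute, so `DD i`, `DD j` commute for all `i j`; hence so do all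
  coefficients of `KK i`, `KK j`, i.e. `KK i`, `KK j` commute (`PowerSeries.ext`, `PowerSeries.coeff_mul`).
* `KK_inv`: `(1 + W DD i) * KK i = 1` (geometric series, coefficientwise).
* `KB B` is the product of the commuting `KK i`, `i ∈ B`; `KB_insert` is `Finset.noncommProd_insert_of_notMem`.
* `step_mu`: `(1 + W DD i) mu r K_B = mu r (1 + W DD i) K_B + W mu (d i r) K_B` and, for `i ∈ B`,
  `(1 + W DD i) K_B = K_(B.erase i)`.
* `KB_mu`: `mu a` commutes with `K_B` if `d j a = 0` for all `j ∈ B`.
* `AA_comm`: for `i ≠ j` `mu (1/s_j)` commutes with `DD i`, `DD i` with `DD j`, so all coefficients commute.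
* `AN_eq`: `AN = ∏_i (1 - W mu(1/s_i) K_i)`; the `W mu(1/s_i) K_i` commute for different `i` (`d j (1/s_i) = 0`), so
  the product expands to `∑_B (-W)^|B| mu(∏_{i∈B} 1/s_i) K_B` (induction on the list of the indices, or
  `Finset.noncommProd`; use `KB_mu` and `KB_insert`).
-/

namespace Pool.Agent.Helper52.MVD

open Finset Pool.Agent.Helper60.MV

/-- multiplication by `a` on series -/
noncomputable def muS {F : Type} [Field F] [Algebra ℝ F] (a : F) :
    PowerSeries (Module.End ℝ F) := PowerSeries.C (mu a)

variable {F : Type} [Field F] [Algebra ℝ F] {N : ℕ}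

theorem mu_apply (a x : F) : mu a x = a * x := by
  rfl

theorem muS_mul (a b : F) : muS (a * b) = muS a * muS b := by
  rw [muS, muS, muS, ← map_mul]
  congr 1
  ext x
  show a * b * x = a * (b * x)
  ring

theorem muS_add (a b : F) : muS (a + b) = muS a + muS b := by
  rw [muS, muS, muS, ← map_add]
  congr 1
  ext x
  show (a + b) * x = a * x + b * x
  ring

theorem muS_one : muS (1 : F) = 1 := by
  rw [muS, ← map_one PowerSeries.C]
  congr 1
  ext x
  show 1 * x = x
  ring

namespace DF

variable (D : DF F N)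

private theorem d_inv (i : Fin N) (a : F) (h : D.d i a = 0) : D.d i (1 / a) = 0 := by
  rw [one_div, Derivation.leibniz_inv, h, smul_zero]

private theorem d_c (i j : Fin N) (h : i ≠ j) : D.d i (1 / (2 * D.s j)) = 0 := by
  refine d_inv D i _ ?_
  rw [two_mul, map_add, D.ds, if_neg h, add_zero]

private theorem d_s (i j : Fin N) (h : i ≠ j) : D.d i (1 / D.s j) = 0 := by
  refine d_inv D i _ ?_
  rw [D.ds, if_neg h]

private theorem d_prod (i : Fin N) (B : Finset (Fin N)) (h : i ∉ B) :
    D.d i (∏ j ∈ B, 1 / D.s j) = 0 := by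
  induction B using Finset.induction_on with
  | empty =>
    rw [Finset.prod_empty]
    exact (D.d i).map_one_eq_zero
  | insert a B ha ih =>
    rw [Finset.prod_insert ha, Derivation.leibniz]
    have h1 : i ≠ a := fun e => h (e ▸ Finset.mem_insert_self _ _)
    have h2 : i ∉ B := fun e => h (Finset.mem_insert_of_mem e)
    rw [ih h2, d_s D i a h1, smul_zero, smul_zero, add_zero]

theorem DD_mu (i : Fin N) (a : F) : D.DD i * mu a = mu a * D.DD i + mu (D.d i a) := by
  ext x
  show D.d i (a * x) - 1 / (2 * D.s i) * (a * x) =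
    a * (D.d i x - 1 / (2 * D.s i) * x) + D.d i a * x
  rw [Derivation.leibniz]
  simp only [smul_eq_mul]
  ring

theorem DD_comm (i j : Fin N) : D.DD i * D.DD j = D.DD j * D.DD i := by
  by_cases hij : i = j
  · rw [hij]
  ext x
  show D.d i (D.d j x - 1 / (2 * D.s j) * x) - 1 / (2 * D.s i) * (D.d j x - 1 / (2 * D.s j) * x) =
    D.d j (D.d i x - 1 / (2 * D.s i) * x) - 1 / (2 * D.s j) * (D.d i x - 1 / (2 * D.s i) * x)
  have h1 := d_c D i j hij
  have h2 := d_c D j i (Ne.symm hij)
  rw [map_sub, map_sub, Derivation.leibniz, Derivation.leibniz, h1, h2, D.comm i j]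
  simp only [smul_eq_mul]
  ring

private theorem ps_commute {R : Type*} [Semiring R] (f g : PowerSeries R)
    (h : ∀ m n, Commute (PowerSeries.coeff m f) (PowerSeries.coeff n g)) : Commute f g := by
  show f * g = g * f
  ext n
  rw [PowerSeries.coeff_mul, PowerSeries.coeff_mul, ← Finset.Nat.sum_antidiagonal_swap]
  refine Finset.sum_congr rfl fun p _ => ?_
  exact h _ _

theorem KK_comm (i j : Fin N) : Commute (D.KK i) (D.KK j) := by
  refine ps_commute _ _ fun m n => ?_
  rw [KK, KK, PowerSeries.coeff_mk, PowerSeries.coeff_mk]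
  have h : Commute (D.DD i) (D.DD j) := D.DD_comm i j
  exact ((h.neg_left).neg_right).pow_pow m n

theorem KK_inv (i : Fin N) : (1 + PowerSeries.X * PowerSeries.C (D.DD i)) * D.KK i = 1 := by
  ext n : 1
  rw [add_mul, one_mul, mul_assoc, map_add, KK]
  rcases n with _ | n
  · rw [PowerSeries.coeff_zero_X_mul, PowerSeries.coeff_mk, pow_zero, add_zero,
      PowerSeries.coeff_zero_one]
  · rw [PowerSeries.coeff_succ_X_mul, PowerSeries.coeff_C_mul, PowerSeries.coeff_mk,
      PowerSeries.coeff_mk, PowerSeries.coeff_one, if_neg (Nat.succ_ne_zero n), pow_succ']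
    have h : ∀ x y : Module.End ℝ F, -x * y + x * y = 0 := fun x y => by
      rw [← add_mul, neg_add_cancel, zero_mul]
    exact h _ _

/-- the product of the `KK i`, `i ∈ B` -/
noncomputable def KB (B : Finset (Fin N)) : PowerSeries (Module.End ℝ F) :=
  B.noncommProd D.KK (fun i _ j _ _ => D.KK_comm i j)

theorem KB_empty : D.KB ∅ = 1 := by
  exact Finset.noncommProd_empty _ _

theorem KB_insert (i : Fin N) (B : Finset (Fin N)) (hi : i ∉ B) :
    D.KB (insert i B) = D.KK i * D.KB B := by
  exact Finset.noncommProd_insert_of_notMem _ _ _ _ hi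

private theorem muS_KK (i : Fin N) (a : F) (h : D.d i a = 0) : Commute (muS a) (D.KK i) := by
  refine ps_commute _ _ fun m n => ?_
  rw [muS, PowerSeries.coeff_C, KK, PowerSeries.coeff_mk]
  by_cases hm : m = 0
  · rw [if_pos hm]
    have h1 := D.DD_mu i a
    have h0 : mu (0 : F) = 0 := by
      ext x
      show (0 : F) * x = 0
      ring
    rw [h, h0, add_zero] at h1
    have h2 : Commute (mu a) (D.DD i) := h1.symm
    exact (h2.neg_right).pow_right n
  · rw [if_neg hm]
    exact Commute.zero_left _

theorem KB_mu (a : F) (B : Finset (Fin N)) (h : ∀ j ∈ B, D.d j a = 0) :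
    muS a * D.KB B = D.KB B * muS a := by
  induction B using Finset.induction_on with
  | empty => rw [KB_empty, mul_one, one_mul]
  | insert i B hi ih =>
    have h1 : D.d i a = 0 := h i (Finset.mem_insert_self _ _)
    have h2 := ih fun j hj => h j (Finset.mem_insert_of_mem hj)
    have h3 : muS a * D.KK i = D.KK i * muS a := muS_KK D i a h1
    rw [KB_insert D i B hi, ← mul_assoc, h3, mul_assoc, h2, mul_assoc]

theorem step_mu (i : Fin N) (r : F) (B : Finset (Fin N)) (hi : i ∈ B) :
    (1 + PowerSeries.X * PowerSeries.C (D.DD i)) * (muS r * D.KB B) =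
      muS r * D.KB (B.erase i) + PowerSeries.X * (muS (D.d i r) * D.KB B) := by
  have h1 : (1 + PowerSeries.X * PowerSeries.C (D.DD i)) * D.KB B = D.KB (B.erase i) := by
    conv_lhs => rw [← Finset.insert_erase hi]
    rw [KB_insert D i _ (Finset.notMem_erase i B), ← mul_assoc, KK_inv, one_mul]
  have h2 : PowerSeries.C (D.DD i) * muS r = muS r * PowerSeries.C (D.DD i) + muS (D.d i r) := by
    rw [muS, muS, ← map_mul, D.DD_mu, map_add, map_mul]
  have h3 : muS r * PowerSeries.X = PowerSeries.X * muS r := PowerSeries.commute_X _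
  rw [← h1]
  have e1 : (1 + PowerSeries.X * PowerSeries.C (D.DD i)) * (muS r * D.KB B) =
      muS r * D.KB B + PowerSeries.X * ((PowerSeries.C (D.DD i) * muS r) * D.KB B) := by
    rw [add_mul, one_mul]
    simp only [mul_assoc]
  rw [e1, h2, add_mul, mul_add, ← add_assoc]
  congr 1
  rw [add_mul, mul_add, one_mul]
  congr 1
  calc PowerSeries.X * (muS r * PowerSeries.C (D.DD i) * D.KB B) =
      (PowerSeries.X * muS r) * (PowerSeries.C (D.DD i) * D.KB B) := by simp only [mul_assoc]
    _ = (muS r * PowerSeries.X) * (PowerSeries.C (D.DD i) * D.KB B) := by rw [h3]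
    _ = _ := by simp only [mul_assoc]

theorem AA_comm (i j : Fin N) : Commute (D.AA i) (D.AA j) := by
  by_cases hij : i = j
  · rw [hij]
  have h1 : Commute (PowerSeries.C (mu (1 / D.s i)) * D.KK i)
      (PowerSeries.C (mu (1 / D.s j)) * D.KK j) := by
    have a1 : Commute (muS (1 / D.s i)) (muS (1 / D.s j)) := by
      show muS (1 / D.s i) * muS (1 / D.s j) = muS (1 / D.s j) * muS (1 / D.s i)
      rw [← muS_mul, ← muS_mul, mul_comm]
    have a2 : Commute (muS (1 / D.s i)) (D.KK j) := muS_KK D j _ (d_s D j i (Ne.symm hij))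
    have a3 : Commute (D.KK i) (muS (1 / D.s j)) := (muS_KK D i _ (d_s D i j hij)).symm
    exact (a1.mul_right a2).mul_left (a3.mul_right (D.KK_comm i j))
  have hX : ∀ f : PowerSeries (Module.End ℝ F), Commute PowerSeries.X f :=
    fun f => (PowerSeries.commute_X f).symm
  have h2 : Commute (PowerSeries.X * (PowerSeries.C (mu (1 / D.s i)) * D.KK i))
      (PowerSeries.X * (PowerSeries.C (mu (1 / D.s j)) * D.KK j)) :=
    ((hX _).mul_right (hX _)).mul_left (((hX _).symm).mul_right h1)
  exact ((Commute.one_left _).sub_left (((Commute.one_right _)).sub_right h2))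

private theorem AN_aux (l : List (Fin N)) (hl : l.Nodup) : (l.map D.AA).prod =
    ∑ B ∈ l.toFinset.powerset,
      (-PowerSeries.X) ^ B.card * (muS (∏ i ∈ B, 1 / D.s i) * D.KB B) := by
  induction l with
  | nil =>
    rw [List.map_nil, List.prod_nil, List.toFinset_nil, Finset.powerset_empty,
      Finset.sum_singleton, Finset.card_empty, pow_zero, Finset.prod_empty, muS_one, KB_empty,
      one_mul, one_mul]
  | cons a l ih =>
    have hl2 := List.nodup_cons.mp hl
    have ha : a ∉ l.toFinset := fun e => hl2.1 (List.mem_toFinset.mp e)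
    rw [List.map_cons, List.prod_cons, ih hl2.2, List.toFinset_cons,
      Finset.sum_powerset_insert ha, AA, sub_mul, one_mul, sub_eq_add_neg, Finset.mul_sum,
      ← Finset.sum_neg_distrib]
    congr 1
    refine Finset.sum_congr rfl fun B hB => ?_
    have haB : a ∉ B := fun e => ha (Finset.mem_powerset.mp hB e)
    rw [Finset.card_insert_of_notMem haB, Finset.prod_insert haB, KB_insert D a B haB, muS_mul]
    have hX : ∀ f : PowerSeries (Module.End ℝ F), f * (-PowerSeries.X) ^ B.card =
        (-PowerSeries.X) ^ B.card * f :=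
      fun f => ((PowerSeries.commute_X f).neg_right).pow_right _
    have hk : muS (∏ i ∈ B, 1 / D.s i) * D.KK a = D.KK a * muS (∏ i ∈ B, 1 / D.s i) :=
      muS_KK D a _ (d_prod D a B haB)
    have e0 : PowerSeries.C (mu (1 / D.s a)) = muS (1 / D.s a) := rfl
    rw [e0]
    generalize muS (∏ i ∈ B, 1 / D.s i) = P at hk
    generalize muS (1 / D.s a) = Q
    generalize D.KB B = R
    generalize D.KK a = K at hk
    rw [pow_succ']
    calc -(PowerSeries.X * (Q * K) * ((-PowerSeries.X) ^ B.card * (P * R))) =
        (-PowerSeries.X) * ((Q * K) * (-PowerSeries.X) ^ B.card) * (P * R) := by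
          rw [mul_assoc PowerSeries.X]
          have hn : ∀ x y : PowerSeries (Module.End ℝ F), -(x * y) = -x * y :=
            fun x y => (neg_mul x y).symm
          refine (hn _ _).trans ?_
          simp only [mul_assoc]
      _ = (-PowerSeries.X) * ((-PowerSeries.X) ^ B.card * (Q * K)) * (P * R) := by rw [hX]
      _ = (-PowerSeries.X) * (-PowerSeries.X) ^ B.card * (Q * ((K * P) * R)) := by
          simp only [mul_assoc]
      _ = (-PowerSeries.X) * (-PowerSeries.X) ^ B.card * (Q * ((P * K) * R)) := by rw [hk]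
      _ = _ := by simp only [mul_assoc]

theorem AN_eq : D.AN = ∑ B : Finset (Fin N),
    (-PowerSeries.X) ^ B.card * (muS (∏ i ∈ B, 1 / D.s i) * D.KB B) := by
  have h := AN_aux D (List.finRange N) (List.nodup_finRange N)
  rw [AN, List.ofFn_eq_map, h, List.toFinset_finRange, Finset.powerset_univ]

end DF

end Pool.Agent.Helper52.MVD
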