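import Pool.Agent.Helper52.MVD.PF
import Pool.Agent.Helper52.MVD.Ops

/-!
Project MV, block D1, module D1-10: the first operator identity.

`W = PowerSeries.X`, `r_{i,B} = ∏_{j ∈ B.erase i} 1/(s_j - s_i)`, `R_i = ∑_{B ∋ i} (-W)^(|B|-1) mu(r_{i,B}) K_B`.
By `step_mu`: `(1 + W DD i) R_i = ∑_{B∋i} (-W)^(|B|-1) [mu(r_{i,B}) K_{B.erase i} + W mu(d_i r_{i,B}) K_B]`.
First part: `J = B.erase i` runs over the sets with `i ∉ J`: `∑_{J∌i} (-W)^|J| mu(∏_{j∈J} 1/(s_j - s_i)) K_J`; `J = ∅`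
gives 1. Right side: `1 + W ∑_{j≠i} mu(1/(s_i-s_j)) R_j = 1 - ∑_{B ≠ ∅} (-W)^|B| mu(∑_{j∈B.erase i} (s_i-s_j)⁻¹ r_{j,B}) K_B`.
Compare for every `B ≠ ∅`:
 (`i ∉ B`) `∏_{j∈B} 1/(s_j - s_i) = ∑_{j∈B} (s_j - s_i)⁻¹ ∏_{k∈B.erase j} (s_k - s_j)⁻¹`: `pf1` with `z = s_i`;
 (`i ∈ B`, `J = B.erase i`) `d_i r_{i,B} = r_{i,B} ∑_{j∈J} 1/(s_j - s_i)` and for `j ∈ J`
 `r_{j,B} = (s_i - s_j)⁻¹ ∏_{k∈J.erase j} (s_k - s_j)⁻¹`, so the needed
 `d_i r_{i,B} = ∑_{j∈J} (s_i - s_j)⁻¹ r_{j,B}` is `pf2` for `J`, `z = s_i`.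
-/

namespace Pool.Agent.Helper52.MVD

open Finset Pool.Agent.Helper60.MV

namespace DF

variable {F : Type} [Field F] [Algebra ℝ F] {N : ℕ} (D : DF F N)

/-- `R_i = ∑_{B ∋ i} (-W)^(|B|-1) ∏_{j ∈ B \ i} (s_j - s_i)⁻¹ K_B` -/
noncomputable def RR (i : Fin N) : PowerSeries (Module.End ℝ F) :=
  ∑ B ∈ univ.filter (fun B : Finset (Fin N) => i ∈ B),
    (-PowerSeries.X) ^ (B.card - 1) *
      (muS (∏ j ∈ B.erase i, 1 / (D.s j - D.s i)) * D.KB B)

/-- `muS` as an additive homomorphism -/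
private noncomputable def muH {F : Type} [Field F] [Algebra ℝ F] :
    F →+ PowerSeries (Module.End ℝ F) :=
  AddMonoidHom.mk' muS muS_add

private theorem muH_apply {F : Type} [Field F] [Algebra ℝ F] (a : F) : muH a = muS a := rfl

private theorem d_prod (i : Fin N) (J : Finset (Fin N)) (hi : i ∉ J) :
    D.d i (∏ j ∈ J, 1 / (D.s j - D.s i)) =
      (∏ j ∈ J, 1 / (D.s j - D.s i)) * ∑ j ∈ J, 1 / (D.s j - D.s i) := by
  classical
  induction J using Finset.induction_on with
  | empty => simp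
  | insert a J ha ih =>
    have hia : i ≠ a := by
      rintro rfl
      exact hi (Finset.mem_insert_self _ _)
    have hiJ : i ∉ J := fun h => hi (Finset.mem_insert_of_mem h)
    rw [Finset.prod_insert ha, Finset.sum_insert ha, Derivation.leibniz, ih hiJ]
    have h1 : D.d i (1 / (D.s a - D.s i)) = (1 / (D.s a - D.s i)) ^ 2 := by
      rw [one_div, Derivation.leibniz_inv, map_sub, D.ds, D.ds, if_neg hia, if_pos rfl]
      simp
    rw [h1]
    simp only [smul_eq_mul]
    ring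

theorem idI (i : Fin N) : (1 + PowerSeries.X * PowerSeries.C (D.DD i)) * D.RR i =
    1 + PowerSeries.X * ∑ j ∈ univ.erase i, muS (1 / (D.s i - D.s j)) * D.RR j := by
  classical
  set V : PowerSeries (Module.End ℝ F) := -PowerSeries.X with hV
  have hVc : ∀ (n : ℕ) (φ : PowerSeries (Module.End ℝ F)), φ * V ^ n = V ^ n * φ := fun n φ =>
    ((PowerSeries.commute_X φ).neg_right.pow_right n).eq
  let r : Fin N → Finset (Fin N) → F := fun j B => ∏ k ∈ B.erase j, 1 / (D.s k - D.s j)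
  have hr : ∀ j B, r j B = ∏ k ∈ B.erase j, 1 / (D.s k - D.s j) := fun j B => rfl
  have hXV : ∀ B : Finset (Fin N), B.Nonempty →
      (PowerSeries.X : PowerSeries (Module.End ℝ F)) * V ^ (B.card - 1) = - V ^ B.card := by
    intro B hB
    obtain ⟨n, hn⟩ : ∃ n, B.card = n + 1 :=
      ⟨B.card - 1, by have := hB.card_pos; omega⟩
    rw [hn, Nat.add_sub_cancel, pow_succ']
    have h1 : V * V ^ n = -(PowerSeries.X * V ^ n) :=
      neg_mul (α := PowerSeries (Module.End ℝ F)) _ _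
    rw [h1, neg_neg]
  have hR : ∀ j, D.RR j = ∑ B ∈ univ.filter (fun B : Finset (Fin N) => j ∈ B),
      V ^ (B.card - 1) * (muS (r j B) * D.KB B) := fun j => rfl
  have hRHS : PowerSeries.X * ∑ j ∈ univ.erase i, muS (1 / (D.s i - D.s j)) * D.RR j =
      - ∑ B : Finset (Fin N), V ^ B.card *
        (muS (∑ j ∈ B.erase i, 1 / (D.s i - D.s j) * r j B) * D.KB B) := by
    have h1 : ∀ B : Finset (Fin N), V ^ B.card *
        (muS (∑ j ∈ B.erase i, 1 / (D.s i - D.s j) * r j B) * D.KB B) =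
        ∑ j ∈ B.erase i, V ^ B.card *
          (muS (1 / (D.s i - D.s j)) * (muS (r j B) * D.KB B)) := by
      intro B
      rw [← muH_apply, map_sum, Finset.sum_mul, Finset.mul_sum]
      refine Finset.sum_congr rfl fun j _ => ?_
      rw [muH_apply, muS_mul, mul_assoc (muS _)]
    rw [Finset.mul_sum]
    simp only [h1]
    have h2 : ∑ B : Finset (Fin N), ∑ j ∈ B.erase i, V ^ B.card *
          (muS (1 / (D.s i - D.s j)) * (muS (r j B) * D.KB B)) =
        ∑ j ∈ univ.erase i, ∑ B ∈ univ.filter (fun B : Finset (Fin N) => j ∈ B), V ^ B.card *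
          (muS (1 / (D.s i - D.s j)) * (muS (r j B) * D.KB B)) := by
      refine Finset.sum_comm' ?_
      intro B j
      simp [and_comm]
    rw [h2, ← Finset.sum_neg_distrib]
    refine Finset.sum_congr rfl fun j hj => ?_
    rw [hR j, Finset.mul_sum, Finset.mul_sum, ← Finset.sum_neg_distrib]
    refine Finset.sum_congr rfl fun B hB => ?_
    have hne : B.Nonempty := ⟨j, (Finset.mem_filter.mp hB).2⟩
    rw [← mul_assoc (muS _) (V ^ _), hVc, mul_assoc (V ^ _), ← mul_assoc PowerSeries.X,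
      hXV B hne]
    exact neg_mul (α := PowerSeries (Module.End ℝ F)) _ _
  have hLHS : (1 + PowerSeries.X * PowerSeries.C (D.DD i)) * D.RR i =
      ∑ B ∈ univ.filter (fun B : Finset (Fin N) => i ∈ B),
        V ^ (B.card - 1) * (muS (r i B) * D.KB (B.erase i))
      - ∑ B ∈ univ.filter (fun B : Finset (Fin N) => i ∈ B),
        V ^ B.card * (muS (D.d i (r i B)) * D.KB B) := by
    rw [hR i, Finset.mul_sum, ← Finset.sum_sub_distrib]
    refine Finset.sum_congr rfl fun B hB => ?_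
    have hi := (Finset.mem_filter.mp hB).2
    rw [← mul_assoc, hVc, mul_assoc, D.step_mu i _ B hi, mul_add,
      ← mul_assoc (V ^ (B.card - 1)) PowerSeries.X, (PowerSeries.commute_X (V ^ (B.card - 1))).eq,
      hXV B ⟨i, hi⟩, sub_eq_add_neg]
    congr 1
    exact neg_mul (α := PowerSeries (Module.End ℝ F)) _ _
  have hA : ∑ B ∈ univ.filter (fun B : Finset (Fin N) => i ∈ B),
        V ^ (B.card - 1) * (muS (r i B) * D.KB (B.erase i)) =
      ∑ J ∈ univ.filter (fun J : Finset (Fin N) => ¬ i ∈ J),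
        V ^ J.card * (muS (∏ j ∈ J, 1 / (D.s j - D.s i)) * D.KB J) := by
    refine Finset.sum_bij' (fun B _ => B.erase i) (fun J _ => insert i J) ?_ ?_ ?_ ?_ ?_
    · intro B hB
      simp
    · intro J hJ
      simp
    · intro B hB
      exact Finset.insert_erase (Finset.mem_filter.mp hB).2
    · intro J hJ
      exact Finset.erase_insert (Finset.mem_filter.mp hJ).2
    · intro B hB
      rw [Finset.card_erase_of_mem (Finset.mem_filter.mp hB).2]
  -- coefficient identity for `i ∈ B`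
  have hB1 : ∀ B : Finset (Fin N), i ∈ B →
      D.d i (r i B) = ∑ j ∈ B.erase i, 1 / (D.s i - D.s j) * r j B := by
    intro B hiB
    rw [hr, D.d_prod i _ (Finset.notMem_erase i B), pf2 D.s (B.erase i)
      (fun a _ b _ hab => D.sub_ne hab) (D.s i)
      (fun a ha => D.sub_ne (Finset.ne_of_mem_erase ha))]
    refine Finset.sum_congr rfl fun j hj => ?_
    have hji : j ≠ i := Finset.ne_of_mem_erase hj
    have h1 : B.erase j = insert i ((B.erase i).erase j) := by
      ext k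
      simp only [Finset.mem_erase, Finset.mem_insert]
      constructor
      · rintro ⟨h2, h3⟩
        by_cases hk : k = i
        · exact Or.inl hk
        · exact Or.inr ⟨h2, hk, h3⟩
      · rintro (h2 | ⟨h2, h3, h4⟩)
        · rw [h2]
          exact ⟨hji.symm, hiB⟩
        · exact ⟨h2, h4⟩
    have h2 : i ∉ (B.erase i).erase j := by simp
    rw [hr, h1, Finset.prod_insert h2, ← mul_assoc]
    congr 1
    have h3 := D.sub_ne hji
    have h4 := D.sub_ne hji.symm
    field_simp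
    ring
  -- coefficient identity for `i ∉ B`
  have hB2 : ∀ B : Finset (Fin N), i ∉ B → B.Nonempty →
      ∑ j ∈ B.erase i, 1 / (D.s i - D.s j) * r j B = - ∏ j ∈ B, 1 / (D.s j - D.s i) := by
    intro B hiB hne
    rw [Finset.erase_eq_of_notMem hiB, pf1 D.s B hne (fun a _ b _ hab => D.sub_ne hab) (D.s i)
      (fun a ha => D.sub_ne (fun h => hiB (h ▸ ha))), ← Finset.sum_neg_distrib]
    refine Finset.sum_congr rfl fun j hj => ?_
    rw [hr, ← neg_mul]
    congr 1
    rw [← neg_sub (D.s j) (D.s i), one_div, one_div, inv_neg]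
  rw [hLHS, hRHS, hA, ← Finset.sum_filter_add_sum_filter_not univ
    (fun B : Finset (Fin N) => i ∈ B) (fun B : Finset (Fin N) => V ^ B.card *
        (muS (∑ j ∈ B.erase i, 1 / (D.s i - D.s j) * r j B) * D.KB B))]
  have hE1 : ∑ B ∈ univ.filter (fun B : Finset (Fin N) => i ∈ B),
        V ^ B.card * (muS (D.d i (r i B)) * D.KB B) =
      ∑ B ∈ univ.filter (fun B : Finset (Fin N) => i ∈ B), V ^ B.card *
        (muS (∑ j ∈ B.erase i, 1 / (D.s i - D.s j) * r j B) * D.KB B) := by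
    refine Finset.sum_congr rfl fun B hB => ?_
    rw [hB1 B (Finset.mem_filter.mp hB).2]
  have hE2 : ∑ B ∈ univ.filter (fun B : Finset (Fin N) => ¬ i ∈ B),
        V ^ B.card * (muS (∏ j ∈ B, 1 / (D.s j - D.s i)) * D.KB B) +
      ∑ B ∈ univ.filter (fun B : Finset (Fin N) => ¬ i ∈ B), V ^ B.card *
        (muS (∑ j ∈ B.erase i, 1 / (D.s i - D.s j) * r j B) * D.KB B) = 1 := by
    rw [← Finset.sum_add_distrib]
    rw [Finset.sum_eq_single_of_mem (∅ : Finset (Fin N)) (by simp)]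
    · rw [Finset.card_empty, pow_zero, Finset.prod_empty, Finset.erase_empty, Finset.sum_empty,
        muS_one, D.KB_empty, ← muH_apply, map_zero]
      simp
    · intro B hB hne
      rw [hB2 B (Finset.mem_filter.mp hB).2 (Finset.nonempty_iff_ne_empty.mpr hne),
        ← muH_apply (- ∏ j ∈ B, 1 / (D.s j - D.s i)), map_neg, muH_apply]
      have h5 : V ^ B.card * (-muS (∏ j ∈ B, 1 / (D.s j - D.s i)) * D.KB B) =
          -(V ^ B.card * (muS (∏ j ∈ B, 1 / (D.s j - D.s i)) * D.KB B)) :=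
        (congrArg (fun y => V ^ B.card * y)
          (neg_mul (α := PowerSeries (Module.End ℝ F)) _ _)).trans
          (mul_neg (α := PowerSeries (Module.End ℝ F)) _ _)
      rw [h5, add_neg_cancel]
  rw [hE1, ← hE2]
  abel

end DF

end Pool.Agent.Helper52.MVD
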