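import Pool.Agent.Helper52.MVD.IdI

/-!
Project MV, block D1, module D1-11: the second operator identity.

`W ∑_i mu(1/s_i) R_i = ∑_{B≠∅} W (-W)^(|B|-1) mu(∑_{i∈B} (1/s_i) ∏_{j∈B.erase i} 1/(s_j - s_i)) K_B`
`= - ∑_{B≠∅} (-W)^|B| mu(∏_{j∈B} 1/s_j) K_B` by `pf1` with `z = 0`; now `AN_eq` (the term `B = ∅` is 1).
-/

namespace Pool.Agent.Helper52.MVD

open Finset Pool.Agent.Helper60.MV

namespace DF

variable {F : Type} [Field F] [Algebra ℝ F] {N : ℕ} (D : DF F N)

private theorem muS_sum {ι : Type} (B : Finset ι) (a : ι → F) :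
    (muS (∑ i ∈ B, a i) : PowerSeries (Module.End ℝ F)) = ∑ i ∈ B, muS (a i) :=
  map_sum (AddMonoidHom.mk' (muS (F := F)) muS_add) a B

private theorem ring_aux {R : Type} [Ring R] (X m : R) (h : Commute m X) (n : ℕ) (r k : R) :
    X * (m * ((-X) ^ n * (r * k))) = -((-X) ^ (n + 1) * (m * r * k)) := by
  have h1 : m * (-X) ^ n = (-X) ^ n * m := (h.neg_right.pow_right n).eq
  rw [← mul_assoc m, h1, pow_succ', neg_mul, neg_mul, neg_neg]
  simp only [mul_assoc]

private theorem inner_sum (B : Finset (Fin N)) (hB : B.Nonempty) :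
    PowerSeries.X * ∑ i ∈ B, muS (1 / D.s i) * ((-PowerSeries.X) ^ (B.card - 1) *
      (muS (∏ j ∈ B.erase i, 1 / (D.s j - D.s i)) * D.KB B)) =
    -((-PowerSeries.X) ^ B.card * (muS (∏ i ∈ B, 1 / D.s i) * D.KB B)) := by
  have h1 : ∏ j ∈ B, 1 / D.s j =
      ∑ j ∈ B, 1 / D.s j * ∏ k ∈ B.erase j, 1 / (D.s k - D.s j) := by
    have h := pf1 D.s B hB (fun i _ j _ hij => D.sub_ne hij) 0
      (fun i _ => by rw [sub_zero]; exact D.s_ne i)
    simpa using h
  rw [h1, muS_sum, Finset.sum_mul, Finset.mul_sum, Finset.mul_sum, ← Finset.sum_neg_distrib]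
  refine Finset.sum_congr rfl fun i _ => ?_
  have hc : B.card = (B.card - 1) + 1 := by
    have := hB.card_pos
    omega
  rw [muS_mul]
  conv_rhs => rw [hc]
  exact ring_aux _ _ (PowerSeries.commute_X _) _ _ _

theorem idII : 1 - PowerSeries.X * ∑ i, muS (1 / D.s i) * D.RR i = D.AN := by
  rw [AN_eq]
  have h1 : ∑ i, muS (1 / D.s i) * D.RR i = ∑ B : Finset (Fin N), ∑ i ∈ B,
      muS (1 / D.s i) * ((-PowerSeries.X) ^ (B.card - 1) *
      (muS (∏ j ∈ B.erase i, 1 / (D.s j - D.s i)) * D.KB B)) := by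
    have h2 : ∀ i, muS (1 / D.s i) * D.RR i = ∑ B ∈ univ.filter (fun B : Finset (Fin N) => i ∈ B),
        muS (1 / D.s i) * ((-PowerSeries.X) ^ (B.card - 1) *
        (muS (∏ j ∈ B.erase i, 1 / (D.s j - D.s i)) * D.KB B)) := by
      intro i
      rw [RR, Finset.mul_sum]
    rw [Finset.sum_congr rfl fun i _ => h2 i]
    exact Finset.sum_comm' (by intro x y; simp)
  rw [h1, Finset.mul_sum, ← Finset.add_sum_erase univ _ (Finset.mem_univ (∅ : Finset (Fin N))),
    ← Finset.add_sum_erase (univ : Finset (Finset (Fin N)))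
      (fun B => (-PowerSeries.X) ^ B.card * (muS (∏ i ∈ B, 1 / D.s i) * D.KB B))
      (Finset.mem_univ (∅ : Finset (Fin N)))]
  have h3 : ∀ B ∈ (univ : Finset (Finset (Fin N))).erase ∅,
      PowerSeries.X * ∑ i ∈ B, muS (1 / D.s i) * ((-PowerSeries.X) ^ (B.card - 1) *
      (muS (∏ j ∈ B.erase i, 1 / (D.s j - D.s i)) * D.KB B)) =
      -((-PowerSeries.X) ^ B.card * (muS (∏ i ∈ B, 1 / D.s i) * D.KB B)) := by
    intro B hB
    exact D.inner_sum B (Finset.nonempty_iff_ne_empty.2 (Finset.ne_of_mem_erase hB))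
  rw [Finset.sum_congr rfl h3, Finset.sum_neg_distrib]
  simp only [Finset.sum_empty, mul_zero, zero_add, sub_neg_eq_add, Finset.card_empty, pow_zero,
    one_mul, Finset.prod_empty, muS_one, KB_empty]

end DF

end Pool.Agent.Helper52.MVD
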