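import Pool.Agent.Helper52.MVD.DDefs

/-!
Project MV, blocks D1 and D2: the statements (each will be proved in its own file).
-/

namespace Pool.Agent.Helper52.MVD

open Finset Pool.Agent.Helper60.MV

/-! ## Block statements (each proved in its own file) -/

namespace Iface

variable {F : Type} [Field F] [Algebra ℝ F] {N : ℕ}

/-- BLOCK D1: the condition `IsSol` determines `L`, and the values are those of the matrix
model. -/
theorem D1main (D : DF F N) (L : MvPolynomial ℕ ℝ →ₗ[ℝ] F) (hL : D.IsSol L) {ρ : Type}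
    [Fintype ρ] (K : ρ → ℕ) (hK : ∀ i, Odd (K i)) : L (bos K) = D.G * PKF K N D.s := by
  sorry

/-- BLOCK D2: the Fock space functional satisfies `IsSol`, and its values are given by the
polynomials `Rpoly`. -/
theorem D2main (D : DF F N) (hN : Even N) : ∃ L : MvPolynomial ℕ ℝ →ₗ[ℝ] F, D.IsSol L ∧
    ∀ {ρ : Type} [Fintype ρ] (K : ρ → ℕ) (_ : ∀ i, Odd (K i)) (E : ℕ) (_ : ∑ i, K i = 2 * E),
      L (bos K) = D.G * MvPolynomial.aeval (tval D.s) (Rpoly K) := by
  sorry

/-- the differential field of rational functions -/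
theorem exists_DF (N : ℕ) : ∃ D : DF (FractionRing (MvPolynomial (Fin N) ℝ)) N,
    ∀ i, D.s i = algebraMap (MvPolynomial (Fin N) ℝ) (FractionRing (MvPolynomial (Fin N) ℝ))
      (MvPolynomial.X i) := by
  sorry

/-- transfer: an identity for the generic point gives the identity for every positive point -/
theorem transfer {ρ : Type} [Fintype ρ] (K : ρ → ℕ) (N : ℕ) (R : MvPolynomial ℕ ℝ)
    (h : PKF K N (fun i => algebraMap (MvPolynomial (Fin N) ℝ)
        (FractionRing (MvPolynomial (Fin N) ℝ)) (MvPolynomial.X i)) =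
      MvPolynomial.aeval (tval (fun i => algebraMap (MvPolynomial (Fin N) ℝ)
        (FractionRing (MvPolynomial (Fin N) ℝ)) (MvPolynomial.X i))) R)
    (s : Fin N → ℝ) (hs : ∀ i, 0 < s i) : PK K N s = MvPolynomial.aeval (tval s) R := by
  sorry

end Iface

end Pool.Agent.Helper52.MVD
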