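import Pool.Agent.Helper52.MVD.DDefs

/-!
Project MV, block D1: the matrix layer (definitions).
-/

namespace Pool.Agent.Helper52.MVD

open Finset Pool.Agent.Helper60.MV

/-- polynomials in the entries of an `N × N` matrix -/
abbrev MX (N : ℕ) (F : Type) [Field F] : Type := MvPolynomial (Fin N × Fin N) F

/-- the generic matrix -/
noncomputable def XM (N : ℕ) (F : Type) [Field F] : Matrix (Fin N) (Fin N) (MX N F) :=
  fun i j => MvPolynomial.X (i, j)

/-- `Tr X^k` -/
noncomputable def pt (N : ℕ) (F : Type) [Field F] (k : ℕ) : MX N F := ∑ i, (XM N F ^ k) i i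

/-- `T_m = ∑ s_i⁻¹ (X^m)_ii` -/
noncomputable def TT {N : ℕ} {F : Type} [Field F] (s : Fin N → F) (m : ℕ) : MX N F :=
  ∑ i, MvPolynomial.C (1 / s i) * (XM N F ^ m) i i

/-- the substitution `X j ↦ Tr X^(2j+1)` -/
noncomputable def subT (N : ℕ) (F : Type) [Field F] [Algebra ℝ F] :
    MvPolynomial ℕ ℝ →ₐ[ℝ] MX N F :=
  MvPolynomial.aeval (fun j => pt N F (2 * j + 1))

/-- `E` is the Gaussian expectation with covariance `⟨X_ij X_ji⟩ = 1 / (s_i + s_j)` -/
structure IsMat {N : ℕ} {F : Type} [Field F] (s : Fin N → F) (E : MX N F →ₗ[F] F) : Prop where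
  one : E 1 = 1
  step : ∀ i j g, E (MvPolynomial.X (i, j) * g) = (s i + s j)⁻¹ * E (MvPolynomial.pderiv (j, i) g)

/-- the derivation `X ↦ [E_ji, X]` -/
noncomputable def delt (N : ℕ) (F : Type) [Field F] (i j : Fin N) :
    Derivation F (MX N F) (MX N F) :=
  MvPolynomial.mkDerivation F (fun kl : Fin N × Fin N =>
    (if kl.1 = j then MvPolynomial.X (i, kl.2) else 0) -
      (if kl.2 = i then MvPolynomial.X (kl.1, j) else 0))

namespace DF

variable {F : Type} [Field F] [Algebra ℝ F] {N : ℕ} (D : DF F N)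

theorem charZero (_ : DF F N) : CharZero F := charZero_of_injective_algebraMap
  (algebraMap ℝ F).injective

theorem s_ne (i : Fin N) : D.s i ≠ 0 := by
  intro h
  have := D.ds i i
  rw [h] at this
  simp at this

theorem add_ne (i j : Fin N) : D.s i + D.s j ≠ 0 := by
  intro h
  have h2 : D.d i (D.s i + D.s j) = 0 := by rw [h]; simp
  rw [map_add, D.ds, D.ds] at h2
  have := D.charZero
  by_cases hij : i = j
  · simp only [hij, if_true] at h2
    norm_num at h2
  · simp [hij] at h2

theorem sub_ne {i j : Fin N} (hij : i ≠ j) : D.s i - D.s j ≠ 0 := by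
  intro h
  have h2 : D.d i (D.s i - D.s j) = 0 := by rw [h]; simp
  rw [map_sub, D.ds, D.ds] at h2
  simp [hij] at h2

end DF

end Pool.Agent.Helper52.MVD
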