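import Pool.Agent.Helper52.MVD.MDefs

/-!
Project MV, block D1, module D1-6: the Ward identity.

`δ = delt N F i j` is the derivation with `δ X_kl = [E_ji, X]_kl = δ_kj X_il - δ_li X_kj`.
* `delt_pow`: `δ (X^m)_kl = [E_ji, X^m]_kl` (induction on `m`: Leibniz and `[E, X^(m+1)] = [E, X^m] X + X^m [E, X]`;
  `m = 0` is `0 = 0`).
* `delt_pt`: `∑_k` of the previous one is `(X^m)_ij - (X^m)_ij = 0`; hence `δ (subT f) = 0` (induction on `f`).
* `ward`: `δ g = ∑_kl (δ X_kl) ∂_kl g` (chain rule for `mkDerivation`). By `hE.step`,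
  `E (∂_kl h) = (s_k + s_l) E (X_lk h)`, so
  `E (δ g) = ∑_kl E (∂_kl ((δ X_kl) g)) - E ((∑_kl ∂_kl (δ X_kl)) g)`; the divergence
  `∑_kl ∂_kl (δ_kj X_il - δ_li X_kj) = ∑_kl (δ_kj δ_ik - δ_li δ_lj) = 0`; and
  `∑_kl (s_k + s_l) X_lk (δ X_kl) = ∑_l (s_j + s_l) X_lj X_il - ∑_k (s_k + s_i) X_ik X_kj
  = (s_j - s_i) ∑_l X_il X_lj = (s_j - s_i) (X²)_ij`. So `E (δ g) = (s_j - s_i) E ((X²)_ij g)`.
* `ward2`: apply `ward` to `g = (X^m)_ji subT f`, `i ≠ j`: `δ ((X^m)_ji) = (X^m)_ii - (X^m)_jj`.
-/

namespace Pool.Agent.Helper52.MVD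

open Finset Pool.Agent.Helper60.MV

variable {N : ℕ} {F : Type} [Field F]

theorem delt_X (i j k l : Fin N) :
    delt N F i j (MvPolynomial.X (k, l)) =
      (if k = j then MvPolynomial.X (i, l) else 0) - (if l = i then MvPolynomial.X (k, j) else 0) := by
  unfold delt
  rw [MvPolynomial.mkDerivation_X]

theorem delt_pow (i j k l : Fin N) (m : ℕ) :
    delt N F i j ((XM N F ^ m) k l) =
      (if k = j then (XM N F ^ m) i l else 0) - (if l = i then (XM N F ^ m) k j else 0) := by
  induction m generalizing k l with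
  | zero =>
    simp only [pow_zero, Matrix.one_apply]
    have h1 : delt N F i j (if k = l then (1 : MX N F) else 0) = 0 := by
      split_ifs
      · exact (delt N F i j).map_one_eq_zero
      · exact map_zero _
    rw [h1]
    by_cases h2 : k = j <;> by_cases h3 : l = i
    · simp [h2, h3]
    · simp [h2, h3, Ne.symm h3]
    · simp [h2, h3]
    · simp [h2, h3]
  | succ m ih =>
    have hm : ∀ a b : Fin N, (XM N F ^ (m + 1)) a b =
        ∑ c, (XM N F ^ m) a c * MvPolynomial.X (c, b) := by
      intro a b
      rw [pow_succ, Matrix.mul_apply]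
      rfl
    rw [hm k l, map_sum]
    have hterm : ∀ a : Fin N, delt N F i j ((XM N F ^ m) k a * MvPolynomial.X (a, l)) =
        (if k = j then (XM N F ^ m) i a * MvPolynomial.X (a, l) else 0) -
          (if a = i then (XM N F ^ m) k j * MvPolynomial.X (a, l) else 0) +
        ((if a = j then (XM N F ^ m) k a * MvPolynomial.X (i, l) else 0) -
          (if l = i then (XM N F ^ m) k a * MvPolynomial.X (a, j) else 0)) := by
      intro a
      rw [Derivation.leibniz, ih, delt_X, smul_eq_mul, smul_eq_mul]
      split_ifs <;> ring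
    rw [Finset.sum_congr rfl (fun a _ => hterm a), Finset.sum_add_distrib,
      Finset.sum_sub_distrib, Finset.sum_sub_distrib]
    simp only [Finset.sum_ite_eq', Finset.mem_univ, if_true]
    rw [hm i l, hm k j]
    by_cases h2 : k = j <;> by_cases h3 : l = i
    · simp only [h2, h3, if_true]
      ring
    · simp [h2, h3]
    · simp only [h2, h3, if_true, if_false, Finset.sum_const_zero]
      ring
    · simp [h2, h3]

/-- sums of derivations -/
theorem der_sum_apply {α : Type} (t : Finset α) (D : α → Derivation F (MX N F) (MX N F))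
    (g : MX N F) : (∑ a ∈ t, D a) g = ∑ a ∈ t, D a g := by
  classical
  induction t using Finset.induction_on with
  | empty => simp
  | insert a t ha ih => rw [Finset.sum_insert ha, Finset.sum_insert ha, Derivation.add_apply, ih]

theorem delt_pt (i j : Fin N) (m : ℕ) : delt N F i j (pt N F m) = 0 := by
  unfold pt
  rw [map_sum, Finset.sum_congr rfl (fun k _ => delt_pow i j k k m), Finset.sum_sub_distrib]
  simp

theorem delt_subT [Algebra ℝ F] (i j : Fin N) (f : MvPolynomial ℕ ℝ) :
    delt N F i j (subT N F f) = 0 := by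
  induction f using MvPolynomial.induction_on with
  | C a =>
    unfold subT
    rw [MvPolynomial.aeval_C, IsScalarTower.algebraMap_apply ℝ F (MX N F) a,
      Derivation.map_algebraMap]
  | add p q hp hq => rw [map_add, map_add, hp, hq, add_zero]
  | mul_X p n hp =>
    rw [map_mul, Derivation.leibniz, hp, smul_zero, add_zero]
    have : subT N F (MvPolynomial.X n) = pt N F (2 * n + 1) := by
      unfold subT
      rw [MvPolynomial.aeval_X]
    rw [this, delt_pt, smul_zero]

/-- chain rule -/
theorem delt_chain (i j : Fin N) (g : MX N F) :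
    delt N F i j g = ∑ kl : Fin N × Fin N,
      ((if kl.1 = j then MvPolynomial.X (i, kl.2) else 0) -
        (if kl.2 = i then MvPolynomial.X (kl.1, j) else 0)) * MvPolynomial.pderiv kl g := by
  classical
  have h : delt N F i j = ∑ kl : Fin N × Fin N,
      (((if kl.1 = j then MvPolynomial.X (i, kl.2) else 0) -
        (if kl.2 = i then MvPolynomial.X (kl.1, j) else 0) : MX N F)) •
        MvPolynomial.pderiv kl := by
    refine MvPolynomial.derivation_ext (fun ab => ?_)
    obtain ⟨a, b⟩ := ab
    rw [delt_X]
    rw [der_sum_apply, Finset.sum_eq_single (a, b)]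
    · rw [Derivation.smul_apply, MvPolynomial.pderiv_X_self, smul_eq_mul, mul_one]
    · intro kl _ hne
      rw [Derivation.smul_apply, MvPolynomial.pderiv_X_of_ne hne.symm, smul_zero]
    · intro hn
      exact absurd (Finset.mem_univ _) hn
  rw [h, der_sum_apply]
  rfl

theorem ward (s : Fin N → F) (hs2 : ∀ i j, s i + s j ≠ 0) (E : MX N F →ₗ[F] F)
    (hE : IsMat s E) (i j : Fin N) (g : MX N F) :
    E (delt N F i j g) = (s j - s i) * E ((XM N F ^ 2) i j * g) := by
  classical
  have hpd : ∀ (k l : Fin N) (h : MX N F), E (MvPolynomial.pderiv (k, l) h) =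
      (s k + s l) * E (MvPolynomial.X (l, k) * h) := by
    intro k l h
    rw [hE.step l k h, add_comm (s l) (s k), ← mul_assoc, mul_inv_cancel₀ (hs2 k l), one_mul]
  -- one entry
  have hone : ∀ k l : Fin N, E (((if k = j then MvPolynomial.X (i, l) else 0) -
        (if l = i then MvPolynomial.X (k, j) else 0)) * MvPolynomial.pderiv (k, l) g) =
      (s k + s l) * E (MvPolynomial.X (l, k) * (((if k = j then MvPolynomial.X (i, l) else 0) -
        (if l = i then MvPolynomial.X (k, j) else 0)) * g)) -
      E (((if k = j then (if i = j then 1 else 0) else 0) -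
        (if l = i then (if i = j then 1 else 0) else 0)) * g) := by
    intro k l
    have hd : MvPolynomial.pderiv (k, l) (((if k = j then MvPolynomial.X (i, l) else 0) -
        (if l = i then MvPolynomial.X (k, j) else 0) : MX N F)) =
        ((if k = j then (if i = j then 1 else 0) else 0) -
        (if l = i then (if i = j then 1 else 0) else 0) : MX N F) := by
      rw [map_sub]
      congr 1
      · by_cases h1 : k = j
        · rw [if_pos h1, if_pos h1]
          by_cases h2 : i = j
          · rw [if_pos h2, h1, h2, MvPolynomial.pderiv_X_self]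
          · rw [if_neg h2, MvPolynomial.pderiv_X_of_ne]
            intro h3
            exact h2 ((Prod.ext_iff.mp h3).1.trans h1)
        · rw [if_neg h1, if_neg h1, map_zero]
      · by_cases h1 : l = i
        · rw [if_pos h1, if_pos h1]
          by_cases h2 : i = j
          · rw [if_pos h2, h1, h2, MvPolynomial.pderiv_X_self]
          · rw [if_neg h2, MvPolynomial.pderiv_X_of_ne]
            intro h3
            exact h2 ((Prod.ext_iff.mp h3).2.trans h1).symm
        · rw [if_neg h1, if_neg h1, map_zero]
    rw [← hpd k l, ← map_sub, Derivation.leibniz, hd, smul_eq_mul, smul_eq_mul]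
    congr 1
    ring
  rw [delt_chain, map_sum, Fintype.sum_prod_type]
  simp only [hone]
  simp only [Finset.sum_sub_distrib]
  have hdiv : ∑ k : Fin N, ∑ l : Fin N, E ((((if k = j then (if i = j then 1 else 0) else 0) -
        (if l = i then (if i = j then 1 else 0) else 0)) * g : MX N F)) = 0 := by
    simp only [sub_mul, map_sub, Finset.sum_sub_distrib]
    rw [sub_eq_zero]
    by_cases h2 : i = j
    · subst h2
      rw [Finset.sum_comm]
    · simp [h2]
  rw [hdiv, sub_zero]
  have hX2 : (XM N F ^ 2) i j = ∑ l, (MvPolynomial.X (i, l) * MvPolynomial.X (l, j) : MX N F) := by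
    rw [pow_two, Matrix.mul_apply]
    rfl
  rw [hX2, Finset.sum_mul, map_sum, Finset.mul_sum]
  have hsplit : ∀ k l : Fin N, (s k + s l) * E (MvPolynomial.X (l, k) *
      (((if k = j then MvPolynomial.X (i, l) else 0) -
        (if l = i then MvPolynomial.X (k, j) else 0)) * g)) =
      (if k = j then (s k + s l) * E (MvPolynomial.X (i, l) * MvPolynomial.X (l, k) * g) else 0) -
      (if l = i then (s k + s l) * E (MvPolynomial.X (l, k) * MvPolynomial.X (k, j) * g) else 0) := by
    intro k l
    have h1 : (MvPolynomial.X (l, k) * (((if k = j then MvPolynomial.X (i, l) else 0) -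
        (if l = i then MvPolynomial.X (k, j) else 0)) * g) : MX N F) =
        (if k = j then MvPolynomial.X (i, l) * MvPolynomial.X (l, k) * g else 0) -
        (if l = i then MvPolynomial.X (l, k) * MvPolynomial.X (k, j) * g else 0) := by
      split_ifs <;> ring
    rw [h1, map_sub, mul_sub]
    congr 1
    · split_ifs
      · rfl
      · rw [map_zero, mul_zero]
    · split_ifs
      · rfl
      · rw [map_zero, mul_zero]
  simp only [hsplit, Finset.sum_sub_distrib]
  rw [Finset.sum_comm]
  simp only [Finset.sum_ite_eq', Finset.mem_univ, if_true]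
  rw [← Finset.sum_sub_distrib]
  refine Finset.sum_congr rfl (fun l _ => ?_)
  ring

theorem ward2 [Algebra ℝ F] (s : Fin N → F) (hs2 : ∀ i j, s i + s j ≠ 0) (E : MX N F →ₗ[F] F)
    (hE : IsMat s E) (i j : Fin N) (hij : i ≠ j) (hs : s i - s j ≠ 0) (m : ℕ)
    (f : MvPolynomial ℕ ℝ) :
    E ((XM N F ^ 2) i j * ((XM N F ^ m) j i * subT N F f)) =
      -(E ((XM N F ^ m) i i * subT N F f) - E ((XM N F ^ m) j j * subT N F f)) / (s i - s j) := by
  have h := ward s hs2 E hE i j ((XM N F ^ m) j i * subT N F f)
  rw [Derivation.leibniz, delt_subT, smul_zero, zero_add, smul_eq_mul, delt_pow, if_pos rfl,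
    if_pos rfl] at h
  have h2 : subT N F f * ((XM N F ^ m) i i - (XM N F ^ m) j j) =
      (XM N F ^ m) i i * subT N F f - (XM N F ^ m) j j * subT N F f := by ring
  rw [h2, map_sub] at h
  rw [eq_div_iff hs, h]
  ring

end Pool.Agent.Helper52.MVD
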