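import Pool.Agent.Helper52.MVD.DerE
import Pool.Agent.Helper52.MVD.Ward

/-!
Project MV, block D1, module D1-7: the recursion for `b_i^{(m)} = G ⟨(X^{2m})_ii f⟩`.

* `d_G`: `d_i G = G ∑_{j ≠ i} (1/(s_i - s_j) - 1/(s_i + s_j))` (logarithmic derivative of the product; the factor of a
  pair not containing `i` is constant for `d_i`; the factor `(s_k - s_l)/(s_k + s_l)`, `k < l`, contributes for
  `i = k`: `1/(s_i - s_l) - 1/(s_i + s_l)`, for `i = l`: `-1/(s_k - s_i) - 1/(s_k + s_i) =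
  1/(s_i - s_k) - 1/(s_i + s_k)`).
* `b_rec`: let `a_i^{(m)} = E ((X^{2m})_ii subT f)`. `(X^{2m+2})_ii = ∑_j (X²)_ij (X^{2m})_ji`; the term `j = i` is, by `d_E`
  and `exists_map`, `-d_i a_i^{(m)} + ∑_j (s_i + s_j)⁻¹ a_i^{(m)}` (`j = i` included: `(2 s_i)⁻¹`), the others are
  given by `ward2`. So `a_i^{(m+1)} = -d_i a_i^{(m)} + ∑_j (s_i+s_j)⁻¹ a_i^{(m)} - ∑_{j≠i} (a_i^{(m)} - a_j^{(m)})/(s_i - s_j)`.
  Multiply by `G` and use `G d_i a = d_i (G a) - (d_i G) a`, `d_G`: everything cancels except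
  `-d_i b + b/(2 s_i) + ∑_{j≠i} b_j/(s_i - s_j)`, and `DD i b = d_i b - b/(2 s_i)`.
-/

namespace Pool.Agent.Helper52.MVD

open Finset Pool.Agent.Helper60.MV

variable {F : Type} [Field F] [Algebra ℝ F] {N : ℕ}

private theorem rec_dprod (δ : Derivation ℝ F F) {α : Type} (t : Finset α) (x : α → F)
    (hx : ∀ a ∈ t, x a ≠ 0) : δ (∏ a ∈ t, x a) = (∏ a ∈ t, x a) * ∑ a ∈ t, δ (x a) / x a := by
  classical
  induction t using Finset.induction_on with
  | empty => simp
  | insert a t ha ih =>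
    rw [Finset.prod_insert ha, Finset.sum_insert ha, Derivation.leibniz,
      ih (fun b hb => hx b (Finset.mem_insert_of_mem hb)), smul_eq_mul, smul_eq_mul]
    have h := hx a (Finset.mem_insert_self a t)
    field_simp
    ring

private theorem rec_pair (D : DF F N) (i : Fin N) {k l : Fin N} (hkl : k ≠ l) :
    D.d i ((D.s k - D.s l) / (D.s k + D.s l)) / ((D.s k - D.s l) / (D.s k + D.s l)) =
      (if i = k then 1 / (D.s k - D.s l) - 1 / (D.s k + D.s l) else 0) +
      (if i = l then 1 / (D.s l - D.s k) - 1 / (D.s l + D.s k) else 0) := by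
  have h1 := D.sub_ne hkl
  have h1' := D.sub_ne hkl.symm
  have h2 := D.add_ne k l
  have h2' := D.add_ne l k
  rw [div_eq_mul_inv (D.s k - D.s l) (D.s k + D.s l), Derivation.leibniz, Derivation.leibniz_inv,
    map_add, map_sub, D.ds, D.ds, smul_eq_mul, smul_eq_mul, smul_eq_mul]
  have e1 : D.s l - D.s k = -(D.s k - D.s l) := by ring
  have e2 : D.s l + D.s k = D.s k + D.s l := by ring
  rw [e1, e2]
  generalize D.s k - D.s l = u at *
  generalize D.s k + D.s l = v at *
  by_cases hk : i = k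
  · by_cases hl : i = l
    · exact absurd (hk.symm.trans hl) hkl
    · simp only [hk, if_true, if_neg (show ¬ k = l from hkl)]
      field_simp
      ring
  · by_cases hl : i = l
    · simp only [if_neg hk, hl, if_true, if_neg (show ¬ l = k from hkl.symm)]
      field_simp
      ring
    · simp only [if_neg hk, if_neg hl]
      simp

theorem d_G (D : DF F N) (i : Fin N) : D.d i D.G =
    D.G * ∑ j ∈ univ.erase i, (1 / (D.s i - D.s j) - 1 / (D.s i + D.s j)) := by
  classical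
  have hx : ∀ k : Fin N, ∀ l ∈ Ioi k, (D.s k - D.s l) / (D.s k + D.s l) ≠ 0 := by
    intro k l hl
    exact div_ne_zero (D.sub_ne (ne_of_lt (mem_Ioi.mp hl))) (D.add_ne k l)
  unfold DF.G
  rw [rec_dprod (D.d i) univ _ (fun k _ => Finset.prod_ne_zero_iff.mpr (hx k))]
  congr 1
  have hk : ∀ k : Fin N, D.d i (∏ l ∈ Ioi k, (D.s k - D.s l) / (D.s k + D.s l)) /
      (∏ l ∈ Ioi k, (D.s k - D.s l) / (D.s k + D.s l)) =
      ∑ l ∈ Ioi k, ((if i = k then 1 / (D.s k - D.s l) - 1 / (D.s k + D.s l) else 0) +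
      (if i = l then 1 / (D.s l - D.s k) - 1 / (D.s l + D.s k) else 0)) := by
    intro k
    rw [rec_dprod (D.d i) _ _ (hx k), mul_div_cancel_left₀ _ (Finset.prod_ne_zero_iff.mpr (hx k))]
    exact Finset.sum_congr rfl (fun l hl => rec_pair D i (ne_of_lt (mem_Ioi.mp hl)))
  rw [Finset.sum_congr rfl (fun k _ => hk k)]
  simp only [Finset.sum_add_distrib]
  have hA : ∑ k : Fin N, ∑ l ∈ Ioi k, (if i = k then 1 / (D.s k - D.s l) - 1 / (D.s k + D.s l)
      else 0) = ∑ l ∈ Ioi i, (1 / (D.s i - D.s l) - 1 / (D.s i + D.s l)) := by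
    rw [Finset.sum_eq_single i]
    · simp
    · intro k _ hne
      refine Finset.sum_eq_zero (fun l _ => if_neg (Ne.symm hne))
    · simp
  have hB : ∑ k : Fin N, ∑ l ∈ Ioi k, (if i = l then 1 / (D.s l - D.s k) - 1 / (D.s l + D.s k)
      else 0) = ∑ k ∈ Iio i, (1 / (D.s i - D.s k) - 1 / (D.s i + D.s k)) := by
    have : ∀ k : Fin N, ∑ l ∈ Ioi k, (if i = l then 1 / (D.s l - D.s k) - 1 / (D.s l + D.s k)
      else 0) = if k < i then 1 / (D.s i - D.s k) - 1 / (D.s i + D.s k) else 0 := by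
      intro k
      rw [Finset.sum_ite_eq]
      simp only [mem_Ioi]
    rw [Finset.sum_congr rfl (fun k _ => this k), ← Finset.sum_filter]
    refine Finset.sum_congr ?_ (fun _ _ => rfl)
    ext k
    simp
  rw [hA, hB]
  have hU : (univ.erase i : Finset (Fin N)) = Ioi i ∪ Iio i := by
    ext k
    simp only [mem_erase, mem_univ, and_true, mem_union, mem_Ioi, mem_Iio]
    constructor
    · intro h
      rcases lt_or_gt_of_ne h with h | h
      · exact Or.inr h
      · exact Or.inl h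
    · rintro (h | h)
      · exact ne_of_gt h
      · exact ne_of_lt h
  rw [hU, Finset.sum_union]
  rw [Finset.disjoint_left]
  intro k h1 h2
  rw [mem_Ioi] at h1
  rw [mem_Iio] at h2
  exact lt_asymm h1 h2

theorem b_rec (D : DF F N) (E : MX N F →ₗ[F] F) (hE : IsMat D.s E) (f : MvPolynomial ℕ ℝ)
    (i : Fin N) (m : ℕ) :
    D.G * E ((XM N F ^ (2 * (m + 1))) i i * subT N F f) =
      -D.DD i (D.G * E ((XM N F ^ (2 * m)) i i * subT N F f)) +
        ∑ j ∈ univ.erase i, D.G * E ((XM N F ^ (2 * m)) j j * subT N F f) / (D.s i - D.s j) := by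
  classical
  obtain ⟨g, hg⟩ := exists_map (F := F) (N := N) (2 * m) i i f
  have hd := d_E D E hE i g
  rw [hg] at hd
  -- expansion of the square
  have hexp : E ((XM N F ^ (2 * (m + 1))) i i * subT N F f) =
      ∑ j, E ((XM N F ^ 2) i j * ((XM N F ^ (2 * m)) j i * subT N F f)) := by
    have h1 : (XM N F ^ (2 * (m + 1))) i i = ∑ j, (XM N F ^ 2) i j * (XM N F ^ (2 * m)) j i := by
      rw [show 2 * (m + 1) = 2 + 2 * m by ring, pow_add, Matrix.mul_apply]
    rw [h1, Finset.sum_mul, map_sum]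
    exact Finset.sum_congr rfl (fun j _ => by rw [mul_assoc])
  rw [hexp, ← Finset.add_sum_erase univ _ (Finset.mem_univ i)]
  have hw : ∀ j ∈ univ.erase i,
      E ((XM N F ^ 2) i j * ((XM N F ^ (2 * m)) j i * subT N F f)) =
      -(E ((XM N F ^ (2 * m)) i i * subT N F f) - E ((XM N F ^ (2 * m)) j j * subT N F f)) /
        (D.s i - D.s j) := by
    intro j hj
    have hij : i ≠ j := (Finset.mem_erase.mp hj).1.symm
    exact ward2 D.s D.add_ne E hE i j hij (D.sub_ne hij) (2 * m) f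
  rw [Finset.sum_congr rfl hw]
  set a : Fin N → F := fun j => E ((XM N F ^ (2 * m)) j j * subT N F f) with ha
  have hd' : E ((XM N F ^ 2) i i * ((XM N F ^ (2 * m)) i i * subT N F f)) =
      -D.d i (a i) + (∑ j, (D.s i + D.s j)⁻¹) * a i := by
    rw [ha]
    simp only
    rw [hd]
    ring
  rw [hd']
  have hDD : D.DD i (D.G * a i) = D.G * D.d i (a i) + a i * D.d i D.G -
      1 / (2 * D.s i) * (D.G * a i) := by
    unfold DF.DD mu
    rw [LinearMap.sub_apply, LinearMap.mulLeft_apply]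
    show D.d i (D.G * a i) - _ = _
    rw [Derivation.leibniz, smul_eq_mul, smul_eq_mul]
  show _ = -D.DD i (D.G * a i) + ∑ j ∈ univ.erase i, D.G * a j / (D.s i - D.s j)
  rw [hDD, d_G]
  rw [← Finset.add_sum_erase univ (fun j => (D.s i + D.s j)⁻¹) (Finset.mem_univ i)]
  have hs : ∑ j ∈ univ.erase i, -(a i - a j) / (D.s i - D.s j) =
      ∑ j ∈ univ.erase i, a j / (D.s i - D.s j) -
        a i * ∑ j ∈ univ.erase i, 1 / (D.s i - D.s j) := by
    rw [Finset.mul_sum, ← Finset.sum_sub_distrib]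
    exact Finset.sum_congr rfl (fun j _ => by ring)
  show D.G * (-D.d i (a i) + ((D.s i + D.s i)⁻¹ + ∑ j ∈ univ.erase i, (D.s i + D.s j)⁻¹) * a i +
    ∑ j ∈ univ.erase i, -(a i - a j) / (D.s i - D.s j)) = _
  rw [hs, Finset.sum_sub_distrib]
  have hG : ∑ j ∈ univ.erase i, D.G * a j / (D.s i - D.s j) =
      D.G * ∑ j ∈ univ.erase i, a j / (D.s i - D.s j) := by
    rw [Finset.mul_sum]
    exact Finset.sum_congr rfl (fun j _ => by ring)
  rw [hG]
  have h2 : (D.s i + D.s i)⁻¹ = 1 / (2 * D.s i) := by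
    rw [← two_mul, one_div]
  rw [h2]
  simp only [one_div]
  ring

end Pool.Agent.Helper52.MVD
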