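import Pool.Agent.Helper52.MVD.Star
import Pool.Agent.Helper52.MVD.Rec
import Pool.Agent.Helper52.MVD.Heart

/-!
Project MV, block D1, module D1-13: the matrix model satisfies `IsSol`.

`L f = G * E (subT f)` (an `ℝ`-linear map: `E` is `F`-linear, `subT` is `ℝ`-linear; `MX N F` is an `ℝ`-module through
`F`). `L 1 = G`. For every `f`, `heart` with `b i m = G * E ((X^(2m))_ii * subT f)`, `Ψ = L f` (`b_rec`, and
`b i 0 = Ψ` since `X^0 = 1`) gives `An (m+1) (L f) = - ∑ (1/s_i) b i m = - G * E (TT (2m) * subT f)`; and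
`An 0 = 1`. The sum in `IsSol.eq`: the term `j = ν` is `G * E (p_(2ν+1) * subT f)`, the terms `j < ν` are
`- G E (TT (2 (ν-j-1)) * subT (X j * f))`, the second sum is `- ∑_j ((2j+1)/2) • G E (TT (2 (ν+j)) * subT (∂_j f))`;
the total is `G` times the difference of the two sides of `starId`.
-/

namespace Pool.Agent.Helper52.MVD

open Finset Pool.Agent.Helper60.MV

private theorem sol_TT {F : Type} [Field F] {N : ℕ} (s : Fin N → F) (E : MX N F →ₗ[F] F)
    (m : ℕ) (g : MX N F) :
    E (TT s m * g) = ∑ i, 1 / s i * E ((XM N F ^ m) i i * g) := by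
  unfold TT
  rw [Finset.sum_mul, map_sum]
  refine Finset.sum_congr rfl fun i _ => ?_
  rw [mul_assoc, MvPolynomial.C_mul', map_smul, smul_eq_mul]

theorem isSol_E {F : Type} [Field F] [Algebra ℝ F] {N : ℕ} (D : DF F N) (E : MX N F →ₗ[F] F)
    (hE : IsMat D.s E) : ∃ L : MvPolynomial ℕ ℝ →ₗ[ℝ] F, D.IsSol L ∧
      ∀ f, L f = D.G * E (subT N F f) := by
  let L : MvPolynomial ℕ ℝ →ₗ[ℝ] F :=
    { toFun := fun f => D.G * E (subT N F f)
      map_add' := by
        intro f g
        rw [map_add, map_add, mul_add]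
      map_smul' := by
        intro c f
        rw [map_smul, LinearMap.map_smul_of_tower, mul_smul_comm, RingHom.id_apply] }
  have hL : ∀ f, L f = D.G * E (subT N F f) := fun f => rfl
  refine ⟨L, ?_, hL⟩
  have key : ∀ (m : ℕ) (f : MvPolynomial ℕ ℝ),
      D.An (m + 1) (L f) = -(D.G * E (TT D.s (2 * m) * subT N F f)) := by
    intro m f
    have h := D.heart (fun i m => D.G * E ((XM N F ^ (2 * m)) i i * subT N F f)) (L f)
      (by
        intro i
        simp [hL])
      (fun i m => b_rec D E hE f i m) m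
    rw [h, sol_TT, Finset.mul_sum]
    congr 1
    refine Finset.sum_congr rfl fun i _ => ?_
    ring
  constructor
  · rw [hL, map_one, hE.one, mul_one]
  · intro ν f
    have hst := starId D.s D.s_ne D.add_ne E hE ν f
    rw [Finset.sum_range_succ]
    have h1 : ∑ j ∈ range ν, D.An (ν - j) (L (MvPolynomial.X j * f)) =
        -(D.G * ∑ j ∈ range ν, E (TT D.s (2 * (ν - 1 - j)) * subT N F (MvPolynomial.X j * f))) := by
      rw [Finset.mul_sum, ← Finset.sum_neg_distrib]
      refine Finset.sum_congr rfl fun j hj => ?_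
      have hj' := Finset.mem_range.1 hj
      have h2 : ν - j = (ν - 1 - j) + 1 := by omega
      rw [h2, key]
    have h2 : ∑ j ∈ f.vars, ((2 * (j : ℝ) + 1) / 2) •
          D.An (ν + j + 1) (L (MvPolynomial.pderiv j f)) =
        -(D.G * ∑ j ∈ f.vars, ((2 * (j : ℝ) + 1) / 2) •
          E (TT D.s (2 * (ν + j)) * subT N F (MvPolynomial.pderiv j f))) := by
      rw [Finset.mul_sum, ← Finset.sum_neg_distrib]
      refine Finset.sum_congr rfl fun j _ => ?_
      rw [key, smul_neg, mul_smul_comm]
    have h3 : D.An (ν - ν) (L (MvPolynomial.X ν * f)) =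
        D.G * E (pt N F (2 * ν + 1) * subT N F f) := by
      rw [Nat.sub_self, D.An_zero, Module.End.one_apply, hL, map_mul]
      congr 3
      unfold subT
      rw [MvPolynomial.aeval_X]
    rw [h1, h2, h3, hst]
    ring

end Pool.Agent.Helper52.MVD
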