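import Pool.Agent.Helper52.MVD.WickP

/-!
Project MV, block D1, module D1-3: `⟨∏ Tr X^{K_i}⟩ = PKF`.

Proof. `(M^k) i i` summed over `i` is `∑_{lab : Fin k → Fin N} ∏_j M (lab j) (lab (finRotate k j))` for
`k ≥ 1` (e.g. from `(M^k) i j = ∑` over paths by induction on `k`). Hence
`∏_i Tr X^{K_i} = ∑_{lab : HK K → Fin N} ∏_h X (lab h, lab (rot K h))` (`Finset.prod_univ_sum`,
`Fintype.piFinset`, currying `HK K = Σ i, Fin (K i)`). Apply `E` (linear) and `wick_prod` with
`C (a,b) (c,d) = if d = a ∧ c = b then (s a + s b)⁻¹ else 0` (symmetric), `x h = (lab h, lab (rot h))`: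
for fixed `τ`, `∏_{e} C (x e.rep) (x (τ e.rep))` is zero unless for all `e`, with `h = e.rep`:
`lab (rot (τ h)) = lab h` and `lab (τ h) = lab (rot h)`, i.e. the condition
`lab ((rot K * τ) h') = lab h'` for `h' = h` and `h' = τ h`, hence for all `h'` (each `h'` is `e.rep` or
`τ e.rep` for `e = cyc τ h'`); and then it is `∏_e 1 / (s (lab h) + s (lab (τ h)))`. Exchange the sums
over `τ` and `lab`.
-/

namespace Pool.Agent.Helper52.MVD

open Finset Pool.Agent.Helper60.MV

/-- path expansion of the powers of a matrix -/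
private theorem pow_path {N : ℕ} {R : Type} [CommRing R] (M : Matrix (Fin N) (Fin N) R) (k : ℕ) :
    ∀ a b : Fin N, (M ^ (k + 1)) a b = ∑ p : Fin k → Fin N,
      ∏ j : Fin (k + 1), M (@Fin.cons k (fun _ => Fin N) a p j)
        (@Fin.snoc k (fun _ => Fin N) p b j) := by
  induction k with
  | zero =>
    intro a b
    simp [Fin.snoc]
  | succ k ih =>
    intro a b
    rw [pow_succ', Matrix.mul_apply, ← (Fin.consEquiv (fun _ => Fin N)).sum_comp,
      Fintype.sum_prod_type]
    refine Finset.sum_congr rfl fun c _ => ?_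
    rw [ih c b, Finset.mul_sum]
    refine Finset.sum_congr rfl fun p _ => ?_
    rw [Fin.prod_univ_succ (n := k + 1)]
    have h1 : @Fin.snoc (k + 1) (fun _ => Fin N) (@Fin.cons k (fun _ => Fin N) c p) b
        = @Fin.cons (k + 1) (fun _ => Fin N) c (@Fin.snoc k (fun _ => Fin N) p b) :=
      (Fin.cons_snoc_eq_snoc_cons c p b).symm
    have h2 : (Fin.consEquiv (fun _ => Fin N)) (c, p) = @Fin.cons k (fun _ => Fin N) c p := rfl
    rw [h2, h1]
    simp only [Fin.cons_zero, Fin.cons_succ]

/-- trace of a power -/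
private theorem trace_path {N : ℕ} {R : Type} [CommRing R] (M : Matrix (Fin N) (Fin N) R) (k : ℕ)
    (hk : 1 ≤ k) : ∑ i, (M ^ k) i i = ∑ lab : Fin k → Fin N,
      ∏ j : Fin k, M (lab j) (lab (finRotate k j)) := by
  obtain ⟨n, rfl⟩ : ∃ n, k = n + 1 := ⟨k - 1, by omega⟩
  rw [← (Fin.consEquiv (fun _ => Fin N)).sum_comp, Fintype.sum_prod_type]
  refine Finset.sum_congr rfl fun a _ => ?_
  rw [pow_path]
  refine Finset.sum_congr rfl fun p _ => ?_
  refine Finset.prod_congr rfl fun j _ => ?_
  rw [Fin.snoc_eq_cons_rotate]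
  rfl

/-- two elements of a cycle of a pairing -/
private theorem rep_or {H : Type} (τ : Equiv.Perm H) (hτ : IsPairing τ) (h : H) :
    h = (cyc τ h).rep ∨ h = τ (cyc τ h).rep := by
  have h1 : τ.SameCycle (cyc τ h).rep h := Quotient.mk_out (s := Equiv.Perm.SameCycle.setoid τ) h
  obtain ⟨i, hi⟩ := h1
  have h2 : τ ^ (2 : ℤ) = 1 := by
    ext x
    rw [zpow_ofNat, pow_two, Equiv.Perm.mul_apply, hτ.invol, Equiv.Perm.one_apply]
  rcases Int.even_or_odd' i with ⟨m, hm | hm⟩
  · left
    rw [hm, zpow_mul, h2, one_zpow, Equiv.Perm.one_apply] at hi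
    exact hi.symm
  · right
    rw [hm, zpow_add, zpow_mul, h2, one_zpow, one_mul, zpow_one] at hi
    exact hi.symm

theorem E_prod_pt {N : ℕ} {F : Type} [Field F] (s : Fin N → F) (E : MX N F →ₗ[F] F)
    (hE : IsMat s E) {ρ : Type} [Fintype ρ] (K : ρ → ℕ) (hK : ∀ i, 1 ≤ K i) :
    E (∏ i, pt N F (K i)) = PKF K N s := by
  classical
  -- the covariance
  let C : Fin N × Fin N → Fin N × Fin N → F := fun p q =>
    if q.2 = p.1 ∧ q.1 = p.2 then (s p.1 + s p.2)⁻¹ else 0
  have hCdef : ∀ p q, C p q = if q.2 = p.1 ∧ q.1 = p.2 then (s p.1 + s p.2)⁻¹ else 0 :=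
    fun p q => rfl
  have hC : ∀ a b, C a b = C b a := by
    rintro ⟨a, b⟩ ⟨c, d⟩
    rw [hCdef, hCdef]
    by_cases h : d = a ∧ c = b
    · obtain ⟨h1, h2⟩ := h
      subst h1 h2
      simp [add_comm]
    · rw [if_neg h, if_neg]
      rintro ⟨h1, h2⟩
      exact h ⟨h2.symm, h1.symm⟩
  have hEC : ∀ a g, E (MvPolynomial.X a * g) = ∑ b, C a b * E (MvPolynomial.pderiv b g) := by
    rintro ⟨i, j⟩ g
    rw [hE.step i j g, Finset.sum_eq_single (j, i)]
    · rw [hCdef, if_pos ⟨rfl, rfl⟩]
    · rintro ⟨c, d⟩ _ hne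
      rw [hCdef, if_neg, zero_mul]
      rintro ⟨h1, h2⟩
      apply hne
      simp only at h1 h2
      rw [h1, h2]
    · intro h
      exact absurd (Finset.mem_univ _) h
  -- expansion of the product of the traces
  have hprod : ∏ i, pt N F (K i) = ∑ lab : HK K → Fin N,
      ∏ h : HK K, (MvPolynomial.X (lab h, lab (rot K h)) : MX N F) := by
    have h1 : ∀ i, pt N F (K i) = ∑ lab : Fin (K i) → Fin N,
        ∏ j : Fin (K i), (MvPolynomial.X (lab j, lab (finRotate (K i) j)) : MX N F) := by
      intro i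
      unfold pt
      rw [trace_path _ _ (hK i)]
      rfl
    simp only [h1]
    rw [Finset.prod_univ_sum, Fintype.piFinset_univ]
    rw [← (Equiv.piCurry (fun (i : ρ) (_ : Fin (K i)) => Fin N)).sum_comp]
    refine Finset.sum_congr rfl fun lab _ => ?_
    rw [Fintype.prod_sigma]
    rfl
  rw [hprod, map_sum]
  -- Wick
  have hw : ∀ lab : HK K → Fin N,
      E (∏ h : HK K, (MvPolynomial.X (lab h, lab (rot K h)) : MX N F)) =
      ∑ τ : Equiv.Perm (HK K), if IsPairing τ then
        (if (∀ h, lab ((rot K * τ) h) = lab h) then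
          ∏ e : Cyc τ, 1 / (s (lab e.rep) + s (lab (τ e.rep))) else 0) else 0 := by
    intro lab
    rw [wick_prod C hC E hE.one hEC (fun h : HK K => (lab h, lab (rot K h)))]
    unfold wsum
    rw [Finset.sum_filter]
    refine Finset.sum_congr (by ext; simp) fun τ _ => ?_
    by_cases hτ : IsPairing τ
    · rw [if_pos hτ, if_pos hτ]
      by_cases hc : ∀ h, lab ((rot K * τ) h) = lab h
      · rw [if_pos hc]
        refine Finset.prod_congr rfl fun e _ => ?_
        have h1 : lab (rot K (τ e.rep)) = lab e.rep := hc e.rep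
        have h2 : lab (rot K e.rep) = lab (τ e.rep) := by
          have := hc (τ e.rep)
          rw [Equiv.Perm.mul_apply, hτ.invol] at this
          exact this
        change C (lab e.rep, lab (rot K e.rep)) (lab (τ e.rep), lab (rot K (τ e.rep))) = _
        rw [hCdef, if_pos ⟨h1, h2.symm⟩, one_div]
        simp only [h2]
      · rw [if_neg hc]
        push Not at hc
        obtain ⟨h', hh'⟩ := hc
        refine Finset.prod_eq_zero (Finset.mem_univ (cyc τ h')) ?_
        change C (lab (cyc τ h').rep, lab (rot K (cyc τ h').rep))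
          (lab (τ (cyc τ h').rep), lab (rot K (τ (cyc τ h').rep))) = 0
        rw [hCdef, if_neg]
        rintro ⟨h1, h2⟩
        simp only at h1 h2
        apply hh'
        rcases rep_or τ hτ h' with h3 | h3
        · rw [← h3] at h1
          exact h1
        · have h4 : τ h' = (cyc τ h').rep := by
            conv_lhs => rw [h3]
            rw [hτ.invol]
          rw [Equiv.Perm.mul_apply, h4, ← h2, ← h3]
    · rw [if_neg hτ, if_neg hτ]
  rw [Finset.sum_congr rfl (fun lab _ => hw lab), Finset.sum_comm]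
  unfold PKF
  rw [Finset.sum_filter]
  refine Finset.sum_congr (by ext; simp) fun τ _ => ?_
  by_cases hτ : IsPairing τ
  · simp only [if_pos hτ]
    rw [Finset.sum_filter]
  · simp only [if_neg hτ, Finset.sum_const_zero]

end Pool.Agent.Helper52.MVD
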