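import Pool.Agent.Helper52.MVD.Heart

/-!
Project MV, block D1, module D1-14: uniqueness.

Both are linear, so it is enough to compare on monomials `monomial m 1`, `m : ℕ →₀ ℕ`, by strong induction on the
weight `∑_j (2j+1) m_j`. `m = 0`: `L 1 = G = L' 1`. Otherwise choose `ν` in the support, `m = single ν 1 + m'`,
`f = monomial m' 1`, `monomial m 1 = X ν * f`. `IsSol.eq` for `ν` and `f`, with `An 0 = 1`, expresses `L (X ν * f)` by
`L (X j * f)`, `j < ν` (weight smaller by `2(ν-j)`), and `L (∂_j f)`, `∂_j f = m'_j monomial (m' - single j 1) 1` (for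
`m'_j ≠ 0`, weight smaller by `2ν+1 + 2j+1`; 0 otherwise).
-/

namespace Pool.Agent.Helper52.MVD

open Finset Pool.Agent.Helper60.MV

private noncomputable def uqw : (ℕ →₀ ℕ) →+ ℕ := Finsupp.weight (fun j : ℕ => 2 * j + 1)

private theorem uqw_single (j : ℕ) : uqw (Finsupp.single j 1) = 2 * j + 1 := by
  unfold uqw
  rw [Finsupp.weight_single, smul_eq_mul, one_mul]

private theorem uq_mono {F : Type} [Field F] [Algebra ℝ F] {N : ℕ} (D : DF F N)
    (L L' : MvPolynomial ℕ ℝ →ₗ[ℝ] F) (h : D.IsSol L) (h' : D.IsSol L') :
    ∀ (w : ℕ) (m : ℕ →₀ ℕ), uqw m = w →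
      L (MvPolynomial.monomial m 1) = L' (MvPolynomial.monomial m 1) := by
  intro w
  induction w using Nat.strong_induction_on with
  | _ w ih =>
    intro m hm
    by_cases h0 : m = 0
    · subst h0
      have e1 : (MvPolynomial.monomial (0 : ℕ →₀ ℕ) (1 : ℝ)) = 1 := rfl
      rw [e1, h.one, h'.one]
    · obtain ⟨ν, hν⟩ := Finsupp.ne_iff.mp h0
      have hle : Finsupp.single ν 1 ≤ m := by
        rw [Finsupp.single_le_iff]
        have : m ν ≠ 0 := hν
        omega
      set m' : ℕ →₀ ℕ := m - Finsupp.single ν 1 with hm'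
      have hmm : Finsupp.single ν 1 + m' = m := add_tsub_cancel_of_le hle
      have hw : 2 * ν + 1 + uqw m' = w := by
        rw [← hm, ← hmm, map_add, uqw_single]
      have hX : ∀ j, (MvPolynomial.X j : MvPolynomial ℕ ℝ) * MvPolynomial.monomial m' 1 =
          MvPolynomial.monomial (Finsupp.single j 1 + m') 1 := by
        intro j
        rw [MvPolynomial.X, MvPolynomial.monomial_mul, one_mul]
      have e1 := h.eq ν (MvPolynomial.monomial m' 1)
      have e2 := h'.eq ν (MvPolynomial.monomial m' 1)
      have hB : ∑ j ∈ (MvPolynomial.monomial m' (1 : ℝ)).vars, ((2 * (j : ℝ) + 1) / 2) •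
            D.An (ν + j + 1) (L (MvPolynomial.pderiv j (MvPolynomial.monomial m' 1))) =
          ∑ j ∈ (MvPolynomial.monomial m' (1 : ℝ)).vars, ((2 * (j : ℝ) + 1) / 2) •
            D.An (ν + j + 1) (L' (MvPolynomial.pderiv j (MvPolynomial.monomial m' 1))) := by
        apply Finset.sum_congr rfl
        intro j _
        have hk : L (MvPolynomial.pderiv j (MvPolynomial.monomial m' 1)) =
            L' (MvPolynomial.pderiv j (MvPolynomial.monomial m' 1)) := by
          rw [MvPolynomial.pderiv_monomial, one_mul]
          have e3 : MvPolynomial.monomial (m' - Finsupp.single j 1) ((m' j : ℕ) : ℝ) =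
              ((m' j : ℕ) : ℝ) • MvPolynomial.monomial (m' - Finsupp.single j 1) (1 : ℝ) := by
            rw [MvPolynomial.smul_monomial, smul_eq_mul, mul_one]
          rw [e3, map_smul, map_smul]
          by_cases hj : m' j = 0
          · rw [hj, Nat.cast_zero, zero_smul, zero_smul]
          · have hle2 : Finsupp.single j 1 ≤ m' := by
              rw [Finsupp.single_le_iff]
              omega
            have hmm2 : Finsupp.single j 1 + (m' - Finsupp.single j 1) = m' :=
              add_tsub_cancel_of_le hle2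
            have hw2 : 2 * j + 1 + uqw (m' - Finsupp.single j 1) = uqw m' := by
              conv_rhs => rw [← hmm2]
              rw [map_add, uqw_single]
            rw [ih (uqw (m' - Finsupp.single j 1)) (by omega) _ rfl]
        rw [hk]
      have hA : ∑ j ∈ range (ν + 1), D.An (ν - j) (L (MvPolynomial.X j * MvPolynomial.monomial m' 1)) =
          ∑ j ∈ range (ν + 1), D.An (ν - j) (L' (MvPolynomial.X j * MvPolynomial.monomial m' 1)) := by
        rw [hB] at e1
        exact add_right_cancel (e1.trans e2.symm)
      rw [Finset.sum_range_succ, Finset.sum_range_succ] at hA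
      have hC : ∑ j ∈ range ν, D.An (ν - j) (L (MvPolynomial.X j * MvPolynomial.monomial m' 1)) =
          ∑ j ∈ range ν, D.An (ν - j) (L' (MvPolynomial.X j * MvPolynomial.monomial m' 1)) := by
        apply Finset.sum_congr rfl
        intro j hj
        rw [Finset.mem_range] at hj
        rw [hX j]
        have hw3 : uqw (Finsupp.single j 1 + m') = 2 * j + 1 + uqw m' := by
          rw [map_add, uqw_single]
        rw [ih (uqw (Finsupp.single j 1 + m')) (by omega) _ rfl]
      rw [hC] at hA
      have hD := add_left_cancel hA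
      rw [Nat.sub_self, D.An_zero, hX ν, hmm] at hD
      exact hD

theorem isSol_unique {F : Type} [Field F] [Algebra ℝ F] {N : ℕ} (D : DF F N)
    (L L' : MvPolynomial ℕ ℝ →ₗ[ℝ] F) (h : D.IsSol L) (h' : D.IsSol L') : L = L' := by
  apply MvPolynomial.linearMap_ext
  intro m
  apply LinearMap.ext_ring
  exact uq_mono D L L' h h' _ m rfl

end Pool.Agent.Helper52.MVD
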