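import Pool.Agent.Helper52.MVD.Gauss
import Pool.Agent.Helper52.MVD.TrProd
import Pool.Agent.Helper52.MVD.Sol
import Pool.Agent.Helper52.MVD.Uniq

/-!
Project MV, block D1: assembly.
-/

namespace Pool.Agent.Helper52.MVD

open Finset Pool.Agent.Helper60.MV

/-- BLOCK D1: the condition `IsSol` determines `L`, and the values are those of the matrix
model. -/
theorem D1main {F : Type} [Field F] [Algebra ℝ F] {N : ℕ} (D : DF F N)
    (L : MvPolynomial ℕ ℝ →ₗ[ℝ] F) (hL : D.IsSol L) {ρ : Type}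
    [Fintype ρ] (K : ρ → ℕ) (hK : ∀ i, Odd (K i)) : L (bos K) = D.G * PKF K N D.s := by
  have hc : CharZero F := D.charZero
  obtain ⟨E, hE⟩ := exists_mat D.s
  obtain ⟨L', hL', hL'E⟩ := isSol_E D E hE
  rw [isSol_unique D L L' hL hL', hL'E, ← E_prod_pt D.s E hE K (fun i => (hK i).pos)]
  congr 2
  unfold bos subT
  rw [map_prod]
  refine Finset.prod_congr rfl fun i _ => ?_
  rw [MvPolynomial.aeval_X]
  congr 1
  obtain ⟨k, hk⟩ := hK i
  omega

end Pool.Agent.Helper52.MVD
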