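import Mathlib

/-!
Project MV, block D1, module D1-8: partial fractions.

* `pf1`, by induction on `B` (nonempty): with `u_j = 1/(x_j - z)`, `c_j = ∏_{k ∈ B \ j} 1/(x_k - x_j)`, for `b ∉ B`:
  `u_b u_j = (u_j - u_b)/(x_b - x_j)`, so `u_b ∏_B u = ∑_{j∈B} c_j u_b u_j = ∑_j c_j/(x_b - x_j) u_j - u_b ∑_j c_j/(x_b - x_j)`,
  and `- ∑_j c_j/(x_b - x_j) = ∑_j c_j/(x_j - x_b) = ∏_{j∈B} 1/(x_j - x_b)` is `pf1` for `B` at `z = x_b`. (For `B` empty
  the insertion of `b` is the trivial case of a singleton.)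
* `pf2`, by induction on `B` as well (`P_B`, `L_B`, `S_B` for the product, the sum and the right side; `B` empty: 0 = 0):
  `P_{Bb} L_{Bb} = u_b P_B L_B + u_b² P_B = u_b S_B + u_b² P_B`; with `d_j = 1/(x_b - x_j)`, `u_b u_j = d_j (u_j - u_b)`:
  `u_b S_B = ∑ c_j d_j u_j² - ∑ c_j d_j² (u_j - u_b)`, `u_b² P_B = ∑ c_j d_j² (u_j - u_b) - u_b² ∑ c_j d_j` (`pf1`),
  total `∑ c_j d_j u_j² + u_b² (- ∑ c_j d_j)`, which is `S_{Bb}` by `pf1` at `x_b` (for `B` nonempty).
-/

namespace Pool.Agent.Helper52.MVD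

open Finset

private theorem erase_prod {ι F : Type} [DecidableEq ι] [Field F] (x : ι → F) (B : Finset ι)
    (b : ι) (hb : b ∉ B) (j : ι) (hj : j ∈ B) :
    ∏ k ∈ (insert b B).erase j, 1 / (x k - x j) =
      1 / (x b - x j) * ∏ k ∈ B.erase j, 1 / (x k - x j) := by
  have hne : b ≠ j := fun h => hb (h ▸ hj)
  have h1 : (insert b B).erase j = insert b (B.erase j) := Finset.erase_insert_of_ne hne
  rw [h1, Finset.prod_insert (fun h => hb (Finset.mem_of_mem_erase h))]

theorem pf1 {ι F : Type} [DecidableEq ι] [Field F] (x : ι → F) (B : Finset ι) (hB : B.Nonempty)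
    (hx : ∀ i ∈ B, ∀ j ∈ B, i ≠ j → x i - x j ≠ 0) (z : F) (hz : ∀ i ∈ B, x i - z ≠ 0) :
    ∏ j ∈ B, 1 / (x j - z) = ∑ j ∈ B, 1 / (x j - z) * ∏ k ∈ B.erase j, 1 / (x k - x j) := by
  induction B using Finset.induction_on generalizing z with
  | empty => exact absurd hB Finset.not_nonempty_empty
  | insert b B hb ih =>
    rcases B.eq_empty_or_nonempty with rfl | hBn
    · simp
    · have hx' : ∀ i ∈ B, ∀ j ∈ B, i ≠ j → x i - x j ≠ 0 := fun i hi j hj =>
        hx i (Finset.mem_insert_of_mem hi) j (Finset.mem_insert_of_mem hj)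
      have hz' : ∀ i ∈ B, x i - z ≠ 0 := fun i hi => hz i (Finset.mem_insert_of_mem hi)
      have hbz : x b - z ≠ 0 := hz b (Finset.mem_insert_self _ _)
      have hxb : ∀ i ∈ B, x i - x b ≠ 0 := fun i hi =>
        hx i (Finset.mem_insert_of_mem hi) b (Finset.mem_insert_self _ _)
          (fun h => hb (h ▸ hi))
      have h1 := ih hBn hx' z hz'
      have h2 := ih hBn hx' (x b) hxb
      rw [Finset.prod_insert hb, Finset.sum_insert hb, Finset.erase_insert hb, h1, h2,
        Finset.mul_sum, Finset.mul_sum, ← Finset.sum_add_distrib]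
      refine Finset.sum_congr rfl fun j hj => ?_
      rw [erase_prod x B b hb j hj]
      have h3 : x j - z ≠ 0 := hz' j hj
      have h4 : x j - x b ≠ 0 := hxb j hj
      have h5 : x b - x j ≠ 0 := by
        intro h
        apply h4
        rw [← neg_sub, h, neg_zero]
      have h6 : 1 / (x b - z) * (1 / (x j - z)) =
          1 / (x b - z) * (1 / (x j - x b)) + 1 / (x j - z) * (1 / (x b - x j)) := by
        rw [← neg_sub (x b) (x j)]
        field_simp
        ring
      rw [← mul_assoc, ← mul_assoc, ← mul_assoc, h6]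
      ring

theorem pf2 {ι F : Type} [DecidableEq ι] [Field F] (x : ι → F) (B : Finset ι)
    (hx : ∀ i ∈ B, ∀ j ∈ B, i ≠ j → x i - x j ≠ 0) (z : F) (hz : ∀ i ∈ B, x i - z ≠ 0) :
    (∏ j ∈ B, 1 / (x j - z)) * ∑ j ∈ B, 1 / (x j - z) =
      ∑ j ∈ B, (1 / (x j - z)) ^ 2 * ∏ k ∈ B.erase j, 1 / (x k - x j) := by
  induction B using Finset.induction_on with
  | empty => simp
  | insert b B hb ih =>
    rcases B.eq_empty_or_nonempty with rfl | hBn
    · simp [sq]
    · have hx' : ∀ i ∈ B, ∀ j ∈ B, i ≠ j → x i - x j ≠ 0 := fun i hi j hj =>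
        hx i (Finset.mem_insert_of_mem hi) j (Finset.mem_insert_of_mem hj)
      have hz' : ∀ i ∈ B, x i - z ≠ 0 := fun i hi => hz i (Finset.mem_insert_of_mem hi)
      have hbz : x b - z ≠ 0 := hz b (Finset.mem_insert_self _ _)
      have hxb : ∀ i ∈ B, x i - x b ≠ 0 := fun i hi =>
        hx i (Finset.mem_insert_of_mem hi) b (Finset.mem_insert_self _ _)
          (fun h => hb (h ▸ hi))
      have h1 := ih hx' hz'
      have h2 := pf1 x B hBn hx' z hz'
      have h3 := pf1 x B hBn hx' (x b) hxb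
      rw [Finset.prod_insert hb, Finset.sum_insert hb, Finset.sum_insert hb,
        Finset.erase_insert hb, h3]
      have h4 : (1 / (x b - z) * ∏ j ∈ B, 1 / (x j - z)) *
          (1 / (x b - z) + ∑ j ∈ B, 1 / (x j - z)) =
          (1 / (x b - z)) ^ 2 * (∏ j ∈ B, 1 / (x j - z)) +
            1 / (x b - z) * ((∏ j ∈ B, 1 / (x j - z)) * ∑ j ∈ B, 1 / (x j - z)) := by ring
      rw [h4, h1, h2, Finset.mul_sum, Finset.mul_sum, Finset.mul_sum, ← Finset.sum_add_distrib,
        ← Finset.sum_add_distrib]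
      refine Finset.sum_congr rfl fun j hj => ?_
      rw [erase_prod x B b hb j hj]
      have h5 : x j - z ≠ 0 := hz' j hj
      have h6 : x j - x b ≠ 0 := hxb j hj
      have h7 : x b - x j ≠ 0 := by
        intro h
        apply h6
        rw [← neg_sub, h, neg_zero]
      have h8 : (1 / (x b - z)) ^ 2 * (1 / (x j - z)) + 1 / (x b - z) * (1 / (x j - z)) ^ 2 =
          (1 / (x b - z)) ^ 2 * (1 / (x j - x b)) + (1 / (x j - z)) ^ 2 * (1 / (x b - x j)) := by
        rw [← neg_sub (x b) (x j)]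
        field_simp
        ring
      calc (1 / (x b - z)) ^ 2 * (1 / (x j - z) * ∏ k ∈ B.erase j, 1 / (x k - x j)) +
            1 / (x b - z) * ((1 / (x j - z)) ^ 2 * ∏ k ∈ B.erase j, 1 / (x k - x j))
          = ((1 / (x b - z)) ^ 2 * (1 / (x j - z)) + 1 / (x b - z) * (1 / (x j - z)) ^ 2) *
            ∏ k ∈ B.erase j, 1 / (x k - x j) := by ring
        _ = _ := by rw [h8]; ring

end Pool.Agent.Helper52.MVD
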