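import Pool.Agent.Helper52.MVD.MDefs

/-!
Project MV, block D1, module D1-4: derivatives of powers of the generic matrix and the
Schwinger-Dyson identity (star).

`X = XM N F`, `p_k = pt N F k = Tr X^k`, `T_m = TT s m = ∑ s_i⁻¹ (X^m)_ii`, `∂_ab = pderiv (a, b)`.
* `pderiv_pow`: `∂_ab (X^m)_cd = ∑_{r<m} (X^r)_ca (X^(m-1-r))_bd` (induction on `m`, Leibniz).
* `pderiv_pt`: `∂_ab p_k = k (X^(k-1))_ba` (from `pderiv_pow`, sum over `c = d`,
  `∑_c (X^(k-1-r))_bc (X^r)_ca = (X^(k-1))_ba`).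
* `starId`: let `n = 2 ν`, `g : MX N F`, `A = ∑_{j=0}^n (-1)^j X^j Λ⁻¹ X^(n-j)`, `Λ = diag (C (s i))`.
  From `hE.step`: `(s i + s j) E (X_ij h) = E (∂_ji h)`, so
  `E (∑_ij (s i + s j) X_ij A_ji g) = E (∑_ij ∂_ji (A_ji g)) = E ((∑_ij ∂_ji A_ji) g) + E (∑_ij A_ji ∂_ji g)`.
  Left: `∑_ij (s i + s j) X_ij A_ji = Tr ((Λ X + X Λ) A) = ∑_j (-1)^j [Tr (Λ X^(j+1) Λ⁻¹ X^(n-j)) +
  Tr (Λ X^j Λ⁻¹ X^(n-j+1))] = 2 p_(n+1)` (telescoping: only `j = 0` of the second and `j = n` of the
  first kind survive, cyclicity of the trace, `n` even).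
  Right: `∑_ab ∂_ab (X^j Λ⁻¹ X^(n-j))_ab = ∑_{r<j} p_r T_(n-1-r) + ∑_{r<n-j} p_r T_(n-1-r)`
  (`Tr (X^a Λ⁻¹ X^b) = T_(a+b)`), and the sum over `j` with signs `(-1)^j` is
  `2 ∑_{r odd, r ≤ n-1} p_r T_(n-1-r)` (`∑_{j=r+1}^n (-1)^j = ∑_{j=0}^{n-1-r} (-1)^j = [r odd]`).
  For `g = subT f`: `∂_ab (subT f) = ∑_{j ∈ f.vars} subT (∂_j f) (2j+1) (X^(2j))_ba` (chain rule, `pderiv_pt`), and
  `∑_ab A_ab (X^(2j))_ba = Tr (A X^(2j)) = T_(n+2j)` (`∑_{j=0}^n (-1)^j = 1`, cyclicity).
  Divide by 2.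
-/

namespace Pool.Agent.Helper52.MVD

open Finset Pool.Agent.Helper60.MV

variable {N : ℕ} {F : Type} [Field F]

theorem pderiv_pow (a b c d : Fin N) (m : ℕ) :
    MvPolynomial.pderiv (a, b) ((XM N F ^ m) c d) =
      ∑ r ∈ range m, (XM N F ^ r) c a * (XM N F ^ (m - 1 - r)) b d := by
  induction m generalizing d with
  | zero =>
    simp only [pow_zero, range_zero, sum_empty, Matrix.one_apply]
    split_ifs <;> simp
  | succ m ih =>
    rw [pow_succ, Matrix.mul_apply, map_sum, sum_range_succ]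
    have h1 : ∀ e : Fin N, MvPolynomial.pderiv (a, b) ((XM N F ^ m) c e * XM N F e d) =
        (∑ r ∈ range m, (XM N F ^ r) c a * ((XM N F ^ (m - 1 - r)) b e * XM N F e d)) +
          (XM N F ^ m) c e * (if e = a ∧ d = b then 1 else 0) := by
      intro e
      rw [MvPolynomial.pderiv_mul, ih, sum_mul]
      congr 1
      · refine sum_congr rfl fun r _ => by ring
      · congr 1
        rw [XM, MvPolynomial.pderiv_X, Pi.single_apply]
        simp only [Prod.mk.injEq]
    rw [sum_congr rfl fun e _ => h1 e, sum_add_distrib, sum_comm]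
    congr 1
    · refine sum_congr rfl fun r hr => ?_
      have hr' : r < m := mem_range.mp hr
      have e1 : m + 1 - 1 - r = m - 1 - r + 1 := by omega
      rw [← mul_sum, ← Matrix.mul_apply, ← pow_succ, e1]
    · rw [show m + 1 - 1 - m = 0 by omega, pow_zero, Matrix.one_apply]
      rw [sum_eq_single a]
      · by_cases h : d = b
        · simp [h]
        · simp [h, Ne.symm h]
      · intro e _ he
        simp [he]
      · intro h; exact absurd (mem_univ _) h

theorem pderiv_pt (a b : Fin N) (k : ℕ) :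
    MvPolynomial.pderiv (a, b) (pt N F k) = (k : MX N F) * (XM N F ^ (k - 1)) b a := by
  rw [pt, map_sum, sum_congr rfl fun i _ => pderiv_pow a b i i k, sum_comm]
  have h : ∀ r ∈ range k, ∑ i, (XM N F ^ r) i a * (XM N F ^ (k - 1 - r)) b i =
      (XM N F ^ (k - 1)) b a := by
    intro r hr
    have hr' : r < k := mem_range.mp hr
    have e1 : k - 1 - r + r = k - 1 := by omega
    have : (XM N F ^ (k - 1)) b a = (XM N F ^ (k - 1 - r) * XM N F ^ r) b a := by
      rw [← pow_add, e1]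
    rw [this, Matrix.mul_apply]
    exact sum_congr rfl fun i _ => mul_comm _ _
  rw [sum_congr rfl h, sum_const, card_range, nsmul_eq_mul]

/-! ## Auxiliary -/

private noncomputable def Li {N : ℕ} {F : Type} [Field F] (s : Fin N → F) :
    Matrix (Fin N) (Fin N) (MX N F) :=
  Matrix.diagonal fun i => MvPolynomial.C (1 / s i)

private noncomputable def La {N : ℕ} {F : Type} [Field F] (s : Fin N → F) :
    Matrix (Fin N) (Fin N) (MX N F) :=
  Matrix.diagonal fun i => MvPolynomial.C (s i)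

private noncomputable def AMt {N : ℕ} {F : Type} [Field F] (s : Fin N → F) (n : ℕ) :
    Matrix (Fin N) (Fin N) (MX N F) :=
  ∑ j ∈ range (n + 1), (-1 : MX N F) ^ j • (XM N F ^ j * Li s * XM N F ^ (n - j))

private noncomputable def cT {N : ℕ} {F : Type} [Field F] (s : Fin N → F) (n j : ℕ) : MX N F :=
  Matrix.trace (La s * XM N F ^ j * Li s * XM N F ^ (n + 1 - j))

private theorem tr_pow_Li (s : Fin N → F) (a b : ℕ) :
    Matrix.trace (XM N F ^ a * Li s * XM N F ^ b) = TT s (a + b) := by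
  rw [Matrix.trace_mul_comm, ← mul_assoc, ← pow_add, add_comm b a, Matrix.trace, TT]
  refine sum_congr rfl fun i _ => ?_
  rw [Matrix.diag_apply, Li, Matrix.mul_diagonal, mul_comm]

private theorem La_Li (s : Fin N → F) (hs : ∀ i, s i ≠ 0) : La s * Li s = 1 := by
  rw [La, Li, Matrix.diagonal_mul_diagonal]
  ext i j
  rw [Matrix.diagonal_apply, Matrix.one_apply]
  split_ifs
  · rw [← MvPolynomial.C_mul, mul_one_div_cancel (hs i), MvPolynomial.C_1]
  · rfl

private theorem Li_La (s : Fin N → F) (hs : ∀ i, s i ≠ 0) : Li s * La s = 1 := by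
  rw [La, Li, Matrix.diagonal_mul_diagonal]
  ext i j
  rw [Matrix.diagonal_apply, Matrix.one_apply]
  split_ifs
  · rw [← MvPolynomial.C_mul, one_div_mul_cancel (hs i), MvPolynomial.C_1]
  · rfl

private theorem alt_telescope {R : Type} [CommRing R] (c : ℕ → R) (n : ℕ) :
    ∑ j ∈ range (n + 1), (-1 : R) ^ j * (c (j + 1) + c j) = c 0 + (-1) ^ n * c (n + 1) := by
  induction n with
  | zero => simp; ring
  | succ n ih => rw [sum_range_succ, ih]; ring

private theorem alt_one {R : Type} [CommRing R] (ν : ℕ) :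
    ∑ j ∈ range (2 * ν + 1), (-1 : R) ^ j = 1 := by
  induction ν with
  | zero => simp
  | succ n ih =>
    rw [show 2 * (n + 1) + 1 = 2 * n + 1 + 1 + 1 by ring, sum_range_succ, sum_range_succ, ih]
    ring

private theorem altSumA {R : Type} [CommRing R] (u : ℕ → R) (ν : ℕ) :
    ∑ j ∈ range (2 * ν + 1), (-1 : R) ^ j * ∑ r ∈ range j, u r =
      ∑ k ∈ range ν, u (2 * k + 1) := by
  induction ν with
  | zero => simp
  | succ n ih =>
    rw [show 2 * (n + 1) + 1 = 2 * n + 1 + 1 + 1 by ring, sum_range_succ, sum_range_succ, ih,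
      sum_range_succ (f := fun k => u (2 * k + 1)), sum_range_succ (f := u) (n := 2 * n + 1)]
    have h1 : (-1 : R) ^ (2 * n + 1) = -1 := by rw [pow_succ, pow_mul]; simp
    have h2 : (-1 : R) ^ (2 * n + 1 + 1) = 1 := by rw [pow_succ, h1]; ring
    rw [h1, h2]
    ring

private theorem altSumA' {R : Type} [CommRing R] (u : ℕ → R) (ν : ℕ) :
    ∑ j ∈ range (2 * ν + 1), (-1 : R) ^ j * ∑ r ∈ range (2 * ν - j), u r =
      ∑ k ∈ range ν, u (2 * k + 1) := by
  rw [← altSumA u ν, ← sum_range_reflect]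
  refine sum_congr rfl fun j hj => ?_
  have hj' : j < 2 * ν + 1 := mem_range.mp hj
  have e1 : 2 * ν + 1 - 1 - j = 2 * ν - j := by omega
  have e2 : 2 * ν - (2 * ν - j) = j := by omega
  rw [e1, e2]
  congr 1
  have : (-1 : R) ^ (2 * ν - j) * (-1) ^ j = (-1) ^ j * (-1) ^ j := by
    rw [← pow_add, ← pow_add, Nat.sub_add_cancel (by omega), pow_mul, ← two_mul, pow_mul]
    simp
  have h2 : ((-1 : R) ^ j) * (-1) ^ j = 1 := by rw [← pow_add, ← two_mul, pow_mul]; simp
  calc (-1 : R) ^ (2 * ν - j) = (-1 : R) ^ (2 * ν - j) * ((-1) ^ j * (-1) ^ j) := by rw [h2, mul_one]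
    _ = ((-1 : R) ^ (2 * ν - j) * (-1) ^ j) * (-1) ^ j := by ring
    _ = ((-1) ^ j * (-1) ^ j) * (-1) ^ j := by rw [this]
    _ = (-1) ^ j := by rw [h2, one_mul]

private theorem left_side (s : Fin N → F) (hs : ∀ i, s i ≠ 0) (ν : ℕ) :
    ∑ i, ∑ j, MvPolynomial.C (s i + s j) * (XM N F i j * AMt s (2 * ν) j i) =
      2 * pt N F (2 * ν + 1) := by
  have h0 : ∑ i, ∑ j, MvPolynomial.C (s i + s j) * (XM N F i j * AMt s (2 * ν) j i) =
      Matrix.trace ((La s * XM N F + XM N F * La s) * AMt s (2 * ν)) := by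
    rw [Matrix.trace]
    refine sum_congr rfl fun i _ => ?_
    rw [Matrix.diag_apply, Matrix.mul_apply]
    refine sum_congr rfl fun j _ => ?_
    rw [Matrix.add_apply, La, Matrix.diagonal_mul, Matrix.mul_diagonal, MvPolynomial.C_add]
    ring
  have h1 : Matrix.trace ((La s * XM N F + XM N F * La s) * AMt s (2 * ν)) =
      ∑ j ∈ range (2 * ν + 1), (-1 : MX N F) ^ j * (cT s (2 * ν) (j + 1) + cT s (2 * ν) j) := by
    rw [AMt, Matrix.mul_sum, Matrix.trace_sum]
    refine sum_congr rfl fun j hj => ?_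
    have hj' : j < 2 * ν + 1 := mem_range.mp hj
    rw [Matrix.mul_smul, Matrix.trace_smul, smul_eq_mul, add_mul, Matrix.trace_add]
    have e0 : 2 * ν + 1 - (j + 1) = 2 * ν - j := by omega
    have e1 : 2 * ν + 1 - j = 2 * ν - j + 1 := by omega
    have m1 : La s * XM N F * (XM N F ^ j * Li s * XM N F ^ (2 * ν - j)) =
        La s * XM N F ^ (j + 1) * Li s * XM N F ^ (2 * ν + 1 - (j + 1)) := by
      rw [e0, pow_succ']
      simp only [mul_assoc]
    have m2 : XM N F * La s * (XM N F ^ j * Li s * XM N F ^ (2 * ν - j)) =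
        XM N F * (La s * XM N F ^ j * Li s * XM N F ^ (2 * ν - j)) := by
      simp only [mul_assoc]
    have m3 : La s * XM N F ^ j * Li s * XM N F ^ (2 * ν - j) * XM N F =
        La s * XM N F ^ j * Li s * XM N F ^ (2 * ν + 1 - j) := by
      rw [e1, pow_succ]
      simp only [mul_assoc]
    rw [m1, m2, Matrix.trace_mul_comm (XM N F), m3, cT, cT]
  have hc0 : cT s (2 * ν) 0 = pt N F (2 * ν + 1) := by
    rw [cT, pow_zero, mul_one, Nat.sub_zero, La_Li s hs, one_mul, Matrix.trace, pt]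
    rfl
  have hc1 : cT s (2 * ν) (2 * ν + 1) = pt N F (2 * ν + 1) := by
    rw [cT, Nat.sub_self, pow_zero, mul_one, Matrix.trace_mul_comm, ← mul_assoc, Li_La s hs,
      one_mul, Matrix.trace, pt]
    rfl
  rw [h0, h1, alt_telescope, hc0, hc1, pow_mul]
  simp only [even_two, Even.neg_pow, one_pow, one_mul]
  ring

private theorem div_one (s : Fin N → F) (j l : ℕ) :
    ∑ a, ∑ b, MvPolynomial.pderiv (a, b) ((XM N F ^ j * Li s * XM N F ^ l) a b) =
      ∑ r ∈ range j, pt N F r * TT s (j + l - 1 - r) +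
        ∑ r ∈ range l, pt N F r * TT s (j + l - 1 - r) := by
  have h1 : ∀ a b : Fin N, MvPolynomial.pderiv (a, b) ((XM N F ^ j * Li s * XM N F ^ l) a b) =
      (∑ r ∈ range j, (XM N F ^ r) a a *
        ∑ e, (XM N F ^ (j - 1 - r) * Li s) b e * (XM N F ^ l) e b) +
      ∑ r ∈ range l, (∑ e, (XM N F ^ j * Li s) a e * (XM N F ^ r) e a) *
        (XM N F ^ (l - 1 - r)) b b := by
    intro a b
    rw [Matrix.mul_apply, map_sum]
    have h2 : ∀ e, MvPolynomial.pderiv (a, b) ((XM N F ^ j * Li s) a e * (XM N F ^ l) e b) =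
        (∑ r ∈ range j, (XM N F ^ r) a a * ((XM N F ^ (j - 1 - r) * Li s) b e * (XM N F ^ l) e b)) +
        ∑ r ∈ range l, ((XM N F ^ j * Li s) a e * (XM N F ^ r) e a) * (XM N F ^ (l - 1 - r)) b b := by
      intro e
      rw [Li, Matrix.mul_diagonal, MvPolynomial.pderiv_mul, MvPolynomial.pderiv_mul,
        MvPolynomial.pderiv_C, mul_zero, add_zero, pderiv_pow, pderiv_pow, sum_mul, sum_mul, mul_sum]
      congr 1
      · refine sum_congr rfl fun r _ => ?_
        rw [Matrix.mul_diagonal]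
        ring
      · refine sum_congr rfl fun r _ => ?_
        ring
    rw [sum_congr rfl fun e _ => h2 e, sum_add_distrib, sum_comm, sum_comm (s := univ) (t := range l)]
    congr 1
    · refine sum_congr rfl fun r _ => by rw [mul_sum]
    · refine sum_congr rfl fun r _ => by rw [sum_mul]
  simp only [h1, sum_add_distrib]
  congr 1
  · have : ∀ r ∈ range j, ∑ a, ∑ b, (XM N F ^ r) a a *
        ∑ e, (XM N F ^ (j - 1 - r) * Li s) b e * (XM N F ^ l) e b =
        pt N F r * TT s (j + l - 1 - r) := by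
      intro r hr
      have hr' : r < j := mem_range.mp hr
      have e1 : j + l - 1 - r = (j - 1 - r) + l := by omega
      rw [e1, ← tr_pow_Li, pt, sum_mul]
      refine sum_congr rfl fun a _ => ?_
      rw [← mul_sum, Matrix.trace]
      rfl
    rw [← sum_congr rfl this]
    rw [sum_comm (s := range j)]
    refine sum_congr rfl fun a _ => ?_
    rw [sum_comm]
  · have : ∀ r ∈ range l, ∑ a, ∑ b, (∑ e, (XM N F ^ j * Li s) a e * (XM N F ^ r) e a) *
        (XM N F ^ (l - 1 - r)) b b =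
        pt N F (l - 1 - r) * TT s (j + r) := by
      intro r hr
      rw [← tr_pow_Li, pt, mul_comm, Matrix.trace, sum_mul]
      refine sum_congr rfl fun a _ => ?_
      rw [← mul_sum]
      rfl
    have h3 : ∑ r ∈ range l, pt N F r * TT s (j + l - 1 - r) =
        ∑ r ∈ range l, pt N F (l - 1 - r) * TT s (j + r) := by
      rw [← sum_range_reflect]
      refine sum_congr rfl fun r hr => ?_
      have hr' : r < l := mem_range.mp hr
      congr 2
      omega
    rw [h3, ← sum_congr rfl this]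
    rw [sum_comm (s := range l)]
    refine sum_congr rfl fun a _ => ?_
    rw [sum_comm]

private theorem div_side (s : Fin N → F) (ν : ℕ) :
    ∑ a, ∑ b, MvPolynomial.pderiv (a, b) (AMt s (2 * ν) a b) =
      2 * ∑ k ∈ range ν, pt N F (2 * k + 1) * TT s (2 * (ν - 1 - k)) := by
  have h1 : ∀ a b : Fin N, MvPolynomial.pderiv (a, b) (AMt s (2 * ν) a b) =
      ∑ j ∈ range (2 * ν + 1), (-1 : MX N F) ^ j *
        MvPolynomial.pderiv (a, b) ((XM N F ^ j * Li s * XM N F ^ (2 * ν - j)) a b) := by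
    intro a b
    rw [AMt, Matrix.sum_apply, map_sum]
    refine sum_congr rfl fun j _ => ?_
    rw [Matrix.smul_apply, smul_eq_mul, MvPolynomial.pderiv_mul]
    have : MvPolynomial.pderiv (a, b) ((-1 : MX N F) ^ j) = 0 := by
      rw [show ((-1 : MX N F) ^ j) = MvPolynomial.C ((-1 : F) ^ j) by simp, MvPolynomial.pderiv_C]
    rw [this, zero_mul, zero_add]
  have h2 : ∑ a, ∑ b, MvPolynomial.pderiv (a, b) (AMt s (2 * ν) a b) =
      ∑ j ∈ range (2 * ν + 1), (-1 : MX N F) ^ j *
        (∑ r ∈ range j, pt N F r * TT s (2 * ν - 1 - r) +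
          ∑ r ∈ range (2 * ν - j), pt N F r * TT s (2 * ν - 1 - r)) := by
    simp only [h1]
    rw [sum_congr rfl fun a _ => sum_comm, sum_comm]
    refine sum_congr rfl fun j hj => ?_
    have hj' : j < 2 * ν + 1 := mem_range.mp hj
    have e1 : j + (2 * ν - j) = 2 * ν := by omega
    rw [← e1, show j + (2 * ν - j) - j = 2 * ν - j by omega]
    rw [← div_one, mul_sum]
    refine sum_congr rfl fun a _ => ?_
    rw [mul_sum]
  rw [h2]
  simp only [mul_add, sum_add_distrib]
  rw [altSumA, altSumA', ← two_mul]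
  congr 1
  refine sum_congr rfl fun k hk => ?_
  have hk' : k < ν := mem_range.mp hk
  congr 2
  omega

private theorem chain_aux [Algebra ℝ F] (a b : Fin N) (f : MvPolynomial ℕ ℝ) :
    ∃ S₀ : Finset ℕ, ∀ S : Finset ℕ, S₀ ⊆ S →
      MvPolynomial.pderiv (a, b) (subT N F f) =
        ∑ j ∈ S, subT N F (MvPolynomial.pderiv j f) *
          MvPolynomial.pderiv (a, b) (pt N F (2 * j + 1)) := by
  classical
  induction f using MvPolynomial.induction_on with
  | C r =>
    refine ⟨∅, fun S _ => ?_⟩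
    have h1 : subT N F (MvPolynomial.C r) = MvPolynomial.C (algebraMap ℝ F r) := by
      rw [subT, MvPolynomial.aeval_C]
      rfl
    rw [h1, MvPolynomial.pderiv_C]
    refine (sum_eq_zero fun j _ => ?_).symm
    rw [MvPolynomial.pderiv_C, map_zero, zero_mul]
  | add p q hp hq =>
    obtain ⟨S₁, h₁⟩ := hp
    obtain ⟨S₂, h₂⟩ := hq
    refine ⟨S₁ ∪ S₂, fun S hS => ?_⟩
    rw [map_add, map_add, h₁ S (subset_trans subset_union_left hS),
      h₂ S (subset_trans subset_union_right hS), ← sum_add_distrib]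
    refine sum_congr rfl fun j _ => ?_
    rw [map_add, map_add, add_mul]
  | mul_X p i hp =>
    obtain ⟨S₁, h₁⟩ := hp
    refine ⟨insert i S₁, fun S hS => ?_⟩
    have hi : i ∈ S := hS (mem_insert_self _ _)
    have hX : subT N F (MvPolynomial.X i) = pt N F (2 * i + 1) := by
      rw [subT, MvPolynomial.aeval_X]
    rw [map_mul, hX, MvPolynomial.pderiv_mul, h₁ S (subset_trans (subset_insert _ _) hS)]
    have h2 : ∀ j ∈ S, subT N F (MvPolynomial.pderiv j (p * MvPolynomial.X i)) *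
        MvPolynomial.pderiv (a, b) (pt N F (2 * j + 1)) =
        subT N F (MvPolynomial.pderiv j p) * MvPolynomial.pderiv (a, b) (pt N F (2 * j + 1)) *
          pt N F (2 * i + 1) +
        if j = i then subT N F p * MvPolynomial.pderiv (a, b) (pt N F (2 * i + 1)) else 0 := by
      intro j _
      rw [MvPolynomial.pderiv_mul, map_add, map_mul, map_mul, hX, add_mul]
      congr 1
      · ring
      · by_cases hji : j = i
        · subst hji
          rw [if_pos rfl, MvPolynomial.pderiv_X_self, map_one, mul_one]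
        · rw [if_neg hji, MvPolynomial.pderiv_X_of_ne (Ne.symm hji), map_zero, mul_zero, zero_mul]
    rw [sum_congr rfl h2, sum_add_distrib, sum_ite_eq' S i, if_pos hi, sum_mul]

private theorem chain [Algebra ℝ F] (a b : Fin N) (f : MvPolynomial ℕ ℝ) :
    MvPolynomial.pderiv (a, b) (subT N F f) =
      ∑ j ∈ f.vars, subT N F (MvPolynomial.pderiv j f) *
        (((2 * j + 1 : ℕ) : MX N F) * (XM N F ^ (2 * j)) b a) := by
  classical
  obtain ⟨S₀, h⟩ := chain_aux (N := N) (F := F) a b f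
  rw [h (S₀ ∪ f.vars) subset_union_left]
  symm
  have h1 : ∀ j, MvPolynomial.pderiv (a, b) (pt N F (2 * j + 1)) =
      ((2 * j + 1 : ℕ) : MX N F) * (XM N F ^ (2 * j)) b a := by
    intro j
    rw [pderiv_pt]
    rfl
  simp only [h1]
  refine sum_subset subset_union_right fun j _ hj => ?_
  rw [MvPolynomial.pderiv_eq_zero_of_notMem_vars hj, map_zero, zero_mul]

private theorem trA (s : Fin N → F) (ν k : ℕ) :
    ∑ a, ∑ b, AMt s (2 * ν) a b * (XM N F ^ (2 * k)) b a = TT s (2 * (ν + k)) := by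
  have h0 : ∑ a, ∑ b, AMt s (2 * ν) a b * (XM N F ^ (2 * k)) b a =
      Matrix.trace (AMt s (2 * ν) * XM N F ^ (2 * k)) := by
    rw [Matrix.trace]
    refine sum_congr rfl fun a _ => ?_
    rw [Matrix.diag_apply, Matrix.mul_apply]
  rw [h0, AMt, Matrix.sum_mul, Matrix.trace_sum]
  have h1 : ∀ j ∈ range (2 * ν + 1), Matrix.trace
      ((-1 : MX N F) ^ j • (XM N F ^ j * Li s * XM N F ^ (2 * ν - j)) * XM N F ^ (2 * k)) =
      (-1 : MX N F) ^ j * TT s (2 * (ν + k)) := by
    intro j hj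
    have hj' : j < 2 * ν + 1 := mem_range.mp hj
    rw [Matrix.smul_mul, Matrix.trace_smul, smul_eq_mul, mul_assoc, ← pow_add, tr_pow_Li]
    congr 2
    omega
  rw [sum_congr rfl h1, ← sum_mul, alt_one, one_mul]

theorem starId [Algebra ℝ F] (s : Fin N → F) (hs : ∀ i, s i ≠ 0) (hs2 : ∀ i j, s i + s j ≠ 0)
    (E : MX N F →ₗ[F] F) (hE : IsMat s E) (ν : ℕ) (f : MvPolynomial ℕ ℝ) :
    E (pt N F (2 * ν + 1) * subT N F f) =
      ∑ j ∈ range ν, E (TT s (2 * (ν - 1 - j)) * subT N F (MvPolynomial.X j * f)) +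
      ∑ j ∈ f.vars, ((2 * (j : ℝ) + 1) / 2) •
        E (TT s (2 * (ν + j)) * subT N F (MvPolynomial.pderiv j f)) := by
  have hchar : CharZero F := charZero_of_injective_algebraMap (algebraMap ℝ F).injective
  have step : ∀ (i j : Fin N) (h : MX N F),
      E (MvPolynomial.C (s i + s j) * (XM N F i j * h)) = E (MvPolynomial.pderiv (j, i) h) := by
    intro i j h
    rw [← MvPolynomial.smul_eq_C_mul, map_smul, XM, hE.step, smul_eq_mul, ← mul_assoc,
      mul_inv_cancel₀ (hs2 i j), one_mul]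
  have key : E (2 * pt N F (2 * ν + 1) * subT N F f) =
      E ((2 * ∑ k ∈ range ν, pt N F (2 * k + 1) * TT s (2 * (ν - 1 - k))) * subT N F f) +
      ∑ j ∈ f.vars, E (((2 * j + 1 : ℕ) : MX N F) *
        (TT s (2 * (ν + j)) * subT N F (MvPolynomial.pderiv j f))) := by
    rw [← left_side s hs ν, ← div_side s ν]
    have h1 : (∑ i, ∑ j, MvPolynomial.C (s i + s j) * (XM N F i j * AMt s (2 * ν) j i)) *
        subT N F f = ∑ i, ∑ j, MvPolynomial.C (s i + s j) *
          (XM N F i j * (AMt s (2 * ν) j i * subT N F f)) := by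
      rw [sum_mul]
      refine sum_congr rfl fun i _ => ?_
      rw [sum_mul]
      refine sum_congr rfl fun j _ => by ring
    rw [h1, map_sum]
    have h2 : ∀ i, E (∑ j, MvPolynomial.C (s i + s j) *
        (XM N F i j * (AMt s (2 * ν) j i * subT N F f))) =
        ∑ j, E (MvPolynomial.pderiv (j, i) (AMt s (2 * ν) j i * subT N F f)) := by
      intro i
      rw [map_sum]
      exact sum_congr rfl fun j _ => step i j _
    rw [sum_congr rfl fun i _ => h2 i, sum_comm]
    have h3 : ∀ a b : Fin N, E (MvPolynomial.pderiv (a, b) (AMt s (2 * ν) a b * subT N F f)) =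
        E (MvPolynomial.pderiv (a, b) (AMt s (2 * ν) a b) * subT N F f) +
        ∑ j ∈ f.vars, E (((2 * j + 1 : ℕ) : MX N F) * ((AMt s (2 * ν) a b * (XM N F ^ (2 * j)) b a) *
          subT N F (MvPolynomial.pderiv j f))) := by
      intro a b
      rw [MvPolynomial.pderiv_mul, map_add, chain, mul_sum, map_sum]
      congr 1
      refine sum_congr rfl fun j _ => ?_
      congr 1
      ring
    simp only [h3, sum_add_distrib]
    congr 1
    · rw [sum_mul, map_sum]
      refine sum_congr rfl fun a _ => ?_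
      rw [sum_mul, map_sum]
    · rw [sum_congr rfl fun a _ => sum_comm, sum_comm]
      refine sum_congr rfl fun j _ => ?_
      rw [← trA s ν j, sum_mul, mul_sum, map_sum]
      refine sum_congr rfl fun a _ => ?_
      rw [sum_mul, mul_sum, map_sum]
  have h2F : (2 : F) ≠ 0 := two_ne_zero
  have e2 : ∀ g : MX N F, E (2 * g) = 2 * E g := by
    intro g
    have h : (2 : MX N F) * g = (2 : F) • g := by
      rw [MvPolynomial.smul_eq_C_mul, show (MvPolynomial.C (2 : F) : MX N F) = 2 from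
        map_ofNat MvPolynomial.C 2]
    rw [h, map_smul, smul_eq_mul]
  have eN : ∀ (j : ℕ) (g : MX N F), E (((2 * j + 1 : ℕ) : MX N F) * g) =
      ((2 * j + 1 : ℕ) : F) * E g := by
    intro j g
    have h : ((2 * j + 1 : ℕ) : MX N F) * g = ((2 * j + 1 : ℕ) : F) • g := by
      rw [MvPolynomial.smul_eq_C_mul, show (MvPolynomial.C ((2 * j + 1 : ℕ) : F) : MX N F) =
        ((2 * j + 1 : ℕ) : MX N F) from map_natCast MvPolynomial.C (2 * j + 1)]
    rw [h, map_smul, smul_eq_mul]
  have key2 : 2 * E (pt N F (2 * ν + 1) * subT N F f) =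
      2 * ∑ j ∈ range ν, E (TT s (2 * (ν - 1 - j)) * subT N F (MvPolynomial.X j * f)) +
      ∑ j ∈ f.vars, ((2 * j + 1 : ℕ) : F) *
        E (TT s (2 * (ν + j)) * subT N F (MvPolynomial.pderiv j f)) := by
    rw [← e2, ← mul_assoc, key]
    congr 1
    · rw [mul_assoc, e2, sum_mul, map_sum]
      congr 1
      refine sum_congr rfl fun k _ => ?_
      have hX : subT N F (MvPolynomial.X k) = pt N F (2 * k + 1) := by
        rw [subT, MvPolynomial.aeval_X]
      rw [map_mul (subT N F), hX]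
      congr 1
      ring
    · exact sum_congr rfl fun j _ => eN j _
  have key3 : ∀ j ∈ f.vars, ((2 * (j : ℝ) + 1) / 2) •
        E (TT s (2 * (ν + j)) * subT N F (MvPolynomial.pderiv j f)) =
      (1 / 2 : F) * (((2 * j + 1 : ℕ) : F) *
        E (TT s (2 * (ν + j)) * subT N F (MvPolynomial.pderiv j f))) := by
    intro j _
    rw [Algebra.smul_def, ← mul_assoc]
    congr 1
    rw [map_div₀, map_add, map_mul, map_natCast, map_one]
    simp only [map_ofNat]
    push_cast
    ring
  rw [sum_congr rfl key3, ← mul_sum]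
  have : E (pt N F (2 * ν + 1) * subT N F f) = (1 / 2 : F) * (2 * E (pt N F (2 * ν + 1) * subT N F f)) := by
    rw [← mul_assoc, one_div_mul_cancel h2F, one_mul]
  rw [this, key2, mul_add, ← mul_assoc, one_div_mul_cancel h2F, one_mul]

end Pool.Agent.Helper52.MVD
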