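import Pool.Agent.Helper52.MVD.MDefs

/-!
Project MV, block D1, module D1-2: Wick's theorem, with pairings as fixed point free involutions.

Proof. Induction on `Fintype.card H` (over all types `H`). `H` empty: one involution, empty product
over `Cyc τ`, `E 1 = 1`. `H` nonempty: fix `h₀`. `∏_h X (x h) = X (x h₀) * ∏_{h ≠ h₀} X (x h)`, and
`∂_b ∏_{h ≠ h₀} X (x h) = ∑_{h₁ ≠ h₀} [x h₁ = b] ∏_{h ≠ h₀, h₁} X (x h)` (derivation of a product), so
`E (∏_h X (x h)) = ∑_{h₁ ≠ h₀} C (x h₀) (x h₁) E (∏_{h ∈ H'} X (x h))`, `H' = {h // h ≠ h₀ ∧ h ≠ h₁}`.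
Pairings `τ` of `H` with `τ h₀ = h₁` correspond to the pairings `τ'` of `H'` (restriction,
e.g. `Equiv.Perm.subtypePerm`, inverse: `τ'` extended by the transposition of `h₀, h₁`), and the
cycles of `τ` are `{h₀, h₁}` and the cycles of `τ'`. The product `∏_{e : Cyc τ} g e.rep`,
`g h = C (x h) (x (τ h))`, does not depend on the choice of the representatives because
`g (τ h) = g h` (symmetry of `C`, `τ τ h = h`); so it is `C (x h₀) (x h₁)` times the same product
for `τ'`. (Any other proof is fine, e.g. through `∏_{e : Cyc τ} g e.rep` = product over the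
2-element sets `{h, τ h}`.)
-/

namespace Pool.Agent.Helper52.MVD

open Finset Pool.Agent.Helper60.MV

/-- sum over all pairings of `H` of the product over the pairs -/
noncomputable def wsum {F H : Type} [Field F] [Fintype H] (c : H → H → F) : F := by
  classical
  exact ∑ τ ∈ univ.filter (fun τ : Equiv.Perm H => IsPairing τ),
    ∏ e : Cyc τ, c e.rep (τ e.rep)

theorem wsum_def {F H : Type} [Field F] [Fintype H] [Fintype (Equiv.Perm H)]
    [DecidablePred (fun τ : Equiv.Perm H => IsPairing τ)] (c : H → H → F) :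
    wsum c = ∑ τ ∈ (univ : Finset (Equiv.Perm H)).filter (fun τ => IsPairing τ),
      ∏ e : Cyc τ, c e.rep (τ e.rep) := by
  classical
  unfold wsum
  refine Finset.sum_congr ?_ (fun _ _ => rfl)
  ext τ
  simp only [Finset.mem_filter, Finset.mem_univ, true_and]

theorem pairing_sameCycle {H : Type} {τ : Equiv.Perm H} (hτ : IsPairing τ) {a b : H}
    (h : τ.SameCycle a b) : b = a ∨ b = τ a := by
  obtain ⟨i, rfl⟩ := h
  have key : ∀ n : ℕ, (τ ^ n) a = a ∨ (τ ^ n) a = τ a := by
    intro n
    induction n with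
    | zero => left; simp
    | succ n ih =>
      rw [pow_succ', Equiv.Perm.mul_apply]
      rcases ih with h | h
      · right; rw [h]
      · left; rw [h, hτ.invol]
  have hinv : τ⁻¹ = τ := by
    ext x
    rw [Equiv.Perm.inv_eq_iff_eq]
    exact (hτ.invol x).symm
  rcases Int.eq_nat_or_neg i with ⟨n, rfl | rfl⟩
  · simpa using key n
  · rw [zpow_neg, zpow_natCast, ← inv_pow, hinv]
    exact key n

/-- the value of a pair -/
noncomputable def gval {F H : Type} (c : H → H → F) (hc : ∀ a b, c a b = c b a)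
    {τ : Equiv.Perm H} (hτ : IsPairing τ) : Cyc τ → F :=
  Quotient.lift (fun h => c h (τ h)) (by
    intro a b hab
    have h : τ.SameCycle a b := hab
    rcases pairing_sameCycle hτ h with rfl | rfl
    · rfl
    · show c a (τ a) = c (τ a) (τ (τ a))
      rw [hτ.invol]
      exact hc _ _)

theorem gval_cyc {F H : Type} (c : H → H → F) (hc : ∀ a b, c a b = c b a)
    {τ : Equiv.Perm H} (hτ : IsPairing τ) (h : H) : gval c hc hτ (cyc τ h) = c h (τ h) := rfl

theorem gval_rep {F H : Type} (c : H → H → F) (hc : ∀ a b, c a b = c b a)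
    {τ : Equiv.Perm H} (hτ : IsPairing τ) (e : Cyc τ) : c e.rep (τ e.rep) = gval c hc hτ e := by
  conv_rhs => rw [← Quotient.out_eq e]
  rfl

section ext

variable {H : Type} [DecidableEq H]

/-- the rest of `H` -/
abbrev Rest (h₀ h₁ : H) : Type := {h : H // h ≠ h₀ ∧ h ≠ h₁}

/-- extension of a permutation of the rest -/
def extP (h₀ h₁ : H) (τ' : Equiv.Perm (Rest h₀ h₁)) : Equiv.Perm H :=
  Equiv.swap h₀ h₁ * Equiv.Perm.ofSubtype τ'

theorem extP_left (h₀ h₁ : H) (τ' : Equiv.Perm (Rest h₀ h₁)) : extP h₀ h₁ τ' h₀ = h₁ := by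
  unfold extP
  rw [Equiv.Perm.mul_apply, Equiv.Perm.ofSubtype_apply_of_not_mem _ (by simp)]
  simp

theorem extP_right (h₀ h₁ : H) (τ' : Equiv.Perm (Rest h₀ h₁)) : extP h₀ h₁ τ' h₁ = h₀ := by
  unfold extP
  rw [Equiv.Perm.mul_apply, Equiv.Perm.ofSubtype_apply_of_not_mem _ (by simp)]
  simp

theorem extP_coe (h₀ h₁ : H) (τ' : Equiv.Perm (Rest h₀ h₁)) (h : Rest h₀ h₁) :
    extP h₀ h₁ τ' h = τ' h := by
  unfold extP
  rw [Equiv.Perm.mul_apply, Equiv.Perm.ofSubtype_apply_coe]
  exact Equiv.swap_apply_of_ne_of_ne (τ' h).2.1 (τ' h).2.2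

theorem extP_pairing {h₀ h₁ : H} (hne : h₁ ≠ h₀) {τ' : Equiv.Perm (Rest h₀ h₁)}
    (hτ : IsPairing τ') : IsPairing (extP h₀ h₁ τ') := by
  constructor
  · intro h
    by_cases e0 : h = h₀
    · subst e0; rw [extP_left, extP_right]
    by_cases e1 : h = h₁
    · subst e1; rw [extP_right, extP_left]
    have := extP_coe h₀ h₁ τ' ⟨h, e0, e1⟩
    simp only at this
    rw [this, extP_coe, hτ.invol]
  · intro h
    by_cases e0 : h = h₀
    · subst e0; rw [extP_left]; exact hne
    by_cases e1 : h = h₁
    · subst e1; rw [extP_right]; exact fun h => hne h.symm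
    have := extP_coe h₀ h₁ τ' ⟨h, e0, e1⟩
    simp only at this
    rw [this]
    intro h2
    exact hτ.fpf ⟨h, e0, e1⟩ (Subtype.ext h2)

theorem cyc_eq_iff {H : Type} {τ : Equiv.Perm H} {a b : H} :
    cyc τ a = cyc τ b ↔ τ.SameCycle a b := by
  constructor
  · intro h; exact Quotient.exact h
  · intro h; exact Quotient.sound h

theorem pairing_cyc {H : Type} {τ : Equiv.Perm H} (hτ : IsPairing τ) {a b : H} :
    cyc τ a = cyc τ b ↔ (b = a ∨ b = τ a) := by
  rw [cyc_eq_iff]
  constructor
  · exact pairing_sameCycle hτ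
  · rintro (rfl | rfl)
    · exact Equiv.Perm.SameCycle.refl _ _
    · exact ⟨1, by simp⟩

/-- the map from cycles of the rest -/
def cmap (h₀ h₁ : H) {τ' : Equiv.Perm (Rest h₀ h₁)} (hne : h₁ ≠ h₀) (hτ : IsPairing τ') :
    Option (Cyc τ') → Cyc (extP h₀ h₁ τ')
  | none => cyc _ h₀
  | some e => Quotient.lift (fun h : Rest h₀ h₁ => cyc (extP h₀ h₁ τ') (h : H)) (by
      intro a b hab
      have h : τ'.SameCycle a b := hab
      rw [pairing_cyc (extP_pairing hne hτ)]
      rcases pairing_sameCycle hτ h with rfl | rfl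
      · left; rfl
      · right; rw [extP_coe]) e

theorem cmap_bij (h₀ h₁ : H) {τ' : Equiv.Perm (Rest h₀ h₁)} (hne : h₁ ≠ h₀)
    (hτ : IsPairing τ') : Function.Bijective (cmap h₀ h₁ hne hτ) := by
  have hp := extP_pairing hne hτ
  constructor
  · intro e f hef
    cases e with
    | none =>
      cases f with
      | none => rfl
      | some f =>
        induction f using Quotient.inductionOn with
        | _ b =>
          exfalso
          have h : cyc (extP h₀ h₁ τ') h₀ = cyc (extP h₀ h₁ τ') (b : H) := hef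
          rw [pairing_cyc hp, extP_left] at h
          rcases h with h | h
          · exact b.2.1 h
          · exact b.2.2 h
    | some e =>
      induction e using Quotient.inductionOn with
      | _ a =>
        cases f with
        | none =>
          exfalso
          have h : cyc (extP h₀ h₁ τ') h₀ = cyc (extP h₀ h₁ τ') (a : H) := hef.symm
          rw [pairing_cyc hp, extP_left] at h
          rcases h with h | h
          · exact a.2.1 h
          · exact a.2.2 h
        | some f =>
          induction f using Quotient.inductionOn with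
          | _ b =>
            have h : cyc (extP h₀ h₁ τ') (a : H) = cyc (extP h₀ h₁ τ') (b : H) := hef
            rw [pairing_cyc hp, extP_coe] at h
            congr 1
            show cyc τ' a = cyc τ' b
            rw [pairing_cyc hτ]
            rcases h with h | h
            · left; exact Subtype.ext h
            · right; exact Subtype.ext h
  · intro e
    induction e using Quotient.inductionOn with
    | _ h =>
      by_cases e0 : h = h₀
      · exact ⟨none, by subst e0; rfl⟩
      by_cases e1 : h = h₁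
      · refine ⟨none, ?_⟩
        show cyc (extP h₀ h₁ τ') h₀ = cyc (extP h₀ h₁ τ') h
        rw [pairing_cyc hp, extP_left]
        right; exact e1
      · exact ⟨some (cyc τ' ⟨h, e0, e1⟩), rfl⟩

end ext

theorem prod_ext {F H : Type} [Field F] [Fintype H] [DecidableEq H] (c : H → H → F)
    (hc : ∀ a b, c a b = c b a) {h₀ h₁ : H} (hne : h₁ ≠ h₀) {τ' : Equiv.Perm (Rest h₀ h₁)}
    (hτ : IsPairing τ') :
    (∏ e : Cyc (extP h₀ h₁ τ'), c e.rep (extP h₀ h₁ τ' e.rep)) =
      c h₀ h₁ * ∏ e : Cyc τ', c e.rep (τ' e.rep) := by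
  have hp := extP_pairing hne hτ
  have e1 : (∏ e : Cyc (extP h₀ h₁ τ'), c e.rep (extP h₀ h₁ τ' e.rep)) =
      ∏ e : Cyc (extP h₀ h₁ τ'), gval c hc hp e :=
    Finset.prod_congr rfl (fun e _ => gval_rep c hc hp e)
  rw [e1, ← (Equiv.ofBijective _ (cmap_bij h₀ h₁ hne hτ)).prod_comp, Fintype.prod_option]
  congr 1
  · show c h₀ (extP h₀ h₁ τ' h₀) = _
    rw [extP_left]
  · refine Finset.prod_congr rfl (fun e _ => ?_)
    have hc' : ∀ a b : Rest h₀ h₁, (fun a b : Rest h₀ h₁ => c a b) a b =
        (fun a b : Rest h₀ h₁ => c a b) b a := fun a b => hc _ _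
    rw [gval_rep (fun a b : Rest h₀ h₁ => c a b) hc' hτ e]
    induction e using Quotient.inductionOn with
    | _ a =>
      show c a (extP h₀ h₁ τ' a) = c a (τ' a)
      rw [extP_coe]

theorem wsum_step {F H : Type} [Field F] [Fintype H] [DecidableEq H] (c : H → H → F)
    (hc : ∀ a b, c a b = c b a) (h₀ : H) :
    wsum c = ∑ h₁ ∈ univ.erase h₀, c h₀ h₁ * wsum (fun a b : Rest h₀ h₁ => c a b) := by
  classical
  have e1 : (∑ τ ∈ univ.filter (fun τ : Equiv.Perm H => IsPairing τ),
      ∏ e : Cyc τ, c e.rep (τ e.rep)) = ∑ h₁ ∈ univ.erase h₀,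
        ∑ τ ∈ (univ.filter (fun τ : Equiv.Perm H => IsPairing τ)).filter (fun τ => τ h₀ = h₁),
          ∏ e : Cyc τ, c e.rep (τ e.rep) := by
    rw [Finset.sum_fiberwise_of_maps_to]
    intro τ hτ
    rw [Finset.mem_filter] at hτ
    rw [Finset.mem_erase]
    exact ⟨hτ.2.fpf h₀, Finset.mem_univ _⟩
  have e2 : (∑ τ ∈ univ.filter (fun τ : Equiv.Perm H => IsPairing τ),
      ∏ e : Cyc τ, c e.rep (τ e.rep)) = ∑ h₁ ∈ univ.erase h₀,
        c h₀ h₁ * ∑ τ' ∈ univ.filter (fun τ' : Equiv.Perm (Rest h₀ h₁) => IsPairing τ'),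
          ∏ e : Cyc τ', c e.rep (τ' e.rep) := by
    rw [e1]
    refine Finset.sum_congr rfl (fun h₁ hh₁ => ?_)
    have hne : h₁ ≠ h₀ := (Finset.mem_erase.1 hh₁).1
    rw [Finset.mul_sum]
    symm
    have hpres : ∀ τ : Equiv.Perm H, IsPairing τ → τ h₀ = h₁ →
        ∀ x, (x ≠ h₀ ∧ x ≠ h₁) ↔ (τ x ≠ h₀ ∧ τ x ≠ h₁) := by
      intro τ hτ h x
      have h' : τ h₁ = h₀ := by rw [← h, hτ.invol]
      constructor
      · rintro ⟨a, b⟩
        refine ⟨fun q => b ?_, fun q => a ?_⟩
        · rw [← hτ.invol x, q, h]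
        · rw [← hτ.invol x, q, h']
      · rintro ⟨a, b⟩
        refine ⟨fun q => b ?_, fun q => a ?_⟩
        · rw [q, h]
        · rw [q, h']
    refine Finset.sum_bij' (fun τ' _ => extP h₀ h₁ τ')
      (fun τ hτ => τ.subtypePerm (fun x => (hpres τ (Finset.mem_filter.1
        (Finset.mem_filter.1 hτ).1).2 (Finset.mem_filter.1 hτ).2 x).symm)) ?_ ?_ ?_ ?_ ?_
    · intro τ' hτ'
      rw [Finset.mem_filter] at hτ'
      rw [Finset.mem_filter, Finset.mem_filter]
      exact ⟨⟨Finset.mem_univ _, extP_pairing hne hτ'.2⟩, extP_left _ _ _⟩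
    · intro τ hτ
      rw [Finset.mem_filter, Finset.mem_filter] at hτ
      rw [Finset.mem_filter]
      refine ⟨Finset.mem_univ _, ?_, ?_⟩
      · intro x
        apply Subtype.ext
        simp only [Equiv.Perm.subtypePerm_apply]
        exact hτ.1.2.invol x
      · intro x hx
        have := congrArg Subtype.val hx
        simp only [Equiv.Perm.subtypePerm_apply] at this
        exact hτ.1.2.fpf x this
    · intro τ' hτ'
      ext x
      simp only [Equiv.Perm.subtypePerm_apply]
      exact extP_coe h₀ h₁ τ' x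
    · intro τ hτ
      rw [Finset.mem_filter, Finset.mem_filter] at hτ
      ext x
      by_cases e0 : x = h₀
      · subst e0; rw [extP_left]; exact hτ.2.symm
      by_cases e1 : x = h₁
      · subst e1; rw [extP_right, ← hτ.2, hτ.1.2.invol]
      · have := extP_coe h₀ h₁ (τ.subtypePerm (fun x => (hpres τ hτ.1.2 hτ.2 x).symm)) ⟨x, e0, e1⟩
        simp only [Equiv.Perm.subtypePerm_apply] at this
        exact this
    · intro τ' hτ'
      rw [Finset.mem_filter] at hτ'
      exact (prod_ext c hc hne hτ'.2).symm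
  rw [wsum_def, e2]
  refine Finset.sum_congr rfl (fun h₁ _ => ?_)
  rw [wsum_def]

theorem deriv_prod {α F : Type} [Field F] [DecidableEq α] {H : Type} [DecidableEq H]
    (x : H → α) (b : α) (s : Finset H) :
    MvPolynomial.pderiv b (∏ h ∈ s, (MvPolynomial.X (x h) : MvPolynomial α F)) =
      ∑ h₁ ∈ s, if x h₁ = b then ∏ h ∈ s.erase h₁, MvPolynomial.X (x h) else 0 := by
  induction s using Finset.induction_on with
  | empty => simp
  | insert a s ha ih =>
    rw [Finset.prod_insert ha, Derivation.leibniz, ih, Finset.sum_insert ha,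
      Finset.erase_insert ha, MvPolynomial.pderiv_X, add_comm]
    congr 1
    · by_cases h : x a = b
      · subst h
        simp
      · rw [if_neg h, Pi.single_eq_of_ne h]
        simp
    · rw [Finset.smul_sum]
      refine Finset.sum_congr rfl (fun h₁ hh₁ => ?_)
      have hne : a ≠ h₁ := fun h => ha (h ▸ hh₁)
      rw [Finset.erase_insert_of_ne hne]
      by_cases h : x h₁ = b
      · rw [if_pos h, if_pos h, Finset.prod_insert (fun h' => ha (Finset.mem_of_mem_erase h'))]
        rfl
      · rw [if_neg h, if_neg h, smul_zero]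

theorem wick_prod {α F : Type} [Field F] [Fintype α] [DecidableEq α]
    (C : α → α → F) (hC : ∀ a b, C a b = C b a) (E : MvPolynomial α F →ₗ[F] F) (h1 : E 1 = 1)
    (hE : ∀ a g, E (MvPolynomial.X a * g) = ∑ b, C a b * E (MvPolynomial.pderiv b g))
    {H : Type} [Fintype H] (x : H → α) :
    E (∏ h, MvPolynomial.X (x h)) = wsum (fun h h' => C (x h) (x h')) := by
  classical
  have main : ∀ n : ℕ, ∀ (H : Type) [Fintype H] (x : H → α), Fintype.card H = n →
      E (∏ h, MvPolynomial.X (x h)) = wsum (fun h h' => C (x h) (x h')) := by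
    intro n
    induction n using Nat.strong_induction_on with
    | _ n ih =>
      intro H _ x hcard
      rcases isEmpty_or_nonempty H with hH | ⟨⟨h₀⟩⟩
      · rw [Fintype.prod_empty, h1]
        rw [wsum_def]
        have hall : ∀ τ : Equiv.Perm H, (∏ e : Cyc τ,
            C (x e.rep) (x (τ e.rep))) = 1 := by
          intro τ
          have : IsEmpty (Cyc τ) := ⟨fun e => hH.elim e.rep⟩
          exact Fintype.prod_empty _
        rw [Finset.sum_congr rfl (fun τ _ => hall τ)]
        have huniv : (univ.filter (fun τ : Equiv.Perm H => IsPairing τ)) = {1} := by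
          ext τ
          rw [Finset.mem_filter, Finset.mem_singleton]
          constructor
          · intro _
            exact Subsingleton.elim _ _
          · intro _
            exact ⟨Finset.mem_univ _, fun h => hH.elim h, fun h => hH.elim h⟩
        rw [huniv]
        simp
      · rw [wsum_step (fun h h' => C (x h) (x h')) (fun a b => hC _ _) h₀]
        rw [← Finset.mul_prod_erase univ _ (Finset.mem_univ h₀), hE]
        have e1 : ∀ b, C (x h₀) b * E (MvPolynomial.pderiv b
            (∏ h ∈ univ.erase h₀, (MvPolynomial.X (x h) : MvPolynomial α F))) =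
            ∑ h₁ ∈ univ.erase h₀, if x h₁ = b then C (x h₀) (x h₁) *
              E (∏ h ∈ (univ.erase h₀).erase h₁, MvPolynomial.X (x h)) else 0 := by
          intro b
          rw [deriv_prod, map_sum, Finset.mul_sum]
          refine Finset.sum_congr rfl (fun h₁ _ => ?_)
          by_cases h : x h₁ = b
          · rw [if_pos h, if_pos h, h]
          · rw [if_neg h, if_neg h, map_zero, mul_zero]
        rw [Finset.sum_congr rfl (fun b _ => e1 b), Finset.sum_comm]
        refine Finset.sum_congr rfl (fun h₁ hh₁ => ?_)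
        have hne : h₁ ≠ h₀ := (Finset.mem_erase.1 hh₁).1
        rw [Finset.sum_ite_eq, if_pos (Finset.mem_univ _)]
        congr 1
        have e2 : (∏ h ∈ (univ.erase h₀).erase h₁, (MvPolynomial.X (x h) : MvPolynomial α F)) =
            ∏ h : Rest h₀ h₁, MvPolynomial.X (x h) := by
          refine (Finset.prod_subtype _ ?_ _)
          intro h
          rw [Finset.mem_erase, Finset.mem_erase]
          constructor
          · rintro ⟨a, b, _⟩; exact ⟨b, a⟩
          · rintro ⟨a, b⟩; exact ⟨b, a, Finset.mem_univ _⟩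
        rw [e2]
        refine ih (Fintype.card (Rest h₀ h₁)) ?_ (Rest h₀ h₁) (fun h => x h) rfl
        rw [← hcard]
        exact Fintype.card_subtype_lt (x := h₀) (by simp)
  exact main _ H x rfl

end Pool.Agent.Helper52.MVD
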